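import Mathlib

/-! The number of solutions of `x₁²+x₂²+x₃²+x₄² = y₁²+y₂²+y₃²+y₄²` in a box is `O(P⁶)`. -/

set_option autoImplicit false

namespace Pool.Agent.H520R3

open Finset

/-- Bezout for four numbers -/
lemma bezout4 (M : ℕ) (b : Fin 3 → ℕ) :
    ∃ (z : ℤ) (u : Fin 3 → ℤ),
      ((Nat.gcd M (Nat.gcd (b 0) (Nat.gcd (b 1) (b 2))) : ℕ) : ℤ) = M * z + ∑ j, u j * b j := by
  have h1 := Nat.gcd_eq_gcd_ab (b 1) (b 2)
  have h2 := Nat.gcd_eq_gcd_ab (b 0) (Nat.gcd (b 1) (b 2))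
  have h3 := Nat.gcd_eq_gcd_ab M (Nat.gcd (b 0) (Nat.gcd (b 1) (b 2)))
  set x1 := Nat.gcdA (b 1) (b 2)
  set y1 := Nat.gcdB (b 1) (b 2)
  set x2 := Nat.gcdA (b 0) (Nat.gcd (b 1) (b 2))
  set y2 := Nat.gcdB (b 0) (Nat.gcd (b 1) (b 2))
  set x3 := Nat.gcdA M (Nat.gcd (b 0) (Nat.gcd (b 1) (b 2)))
  set y3 := Nat.gcdB M (Nat.gcd (b 0) (Nat.gcd (b 1) (b 2)))
  refine ⟨x3, ![y3 * x2, y3 * y2 * x1, y3 * y2 * y1], ?_⟩
  rw [h3, h2, h1, Fin.sum_univ_three]
  simp only [Matrix.cons_val_zero, Matrix.cons_val_one, Matrix.cons_val]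
  ring

/-- the gcd of `M` and the three numbers `b j` -/
def gg (M : ℕ) (b : Fin 3 → ℕ) : ℕ := Nat.gcd M (Nat.gcd (b 0) (Nat.gcd (b 1) (b 2)))

lemma ker_card (M : ℕ) (hM : 1 ≤ M) (b : Fin 3 → ℕ) [NeZero M] :
    (univ.filter (fun α : Fin 3 → ZMod M => ∑ j, α j * (b j : ZMod M) = 0)).card ≤ gg M b * M ^ 2 := by
  set g := gg M b with hg
  have hgM : g ∣ M := Nat.gcd_dvd_left _ _
  have hgpos : 0 < g := Nat.pos_of_dvd_of_pos hgM hM
  obtain ⟨z, u, hzu⟩ := bezout4 M b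
  change ((g : ℕ) : ℤ) = _ at hzu
  set ker := univ.filter (fun α : Fin 3 → ZMod M => ∑ j, α j * (b j : ZMod M) = 0) with hker
  have hgz : ((g : ℕ) : ZMod M) = ∑ j, (u j : ZMod M) * (b j : ZMod M) := by
    have := congrArg (Int.cast : ℤ → ZMod M) hzu
    push_cast at this
    rw [this]
    simp
  have hinj : Set.InjOn (fun p : (Fin 3 → ZMod M) × ℕ => fun j => p.1 j + p.2 * (u j : ZMod M))
      (ker ×ˢ range (M / g) : Finset _) := by
    intro p hp q hq hpq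
    rw [mem_coe, mem_product, mem_range] at hp hq
    have h1 : ∀ j, p.1 j + p.2 * (u j : ZMod M) = q.1 j + q.2 * (u j : ZMod M) := congrFun hpq
    have h2 : ∀ r : (Fin 3 → ZMod M) × ℕ, r.1 ∈ ker →
        ∑ j, (r.1 j + r.2 * (u j : ZMod M)) * (b j : ZMod M) = ((r.2 * g : ℕ) : ZMod M) := by
      intro r hr
      have h3 := (mem_filter.1 hr).2
      calc ∑ j, (r.1 j + r.2 * (u j : ZMod M)) * (b j : ZMod M)
          = ∑ j, r.1 j * (b j : ZMod M) + r.2 * ∑ j, (u j : ZMod M) * (b j : ZMod M) := by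
            rw [mul_sum, ← sum_add_distrib]
            apply sum_congr rfl
            intro j _
            ring
        _ = _ := by rw [h3, ← hgz]; push_cast; ring
    have h3 : ((p.2 * g : ℕ) : ZMod M) = ((q.2 * g : ℕ) : ZMod M) := by
      rw [← h2 p hp.1, ← h2 q hq.1]
      apply sum_congr rfl
      intro j _
      rw [h1 j]
    have hlt : ∀ r : ℕ, r < M / g → r * g < M := by
      intro r hr
      calc r * g < (M / g) * g := Nat.mul_lt_mul_of_pos_right hr hgpos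
        _ ≤ M := Nat.div_mul_le_self _ _
    rw [ZMod.natCast_eq_natCast_iff] at h3
    have h4 : p.2 * g = q.2 * g := Nat.ModEq.eq_of_lt_of_lt h3 (hlt _ hp.2) (hlt _ hq.2)
    have h5 : p.2 = q.2 := Nat.eq_of_mul_eq_mul_right hgpos h4
    apply Prod.ext
    · funext j
      have := h1 j
      rw [h5] at this
      exact add_right_cancel this
    · exact h5
  have h1 := card_le_card_of_injOn (s := ker ×ˢ range (M / g)) (t := (univ : Finset (Fin 3 → ZMod M)))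
    _ (fun _ _ => mem_univ _) hinj
  rw [card_product, card_range, card_univ, Fintype.card_fun, ZMod.card, Fintype.card_fin] at h1
  have h2 : M / g * g = M := Nat.div_mul_cancel hgM
  have h3 : 0 < M / g := Nat.div_pos (Nat.le_of_dvd hM hgM) hgpos
  have h4 : ker.card * (M / g) ≤ (g * M ^ 2) * (M / g) := by
    calc ker.card * (M / g) ≤ M ^ 3 := h1
      _ = (M / g * g) * M ^ 2 := by rw [h2]; ring
      _ = (g * M ^ 2) * (M / g) := by ring
  exact Nat.le_of_mul_le_mul_right h4 h3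

/-- at most three integers of `[-M, M]` in a residue class mod `M` -/
lemma class_card (M : ℕ) (hM : 1 ≤ M) (a : ZMod M) :
    ((Icc (-(M:ℤ)) M).filter (fun z : ℤ => (z : ZMod M) = a)).card ≤ 3 := by
  have hM' : (0:ℤ) < M := by exact_mod_cast hM
  have : ((Icc (-(M:ℤ)) M).filter (fun z : ℤ => (z : ZMod M) = a)).card ≤ (Icc (-1:ℤ) 1).card := by
    apply card_le_card_of_injOn (fun z => z / (M : ℤ))
    · intro z hz
      rw [mem_coe, mem_filter, mem_Icc] at hz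
      rw [mem_coe, mem_Icc]
      constructor
      · exact Int.le_ediv_of_mul_le hM' (by linarith [hz.1.1])
      · have : z / (M:ℤ) ≤ (M:ℤ) / M := Int.ediv_le_ediv hM' hz.1.2
        rwa [Int.ediv_self hM'.ne'] at this
    · intro z hz w hw h
      rw [mem_coe, mem_filter] at hz hw
      have h1 : ((z : ℤ) : ZMod M) = (w : ZMod M) := by rw [hz.2, hw.2]
      rw [ZMod.intCast_eq_intCast_iff] at h1
      have h2 := Int.emod_add_mul_ediv z M
      have h3 := Int.emod_add_mul_ediv w M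
      have h4 : z / (M:ℤ) = w / M := h
      have h5 : z % (M:ℤ) = w % M := h1
      rw [← h2, ← h3, h4, h5]
  simpa using this

open Classical in
lemma alpha_card (M : ℕ) (hM : 1 ≤ M) (b : Fin 3 → ℕ) :
    ((Fintype.piFinset (fun _ : Fin 3 => Icc (-(M:ℤ)) M)).filter
      (fun α : Fin 3 → ℤ => (M : ℤ) ∣ ∑ j, α j * b j)).card ≤ 27 * (gg M b * M ^ 2) := by
  have : NeZero M := ⟨by omega⟩
  set S := (Fintype.piFinset (fun _ : Fin 3 => Icc (-(M:ℤ)) M)).filter
      (fun α : Fin 3 → ℤ => (M : ℤ) ∣ ∑ j, α j * b j) with hS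
  set f : (Fin 3 → ℤ) → (Fin 3 → ZMod M) := fun α j => (α j : ZMod M) with hf
  have h1 : S.card ≤ 27 * (S.image f).card := by
    apply card_le_mul_card_image
    intro a _
    have h2 : S.filter (fun x => f x = a) ⊆
        Fintype.piFinset (fun j => (Icc (-(M:ℤ)) M).filter (fun z : ℤ => (z : ZMod M) = a j)) := by
      intro x hx
      rw [mem_filter, hS, mem_filter, Fintype.mem_piFinset] at hx
      rw [Fintype.mem_piFinset]
      intro j
      rw [mem_filter]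
      exact ⟨hx.1.1 j, congrFun hx.2 j⟩
    refine le_trans (card_le_card h2) ?_
    rw [Fintype.card_piFinset, Fin.prod_univ_three]
    have h3 := class_card M hM (a 0)
    have h4 := class_card M hM (a 1)
    have h5 := class_card M hM (a 2)
    calc _ ≤ 3 * 3 * 3 := Nat.mul_le_mul (Nat.mul_le_mul h3 h4) h5
      _ = 27 := by norm_num
  have h2 : S.image f ⊆ univ.filter (fun α : Fin 3 → ZMod M => ∑ j, α j * (b j : ZMod M) = 0) := by
    intro a ha
    rw [mem_image] at ha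
    obtain ⟨x, hx, rfl⟩ := ha
    rw [mem_filter]
    refine ⟨mem_univ _, ?_⟩
    have := (mem_filter.1 hx).2
    rw [← ZMod.intCast_zmod_eq_zero_iff_dvd] at this
    push_cast at this
    exact this
  refine le_trans h1 (Nat.mul_le_mul_left _ (le_trans (card_le_card h2) ?_))
  exact ker_card M hM b

lemma sum_inv_sq (n : ℕ) : ∑ d ∈ Icc 1 n, (1 : ℝ) / (d : ℝ) ^ 2 ≤ 2 := by
  have h : ∀ n : ℕ, 1 ≤ n → ∑ d ∈ Icc 1 n, (1 : ℝ) / (d : ℝ) ^ 2 ≤ 2 - 1 / n := by
    intro n hn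
    induction n, hn using Nat.le_induction with
    | base => norm_num
    | succ n hn ih =>
      rw [sum_Icc_succ_top (by omega)]
      have hn' : (0:ℝ) < n := by exact_mod_cast hn
      have h1 : (1:ℝ) / ((n + 1 : ℕ) : ℝ) ^ 2 ≤ 1 / n - 1 / ((n + 1 : ℕ) : ℝ) := by
        push_cast
        rw [div_sub_div _ _ (by positivity) (by positivity), div_le_div_iff₀ (by positivity)
          (by positivity)]
        nlinarith
      linarith
  rcases Nat.eq_zero_or_pos n with rfl | hn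
  · simp
  · have := h n hn
    have h2 : (0:ℝ) < 1 / n := by positivity
    linarith

/-- `∑ gcd(M, β) ≤ 54 P³` over `β ∈ [0,2P]³`, for `M ≤ P`. -/
lemma sum_gg (M P : ℕ) (hM : 1 ≤ M) (hMP : M ≤ P) :
    (∑ b ∈ Fintype.piFinset (fun _ : Fin 3 => range (2 * P + 1)), (gg M b : ℝ)) ≤ 54 * (P : ℝ) ^ 3 := by
  have hP : (0:ℝ) < P := by exact_mod_cast (by omega : 0 < P)
  have h1 : ∀ b ∈ Fintype.piFinset (fun _ : Fin 3 => range (2 * P + 1)), (gg M b : ℝ) ≤
      ∑ d ∈ Icc 1 M, if (∀ j, d ∣ b j) then (d : ℝ) else 0 := by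
    intro b _
    have hgM : gg M b ∣ M := Nat.gcd_dvd_left _ _
    have hg1 : gg M b ∈ Icc 1 M := by
      rw [mem_Icc]
      exact ⟨Nat.pos_of_dvd_of_pos hgM hM, Nat.le_of_dvd hM hgM⟩
    have hg2 : ∀ j, gg M b ∣ b j := by
      have e1 : gg M b ∣ Nat.gcd (b 0) (Nat.gcd (b 1) (b 2)) := Nat.gcd_dvd_right _ _
      have e2 := e1.trans (Nat.gcd_dvd_left _ _)
      have e3 := e1.trans (Nat.gcd_dvd_right _ _)
      have e4 := e3.trans (Nat.gcd_dvd_left _ _)
      have e5 := e3.trans (Nat.gcd_dvd_right _ _)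
      intro j
      fin_cases j
      · exact e2
      · exact e4
      · exact e5
    have h2 : (gg M b : ℝ) = (fun d : ℕ => if (∀ j, d ∣ b j) then (d : ℝ) else 0) (gg M b) := by
      simp only
      rw [if_pos hg2]
    rw [h2]
    apply single_le_sum (f := fun d : ℕ => if (∀ j, d ∣ b j) then (d : ℝ) else 0) _ hg1
    intro d _
    split_ifs
    · positivity
    · exact le_rfl
  refine le_trans (sum_le_sum h1) ?_
  rw [sum_comm]
  have h3 : ∀ d ∈ Icc 1 M, ∑ b ∈ Fintype.piFinset (fun _ : Fin 3 => range (2 * P + 1)),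
      (if (∀ j, d ∣ b j) then (d : ℝ) else 0) ≤ 27 * (P : ℝ) ^ 3 * (1 / (d : ℝ) ^ 2) := by
    intro d hd
    rw [mem_Icc] at hd
    have hd0 : (0:ℝ) < d := by exact_mod_cast hd.1
    rw [← sum_filter, sum_const, nsmul_eq_mul]
    have h4 : (Fintype.piFinset (fun _ : Fin 3 => range (2 * P + 1))).filter (fun b => ∀ j, d ∣ b j) ⊆
        Fintype.piFinset (fun _ : Fin 3 => (range (2 * P + 1)).filter (fun z => d ∣ z)) := by
      intro b hb
      rw [mem_filter, Fintype.mem_piFinset] at hb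
      rw [Fintype.mem_piFinset]
      intro j
      rw [mem_filter]
      exact ⟨hb.1 j, hb.2 j⟩
    have h5 : ((range (2 * P + 1)).filter (fun z => d ∣ z)).card ≤ 2 * P / d + 1 := by
      have : (range (2 * P + 1)).filter (fun z => d ∣ z) ⊆
          (range (2 * P / d + 1)).image (fun k => d * k) := by
        intro z hz
        rw [mem_filter, mem_range] at hz
        obtain ⟨hz1, k, rfl⟩ := hz
        rw [mem_image]
        refine ⟨k, ?_, rfl⟩
        rw [mem_range]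
        have : k ≤ 2 * P / d := (Nat.le_div_iff_mul_le hd.1).2 (by rw [mul_comm]; omega)
        omega
      refine le_trans (card_le_card this) (le_trans card_image_le ?_)
      rw [card_range]
    have h6 : (((range (2 * P + 1)).filter (fun z => d ∣ z)).card : ℝ) ≤ 3 * P / d := by
      have h7 : ((2 * P / d : ℕ) : ℝ) ≤ ((2 * P : ℕ) : ℝ) / d := Nat.cast_div_le
      have h8 : (((range (2 * P + 1)).filter (fun z => d ∣ z)).card : ℝ) ≤
          ((2 * P / d : ℕ) : ℝ) + 1 := by exact_mod_cast h5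
      have h9 : (1:ℝ) ≤ P / d := by
        rw [le_div_iff₀ hd0, one_mul]
        exact_mod_cast le_trans hd.2 hMP
      push_cast at h7
      have h10 : 3 * (P:ℝ) / d = 2 * P / d + P / d := by ring
      rw [h10]
      linarith
    have h7 := card_le_card h4
    rw [Fintype.card_piFinset, Fin.prod_univ_three] at h7
    have h8 : (((Fintype.piFinset (fun _ : Fin 3 => range (2 * P + 1))).filter
        (fun b => ∀ j, d ∣ b j)).card : ℝ) ≤ (3 * P / d) ^ 3 := by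
      refine le_trans ((Nat.cast_le (α := ℝ)).2 h7) ?_
      push_cast
      have h9 : (0:ℝ) ≤ (((range (2 * P + 1)).filter (fun z => d ∣ z)).card : ℝ) := by positivity
      calc _ = (((range (2 * P + 1)).filter (fun z => d ∣ z)).card : ℝ) ^ 3 := by ring
        _ ≤ (3 * P / d) ^ 3 := pow_le_pow_left₀ h9 h6 3
    calc _ ≤ (3 * P / d) ^ 3 * (d : ℝ) := mul_le_mul_of_nonneg_right h8 hd0.le
      _ = 27 * (P : ℝ) ^ 3 * (1 / (d : ℝ) ^ 2) := by field_simp; ring
  refine le_trans (sum_le_sum h3) ?_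
  rw [← mul_sum]
  have := sum_inv_sq M
  have h4 : 0 < 27 * (P:ℝ) ^ 3 := by positivity
  nlinarith

/-- the solutions of `|x|² = |y|²` in `[0,P)⁴ × [0,P)⁴` -/
def sols (P : ℕ) : Finset ((Fin 4 → Fin P) × (Fin 4 → Fin P)) :=
  univ.filter (fun p => ∑ i, ((p.1 i : ℕ)) ^ 2 = ∑ i, ((p.2 i : ℕ)) ^ 2)

open Classical in
/-- triples for a given value `s` of the largest difference -/
noncomputable def trip (P : ℕ) (M : ℕ) : Finset ((_ : Fin 3 → ℕ) × (Fin 3 → ℤ)) :=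
  (Fintype.piFinset (fun _ : Fin 3 => range (2 * P + 1))).sigma
    (fun b => (Fintype.piFinset (fun _ : Fin 3 => Icc (-(M:ℤ)) M)).filter
      (fun α : Fin 3 → ℤ => (M : ℤ) ∣ ∑ j, α j * b j))

lemma trip_card (P M : ℕ) (hM : 1 ≤ M) (hMP : M ≤ P) : ((trip P M).card : ℝ) ≤ 1458 * (P : ℝ) ^ 5 := by
  unfold trip
  rw [card_sigma]
  push_cast
  have h1 : ∀ b ∈ Fintype.piFinset (fun _ : Fin 3 => range (2 * P + 1)),
      ((((Fintype.piFinset (fun _ : Fin 3 => Icc (-(M:ℤ)) M)).filter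
      (fun α : Fin 3 → ℤ => (M : ℤ) ∣ ∑ j, α j * b j)).card : ℕ) : ℝ) ≤ 27 * (P : ℝ) ^ 2 * gg M b := by
    intro b _
    have h2 := alpha_card M hM b
    have h3 : ((((Fintype.piFinset (fun _ : Fin 3 => Icc (-(M:ℤ)) M)).filter
      (fun α : Fin 3 → ℤ => (M : ℤ) ∣ ∑ j, α j * b j)).card : ℕ) : ℝ) ≤
      ((27 * (gg M b * M ^ 2) : ℕ) : ℝ) := by exact_mod_cast h2
    refine le_trans h3 ?_
    push_cast
    have h4 : (M : ℝ) ≤ P := by exact_mod_cast hMP
    have h5 : (M : ℝ) ^ 2 ≤ (P : ℝ) ^ 2 := pow_le_pow_left₀ (by positivity) h4 2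
    have h6 : (0:ℝ) ≤ gg M b := by positivity
    nlinarith
  refine le_trans (sum_le_sum h1) ?_
  rw [← mul_sum]
  have h2 := sum_gg M P hM hMP
  calc 27 * (P : ℝ) ^ 2 * _ ≤ 27 * (P : ℝ) ^ 2 * (54 * (P : ℝ) ^ 3) :=
        mul_le_mul_of_nonneg_left h2 (by positivity)
    _ = 1458 * (P : ℝ) ^ 5 := by ring

theorem count8 (P : ℕ) (hP : 1 ≤ P) : ((sols P).card : ℝ) ≤ 12000 * (P : ℝ) ^ 6 := by
  classical
  have hP1 : (1:ℝ) ≤ P := by exact_mod_cast hP
  set S0 : Finset ((Fin 4 → Fin P) × (Fin 4 → Fin P)) := univ.filter (fun p => p.1 = p.2) with hS0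
  set S : Fin 4 → Finset ((Fin 4 → Fin P) × (Fin 4 → Fin P)) := fun i0 => (sols P).filter (fun p =>
    ((p.1 i0 : ℕ) : ℤ) ≠ ((p.2 i0 : ℕ) : ℤ) ∧ ∀ i, |((p.1 i : ℕ) : ℤ) - ((p.2 i : ℕ) : ℤ)| ≤
      |((p.1 i0 : ℕ) : ℤ) - ((p.2 i0 : ℕ) : ℤ)|) with hS
  have hcover : sols P ⊆ S0 ∪ univ.biUnion S := by
    intro p hp
    rw [mem_union]
    by_cases h : p.1 = p.2
    · left
      exact mem_filter.2 ⟨mem_univ _, h⟩
    · right
      obtain ⟨i0, _, hi0⟩ := exists_max_image (univ : Finset (Fin 4))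
        (fun i => |((p.1 i : ℕ) : ℤ) - ((p.2 i : ℕ) : ℤ)|) ⟨0, mem_univ _⟩
      rw [mem_biUnion]
      refine ⟨i0, mem_univ _, mem_filter.2 ⟨hp, ?_, fun i => hi0 i (mem_univ _)⟩⟩
      intro hc
      apply h
      funext i
      have h1 := hi0 i (mem_univ _)
      rw [hc, sub_self, abs_zero] at h1
      have h2 := abs_nonpos_iff.1 h1
      apply Fin.ext
      omega
  have hS0card : S0.card ≤ P ^ 4 := by
    have : S0.card ≤ (univ : Finset (Fin 4 → Fin P)).card := by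
      apply card_le_card_of_injOn (fun p => p.1) (fun _ _ => mem_univ _)
      intro p hp q hq h
      have h1 := (mem_filter.1 hp).2
      have h2 := (mem_filter.1 hq).2
      exact Prod.ext h (by rw [← h1, ← h2]; exact h)
    rw [card_univ, Fintype.card_fun, Fintype.card_fin, Fintype.card_fin] at this
    exact this
  have hScard : ∀ i0, ((S i0).card : ℝ) ≤ 2916 * (P : ℝ) ^ 6 := by
    intro i0
    set D : Finset ℤ := (Icc (-(P:ℤ)) P).filter (fun s => s ≠ 0) with hD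
    set T : Finset ((_ : ℤ) × ((_ : Fin 3 → ℕ) × (Fin 3 → ℤ))) := D.sigma (fun s => trip P s.natAbs)
      with hT
    set Ψ : ((Fin 4 → Fin P) × (Fin 4 → Fin P)) → ((_ : ℤ) × ((_ : Fin 3 → ℕ) × (Fin 3 → ℤ))) :=
      fun p => ⟨((p.1 i0 : ℕ) : ℤ) - ((p.2 i0 : ℕ) : ℤ),
        ⟨fun j => (p.1 (i0.succAbove j) : ℕ) + (p.2 (i0.succAbove j) : ℕ),
          fun j => ((p.1 (i0.succAbove j) : ℕ) : ℤ) - ((p.2 (i0.succAbove j) : ℕ) : ℤ)⟩⟩ with hΨ
    have hrel : ∀ p ∈ S i0, (((p.1 i0 : ℕ) : ℤ) - ((p.2 i0 : ℕ) : ℤ)) *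
        (((p.1 i0 : ℕ) : ℤ) + ((p.2 i0 : ℕ) : ℤ)) +
        ∑ j, (((p.1 (i0.succAbove j) : ℕ) : ℤ) - ((p.2 (i0.succAbove j) : ℕ) : ℤ)) *
          (((p.1 (i0.succAbove j) : ℕ) + (p.2 (i0.succAbove j) : ℕ) : ℕ) : ℤ) = 0 := by
      intro p hp
      have h1 := (mem_filter.1 (mem_filter.1 hp).1).2
      rw [Fin.sum_univ_succAbove _ i0, Fin.sum_univ_succAbove _ i0] at h1
      have h2 : ((((p.1 i0 : ℕ)) ^ 2 + ∑ j, ((p.1 (i0.succAbove j) : ℕ)) ^ 2 : ℕ) : ℤ) =
        ((((p.2 i0 : ℕ)) ^ 2 + ∑ j, ((p.2 (i0.succAbove j) : ℕ)) ^ 2 : ℕ) : ℤ) := by rw [h1]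
      push_cast at h2
      have h3 : ∑ j, (((p.1 (i0.succAbove j) : ℕ) : ℤ) - ((p.2 (i0.succAbove j) : ℕ) : ℤ)) *
          (((p.1 (i0.succAbove j) : ℕ) + (p.2 (i0.succAbove j) : ℕ) : ℕ) : ℤ) =
          ∑ j, ((p.1 (i0.succAbove j) : ℕ) : ℤ) ^ 2 - ∑ j, ((p.2 (i0.succAbove j) : ℕ) : ℤ) ^ 2 := by
        rw [← sum_sub_distrib]
        apply sum_congr rfl
        intro j _
        push_cast
        ring
      rw [h3]
      linear_combination h2
    have hmaps : ∀ p ∈ S i0, Ψ p ∈ T := by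
      intro p hp
      obtain ⟨hne, hmax⟩ := (mem_filter.1 hp).2
      have b1 := (p.1 i0).isLt
      have b2 := (p.2 i0).isLt
      rw [hT, mem_sigma]
      refine ⟨?_, ?_⟩
      · rw [hD, mem_filter, mem_Icc]
        refine ⟨⟨?_, ?_⟩, ?_⟩
        · change -(P:ℤ) ≤ ((p.1 i0 : ℕ) : ℤ) - ((p.2 i0 : ℕ) : ℤ); omega
        · change ((p.1 i0 : ℕ) : ℤ) - ((p.2 i0 : ℕ) : ℤ) ≤ (P:ℤ); omega
        · change ((p.1 i0 : ℕ) : ℤ) - ((p.2 i0 : ℕ) : ℤ) ≠ 0; omega
      · unfold trip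
        rw [mem_sigma]
        refine ⟨?_, ?_⟩
        · rw [Fintype.mem_piFinset]
          intro j
          rw [mem_range]
          have b3 := (p.1 (i0.succAbove j)).isLt
          have b4 := (p.2 (i0.succAbove j)).isLt
          change (p.1 (i0.succAbove j) : ℕ) + (p.2 (i0.succAbove j) : ℕ) < _
          omega
        · rw [mem_filter, Fintype.mem_piFinset]
          refine ⟨?_, ?_⟩
          · intro j
            have h1 := hmax (i0.succAbove j)
            rw [mem_Icc]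
            have h2 : (((((p.1 i0 : ℕ) : ℤ) - ((p.2 i0 : ℕ) : ℤ)).natAbs : ℕ) : ℤ) =
              |((p.1 i0 : ℕ) : ℤ) - ((p.2 i0 : ℕ) : ℤ)| := Int.natCast_natAbs _
            change -(((((p.1 i0 : ℕ) : ℤ) - ((p.2 i0 : ℕ) : ℤ)).natAbs : ℕ) : ℤ) ≤
              ((p.1 (i0.succAbove j) : ℕ) : ℤ) - ((p.2 (i0.succAbove j) : ℕ) : ℤ) ∧
              ((p.1 (i0.succAbove j) : ℕ) : ℤ) - ((p.2 (i0.succAbove j) : ℕ) : ℤ) ≤
              (((((p.1 i0 : ℕ) : ℤ) - ((p.2 i0 : ℕ) : ℤ)).natAbs : ℕ) : ℤ)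
            rw [h2]
            exact abs_le.1 h1
          · have h1 := hrel p hp
            change (((((p.1 i0 : ℕ) : ℤ) - ((p.2 i0 : ℕ) : ℤ)).natAbs : ℕ) : ℤ) ∣ _
            rw [Int.natCast_natAbs, abs_dvd]
            have h2 : ∑ j, (((p.1 (i0.succAbove j) : ℕ) : ℤ) - ((p.2 (i0.succAbove j) : ℕ) : ℤ)) *
              (((p.1 (i0.succAbove j) : ℕ) + (p.2 (i0.succAbove j) : ℕ) : ℕ) : ℤ) =
              (((p.1 i0 : ℕ) : ℤ) - ((p.2 i0 : ℕ) : ℤ)) *
                (-(((p.1 i0 : ℕ) : ℤ) + ((p.2 i0 : ℕ) : ℤ))) := by linear_combination h1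
            exact ⟨_, h2⟩
    have hinj : Set.InjOn Ψ (S i0) := by
      intro p hp q hq h
      rw [mem_coe] at hp hq
      have h1 : ((p.1 i0 : ℕ) : ℤ) - ((p.2 i0 : ℕ) : ℤ) = ((q.1 i0 : ℕ) : ℤ) - ((q.2 i0 : ℕ) : ℤ) :=
        congrArg Sigma.fst h
      have h2 := eq_of_heq (Sigma.mk.inj h).2
      have h3 : ∀ j, (p.1 (i0.succAbove j) : ℕ) + (p.2 (i0.succAbove j) : ℕ) =
        (q.1 (i0.succAbove j) : ℕ) + (q.2 (i0.succAbove j) : ℕ) :=
        congrFun (congrArg Sigma.fst h2)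
      have h4 : ∀ j, ((p.1 (i0.succAbove j) : ℕ) : ℤ) - ((p.2 (i0.succAbove j) : ℕ) : ℤ) =
        ((q.1 (i0.succAbove j) : ℕ) : ℤ) - ((q.2 (i0.succAbove j) : ℕ) : ℤ) :=
        congrFun (eq_of_heq (Sigma.mk.inj h2).2)
      have h5 : ∀ j, (p.1 (i0.succAbove j) : ℕ) = q.1 (i0.succAbove j) := by
        intro j
        have := h3 j
        have := h4 j
        omega
      have h6 : ∀ j, (p.2 (i0.succAbove j) : ℕ) = q.2 (i0.succAbove j) := by
        intro j
        have := h3 j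
        have := h4 j
        omega
      have h7 := hrel p hp
      have h8 := hrel q hq
      have h9 : (((p.1 i0 : ℕ) : ℤ) - ((p.2 i0 : ℕ) : ℤ)) * (((p.1 i0 : ℕ) : ℤ) + ((p.2 i0 : ℕ) : ℤ)) =
          (((p.1 i0 : ℕ) : ℤ) - ((p.2 i0 : ℕ) : ℤ)) * (((q.1 i0 : ℕ) : ℤ) + ((q.2 i0 : ℕ) : ℤ)) := by
        have e1 : ∑ j, (((p.1 (i0.succAbove j) : ℕ) : ℤ) - ((p.2 (i0.succAbove j) : ℕ) : ℤ)) *
          (((p.1 (i0.succAbove j) : ℕ) + (p.2 (i0.succAbove j) : ℕ) : ℕ) : ℤ) =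
          ∑ j, (((q.1 (i0.succAbove j) : ℕ) : ℤ) - ((q.2 (i0.succAbove j) : ℕ) : ℤ)) *
          (((q.1 (i0.succAbove j) : ℕ) + (q.2 (i0.succAbove j) : ℕ) : ℕ) : ℤ) := by
          apply sum_congr rfl
          intro j _
          rw [h5, h6]
        rw [e1] at h7
        rw [h1] at h7 ⊢
        linear_combination h7 - h8
      have hne := (mem_filter.1 hp).2.1
      have h10 := mul_left_cancel₀ (sub_ne_zero.2 hne) h9
      have h11 : (p.1 i0 : ℕ) = q.1 i0 := by omega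
      have h12 : (p.2 i0 : ℕ) = q.2 i0 := by omega
      have hfun : ∀ f g : Fin 4 → Fin P, (f i0 : ℕ) = g i0 →
          (∀ j, (f (i0.succAbove j) : ℕ) = g (i0.succAbove j)) → f = g := by
        intro f g h1 h2
        funext i
        rcases eq_or_ne i i0 with rfl | hi
        · exact Fin.ext h1
        · obtain ⟨j, rfl⟩ := Fin.exists_succAbove_eq hi
          exact Fin.ext (h2 j)
      exact Prod.ext (hfun _ _ h11 h5) (hfun _ _ h12 h6)
    have hle := card_le_card_of_injOn Ψ hmaps hinj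
    have h1 : ((S i0).card : ℝ) ≤ (T.card : ℝ) := by exact_mod_cast hle
    refine le_trans h1 ?_
    rw [hT, card_sigma]
    push_cast
    have h2 : ∀ s ∈ D, ((trip P s.natAbs).card : ℝ) ≤ 1458 * (P : ℝ) ^ 5 := by
      intro s hs
      rw [hD, mem_filter, mem_Icc] at hs
      apply trip_card
      · omega
      · omega
    refine le_trans (sum_le_sum h2) ?_
    rw [sum_const, nsmul_eq_mul]
    have h3 : D.card ≤ 2 * P := by
      have h4 : D = (Icc (-(P:ℤ)) P).erase 0 := by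
        ext s
        rw [hD, mem_filter, mem_erase]
        tauto
      rw [h4, card_erase_of_mem (by rw [mem_Icc]; omega), Int.card_Icc]
      omega
    have h4 : (D.card : ℝ) ≤ 2 * P := by exact_mod_cast h3
    calc (D.card : ℝ) * (1458 * (P : ℝ) ^ 5) ≤ (2 * P) * (1458 * (P : ℝ) ^ 5) :=
          mul_le_mul_of_nonneg_right h4 (by positivity)
      _ = 2916 * (P : ℝ) ^ 6 := by ring
  have h1 : ((sols P).card : ℝ) ≤ (S0.card : ℝ) + ∑ i0, ((S i0).card : ℝ) := by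
    have h2 : (sols P).card ≤ S0.card + ∑ i0, (S i0).card :=
      le_trans (card_le_card hcover) (le_trans (card_union_le _ _)
        (Nat.add_le_add_left card_biUnion_le _))
    exact_mod_cast h2
  refine le_trans h1 ?_
  have h2 : ∑ i0, ((S i0).card : ℝ) ≤ 4 * (2916 * (P : ℝ) ^ 6) := by
    refine le_trans (sum_le_sum (fun i _ => hScard i)) ?_
    rw [sum_const, card_univ, Fintype.card_fin, nsmul_eq_mul]
    norm_num
  have h3 : (S0.card : ℝ) ≤ (P : ℝ) ^ 4 := by exact_mod_cast hS0card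
  have h4 : (P : ℝ) ^ 4 ≤ (P : ℝ) ^ 6 := pow_le_pow_right₀ hP1 (by norm_num)
  have h5 : (0:ℝ) < (P : ℝ) ^ 6 := by positivity
  linarith

end Pool.Agent.H520R3
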