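import Mathlib

/-! Elementary facts on exponential sums, and an inverse theorem for quadratic Weyl sums. -/

set_option autoImplicit false

namespace Pool.Agent.H520R3

open Finset

/-- `e x = exp(2πix)` -/
noncomputable def e (x : ℝ) : ℂ := Complex.exp ((2 * Real.pi * x : ℝ) * Complex.I)

lemma e_zero : e 0 = 1 := by simp [e]

lemma e_add (x y : ℝ) : e (x + y) = e x * e y := by
  unfold e
  rw [← Complex.exp_add]
  congr 1
  push_cast
  ring

lemma norm_e (x : ℝ) : ‖e x‖ = 1 := by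
  unfold e
  exact Complex.norm_exp_ofReal_mul_I _

lemma e_neg (x : ℝ) : e (-x) = (starRingEnd ℂ) (e x) := by
  unfold e
  rw [← Complex.exp_conj]
  congr 1
  rw [map_mul, Complex.conj_ofReal, Complex.conj_I]
  push_cast
  ring

lemma e_mul_conj (x : ℝ) : e x * (starRingEnd ℂ) (e x) = 1 := by
  rw [← e_neg, ← e_add]
  simp [e_zero]

lemma e_int (n : ℤ) : e n = 1 := by
  unfold e
  rw [Complex.exp_eq_one_iff]
  exact ⟨n, by push_cast; ring⟩

lemma e_nat (n : ℕ) : e n = 1 := by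
  have := e_int n
  simpa using this

lemma e_add_int (x : ℝ) (n : ℤ) : e (x + n) = e x := by
  rw [e_add, e_int, mul_one]

lemma e_sub_int (x : ℝ) (n : ℤ) : e (x - n) = e x := by
  have := e_add_int (x - n) n
  rw [← this]
  congr 1
  ring

lemma e_sum {ι : Type*} (s : Finset ι) (f : ι → ℝ) : e (∑ i ∈ s, f i) = ∏ i ∈ s, e (f i) := by
  classical
  induction s using Finset.induction_on with
  | empty => simp [e_zero]
  | insert a s ha ih => rw [sum_insert ha, prod_insert ha, e_add, ih]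

lemma e_mul_nat (x : ℝ) (n : ℕ) : e (x * n) = e x ^ n := by
  induction n with
  | zero => simp [e_zero]
  | succ n ih =>
    rw [pow_succ, ← ih, ← e_add]
    congr 1
    push_cast
    ring

lemma norm_e_sub_one (x : ℝ) : ‖e x - 1‖ = 2 * |Real.sin (Real.pi * x)| := by
  have h1 : e x - 1 = e (x / 2) * (e (x / 2) - e (-(x / 2))) := by
    rw [mul_sub, ← e_add, ← e_add]
    congr 1
    · congr 1; ring
    · rw [show x / 2 + -(x / 2) = 0 by ring, e_zero]
  have h2 : e (x / 2) - e (-(x / 2)) = (2 * Real.sin (Real.pi * x) : ℝ) * Complex.I := by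
    unfold e
    rw [show ((2 * Real.pi * (x / 2) : ℝ) : ℂ) = ((Real.pi * x : ℝ) : ℂ) by push_cast; ring,
      show ((2 * Real.pi * (-(x / 2)) : ℝ) : ℂ) = -((Real.pi * x : ℝ) : ℂ) by push_cast; ring]
    rw [Complex.exp_mul_I, Complex.exp_mul_I, Complex.cos_neg, Complex.sin_neg]
    push_cast
    ring
  rw [h1, norm_mul, norm_e, one_mul, h2, norm_mul, Complex.norm_I, mul_one, Complex.norm_real,
    Real.norm_eq_abs, abs_mul, abs_two]

lemma norm_e_sub_one_le (x : ℝ) : ‖e x - 1‖ ≤ 2 * Real.pi * |x| := by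
  rw [norm_e_sub_one]
  have := Real.abs_sin_le_abs (x := Real.pi * x)
  rw [abs_mul, abs_of_pos Real.pi_pos] at this
  linarith

lemma norm_e_sub_e_le (x y : ℝ) : ‖e x - e y‖ ≤ 2 * Real.pi * |x - y| := by
  have : e x - e y = e y * (e (x - y) - 1) := by
    rw [mul_sub, ← e_add, mul_one]
    congr 2
    ring
  rw [this, norm_mul, norm_e, one_mul]
  exact norm_e_sub_one_le _

/-- lower bound for `|e x - 1|` by the distance to the nearest integer -/
lemma four_mul_le (x : ℝ) : 4 * |x - round x| ≤ ‖e x - 1‖ := by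
  have h1 : e x = e (x - round x) := (e_sub_int x _).symm
  rw [h1, norm_e_sub_one]
  have h2 : |x - round x| ≤ 1 / 2 := abs_sub_round x
  have h3 := Real.mul_abs_le_abs_sin (x := Real.pi * (x - round x)) (by
    rw [abs_mul, abs_of_pos Real.pi_pos]
    have := Real.pi_pos
    nlinarith)
  rw [abs_mul, abs_of_pos Real.pi_pos] at h3
  have h4 : 2 / Real.pi * (Real.pi * |x - round x|) = 2 * |x - round x| := by
    field_simp
  linarith

lemma geom_bound {x κ : ℝ} (hκ : 0 < κ) (h : ∀ n : ℤ, κ < |x - n|) (m : ℕ) :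
    ‖∑ j ∈ range m, e (x * j)‖ ≤ 1 / (2 * κ) := by
  have h1 : κ < |x - round x| := h _
  have h2 := four_mul_le x
  have h3 : e x ≠ 1 := by
    intro h
    rw [h, sub_self, norm_zero] at h2
    linarith
  have h4 : ∑ j ∈ range m, e (x * j) = ∑ j ∈ range m, e x ^ j := by
    apply sum_congr rfl
    intro j _
    exact e_mul_nat x j
  rw [h4, geom_sum_eq h3, norm_div]
  have h5 : ‖e x ^ m - 1‖ ≤ 2 := by
    refine le_trans (norm_sub_le _ _) ?_
    rw [norm_pow, norm_e, one_pow, norm_one]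
    norm_num
  have h6 : 0 < ‖e x - 1‖ := norm_pos_iff.2 (sub_ne_zero.2 h3)
  rw [div_le_div_iff₀ h6 (by positivity)]
  nlinarith [norm_nonneg (e x ^ m - 1)]

/-- van der Corput / Weyl differencing -/
lemma diff_ineq (a : ℕ → ℂ) (n : ℕ) :
    ‖∑ x ∈ range n, a x‖ ^ 2 ≤
      2 * ∑ h ∈ range n, ‖∑ x ∈ range (n - h), a (h + x) * (starRingEnd ℂ) (a x)‖ := by
  have h1 : ∀ n : ℕ, ‖∑ x ∈ range n, a x‖ ^ 2 ≤
      2 * (∑ y ∈ range n, ∑ h ∈ range (y + 1), a (h + (y - h)) * (starRingEnd ℂ) (a (y - h))).re := by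
    intro n
    induction n with
    | zero => simp
    | succ n ih =>
      rw [sum_range_succ, sum_range_succ, Complex.add_re]
      have e1 : ∑ h ∈ range (n + 1), a (h + (n - h)) * (starRingEnd ℂ) (a (n - h)) =
          a n * (starRingEnd ℂ) (∑ x ∈ range (n + 1), a x) := by
        rw [map_sum, mul_sum, ← sum_range_reflect]
        apply sum_congr rfl
        intro x hx
        rw [mem_range] at hx
        have : n + 1 - 1 - x + (n - (n + 1 - 1 - x)) = n := by omega
        rw [this]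
        have : n - (n + 1 - 1 - x) = x := by omega
        rw [this]
      rw [e1]
      rw [sum_range_succ (fun x => a x) n, map_add]
      set f := ∑ x ∈ range n, a x with hf
      rw [mul_add (a n), Complex.add_re (a n * _), Complex.mul_conj]
      have e2 : ‖f + a n‖ ^ 2 = ‖f‖ ^ 2 + 2 * (a n * (starRingEnd ℂ) f).re + ‖a n‖ ^ 2 := by
        rw [← Complex.normSq_eq_norm_sq, ← Complex.normSq_eq_norm_sq, ← Complex.normSq_eq_norm_sq,
          Complex.normSq_add]
        have : (f * (starRingEnd ℂ) (a n)).re = (a n * (starRingEnd ℂ) f).re := by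
          simp [Complex.mul_re]
          ring
        rw [this]
        ring
      have e3 : ((Complex.normSq (a n) : ℝ) : ℂ).re = ‖a n‖ ^ 2 := by
        rw [Complex.ofReal_re, Complex.normSq_eq_norm_sq]
      rw [e2, e3]
      nlinarith [sq_nonneg ‖a n‖]
  refine le_trans (h1 n) ?_
  rw [sum_range_diag_flip n (fun h x => a (h + x) * (starRingEnd ℂ) (a x))]
  have h2 : (∑ h ∈ range n, ∑ x ∈ range (n - h), a (h + x) * (starRingEnd ℂ) (a x)).re ≤
      ∑ h ∈ range n, ‖∑ x ∈ range (n - h), a (h + x) * (starRingEnd ℂ) (a x)‖ :=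
    le_trans (Complex.re_le_norm _) (norm_sum_le _ _)
  linarith

open Classical in
lemma weyl_large (η t θ : ℝ) (hη : 0 < η) (P : ℕ) (hP : 1 ≤ P)
    (h : η * P < ‖∑ x ∈ range P, e (t * (x : ℝ) ^ 2 + θ * x)‖) :
    η ^ 2 / 4 * P < (((range P).filter
      (fun h : ℕ => ∃ n : ℤ, |2 * t * h - n| ≤ 2 / η ^ 2 / P)).card : ℝ) := by
  set G := (range P).filter (fun h : ℕ => ∃ n : ℤ, |2 * t * h - n| ≤ 2 / η ^ 2 / P) with hG
  have hP' : (0:ℝ) < P := by exact_mod_cast hP
  have h1 := diff_ineq (fun x : ℕ => e (t * (x : ℝ) ^ 2 + θ * x)) P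
  have h2 : ∀ k ∈ range P, ‖∑ x ∈ range (P - k), e (t * ((k + x : ℕ) : ℝ) ^ 2 + θ * ((k + x : ℕ) : ℝ)) *
      (starRingEnd ℂ) (e (t * (x : ℝ) ^ 2 + θ * x))‖ ≤
      (if k ∈ G then (P : ℝ) else 0) + η ^ 2 * P / 4 := by
    intro k hk
    have e1 : ∑ x ∈ range (P - k), e (t * ((k + x : ℕ) : ℝ) ^ 2 + θ * ((k + x : ℕ) : ℝ)) *
      (starRingEnd ℂ) (e (t * (x : ℝ) ^ 2 + θ * x)) =
      e (t * (k : ℝ) ^ 2 + θ * k) * ∑ x ∈ range (P - k), e ((2 * t * k) * x) := by
      rw [mul_sum]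
      apply sum_congr rfl
      intro x _
      rw [← e_neg, ← e_add, ← e_add]
      congr 1
      push_cast
      ring
    rw [e1, norm_mul, norm_e, one_mul]
    by_cases hkG : k ∈ G
    · rw [if_pos hkG]
      refine le_trans (norm_sum_le _ _) ?_
      have : ∑ x ∈ range (P - k), ‖e ((2 * t * k) * x)‖ = ((P - k : ℕ) : ℝ) := by
        rw [sum_congr rfl (fun x _ => norm_e _)]
        simp
      rw [this]
      have h3 : ((P - k : ℕ) : ℝ) ≤ P := by exact_mod_cast Nat.sub_le _ _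
      have : 0 ≤ η ^ 2 * P / 4 := by positivity
      linarith
    · rw [if_neg hkG, zero_add]
      have h3 : ∀ n : ℤ, 2 / η ^ 2 / P < |2 * t * k - n| := by
        intro n
        by_contra hcon
        push Not at hcon
        exact hkG (mem_filter.2 ⟨hk, n, hcon⟩)
      refine le_trans (geom_bound (by positivity) h3 _) ?_
      apply le_of_eq
      field_simp
      ring
  have h3 := sum_le_sum h2
  rw [sum_add_distrib, sum_const, card_range, nsmul_eq_mul, ← sum_filter, sum_const,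
    nsmul_eq_mul] at h3
  have h4 : (range P).filter (fun k => k ∈ G) = G := by
    ext k
    rw [mem_filter]
    constructor
    · exact fun h => h.2
    · exact fun h => ⟨(mem_filter.1 h).1, h⟩
  rw [h4] at h3
  have h5 : (η * P) ^ 2 < ‖∑ x ∈ range P, e (t * (x : ℝ) ^ 2 + θ * x)‖ ^ 2 :=
    pow_lt_pow_left₀ h (by positivity) (by norm_num)
  have h6 : (η * P) ^ 2 < 2 * (G.card * P + P * (η ^ 2 * P / 4)) := by
    refine lt_of_lt_of_le h5 (le_trans h1 ?_)
    linarith
  have h7 : (η ^ 2 / 4 * P) * P < G.card * P := by nlinarith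
  exact lt_of_mul_lt_mul_right h7 hP'.le

open Classical in
lemma pigeon (c K0 : ℝ) (hc : 0 < c) (hK0 : 0 < K0) :
    ∃ (q0 : ℕ) (K : ℝ) (P0 : ℕ), 0 < K ∧ 1 ≤ P0 ∧ ∀ P : ℕ, P0 ≤ P → ∀ s : ℝ,
      c * P < (((range P).filter (fun h : ℕ => ∃ n : ℤ, |s * h - n| ≤ K0 / P)).card : ℝ) →
      ∃ q : ℕ, 1 ≤ q ∧ q ≤ q0 ∧ ∃ n : ℤ, |s * q - n| ≤ K / (P : ℝ) ^ 2 := by
  set q0 : ℕ := ⌈2 / c⌉₊ + 1 with hq0
  have hq0pos : 0 < q0 := by omega
  have hq0c : 2 / c ≤ (q0 : ℝ) := by
    have := Nat.le_ceil (2 / c)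
    rw [hq0]
    push_cast
    linarith
  set Nc : ℝ := 32 * K0 + q0 with hNc
  have hNcpos : 0 < Nc := by positivity
  refine ⟨q0, 4 * K0 * Nc / c, ⌈2 / c⌉₊ + ⌈32 * K0⌉₊ + ⌈2 * Nc / c⌉₊ + 1, by positivity, by omega, ?_⟩
  intro P hP s hG
  set G := (range P).filter (fun h : ℕ => ∃ n : ℤ, |s * h - n| ≤ K0 / P) with hGdef
  have hP1 : (1 : ℝ) ≤ P := by
    have : 1 ≤ P := by omega
    exact_mod_cast this
  have hPpos : (0 : ℝ) < P := by linarith
  have hPc : 2 / c ≤ (P : ℝ) := by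
    have h1 := Nat.le_ceil (2 / c)
    have h2 : ((⌈2 / c⌉₊ : ℕ) : ℝ) ≤ P := by
      have : ⌈2 / c⌉₊ ≤ P := by omega
      exact_mod_cast this
    linarith
  have hPK : 32 * K0 ≤ (P : ℝ) := by
    have h1 := Nat.le_ceil (32 * K0)
    have h2 : ((⌈32 * K0⌉₊ : ℕ) : ℝ) ≤ P := by
      have : ⌈32 * K0⌉₊ ≤ P := by omega
      exact_mod_cast this
    linarith
  have hPN : 2 * Nc / c ≤ (P : ℝ) := by
    have h1 := Nat.le_ceil (2 * Nc / c)
    have h2 : ((⌈2 * Nc / c⌉₊ : ℕ) : ℝ) ≤ P := by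
      have : ⌈2 * Nc / c⌉₊ ≤ P := by omega
      exact_mod_cast this
    linarith
  have hcP : 2 ≤ c * P := by
    rw [div_le_iff₀ hc] at hPc
    linarith
  -- first pigeonhole
  have h1 : (range (P / q0 + 1)).card < G.card := by
    rw [card_range]
    have h2 : ((P / q0 : ℕ) : ℝ) ≤ P / q0 := Nat.cast_div_le
    have h3 : (P : ℝ) / q0 ≤ c * P / 2 := by
      rw [div_le_div_iff₀ (by positivity) (by norm_num)]
      rw [div_le_iff₀ hc] at hq0c
      nlinarith
    have h4 : (((P / q0 + 1 : ℕ)) : ℝ) < (G.card : ℝ) := by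
      push_cast
      linarith
    exact_mod_cast h4
  obtain ⟨x, hx, y, hy, hxy, hf⟩ := exists_ne_map_eq_of_card_lt_of_maps_to h1
    (f := fun h => h / q0) (by
      intro h hh
      rw [mem_coe, mem_range]
      have : h < P := mem_range.1 (mem_filter.1 hh).1
      have := Nat.div_le_div_right (c := q0) this.le
      exact Nat.lt_succ_of_le this)
  have key : ∃ q1 : ℕ, 1 ≤ q1 ∧ q1 ≤ q0 ∧ ∃ n1 : ℤ, |s * q1 - n1| ≤ 2 * K0 / P := by
    have main : ∀ x y : ℕ, x ∈ G → y ∈ G → x < y → x / q0 = y / q0 →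
        ∃ q1 : ℕ, 1 ≤ q1 ∧ q1 ≤ q0 ∧ ∃ n1 : ℤ, |s * q1 - n1| ≤ 2 * K0 / P := by
      intro x y hx hy hlt heq
      obtain ⟨nx, hnx⟩ := (mem_filter.1 hx).2
      obtain ⟨ny, hny⟩ := (mem_filter.1 hy).2
      refine ⟨y - x, by omega, ?_, ny - nx, ?_⟩
      · have h5 := Nat.div_add_mod x q0
        have h6 := Nat.div_add_mod y q0
        have h7 := Nat.mod_lt y hq0pos
        rw [heq] at h5
        have : y - x ≤ y % q0 := by omega
        omega
      · rw [Nat.cast_sub hlt.le]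
        push_cast
        have : s * ((y : ℝ) - x) - (ny - nx) = (s * y - ny) - (s * x - nx) := by ring
        rw [this]
        refine le_trans (abs_sub _ _) ?_
        have : 2 * K0 / P = K0 / P + K0 / P := by ring
        rw [this]
        linarith
    rcases lt_or_gt_of_ne hxy with h | h
    · exact main x y hx hy h hf
    · exact main y x hy hx h hf.symm
  obtain ⟨q1, hq1, hq1', n1, hn1⟩ := key
  set σ : ℝ := s * q1 - n1 with hσ
  set L0 : ℕ := ⌊(P : ℝ) / (16 * K0)⌋₊ with hL0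
  have hL0le : (L0 : ℝ) ≤ P / (16 * K0) := Nat.floor_le (by positivity)
  have hz : 2 ≤ (P : ℝ) / (16 * K0) := by
    rw [le_div_iff₀ (by positivity)]
    linarith
  have hL0ge : (P : ℝ) / (32 * K0) ≤ L0 := by
    have h2 := Nat.lt_floor_add_one ((P : ℝ) / (16 * K0))
    rw [← hL0] at h2
    have h3 : (P : ℝ) / (32 * K0) = P / (16 * K0) / 2 := by
      field_simp
      ring
    rw [h3]
    linarith
  have hL0pos : 0 < L0 := by
    have : (0:ℝ) < L0 := lt_of_lt_of_le (by positivity) hL0ge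
    exact_mod_cast this
  have hq1pos : 0 < q1 := hq1
  have hqL : 0 < q1 * L0 := Nat.mul_pos hq1pos hL0pos
  -- second pigeonhole
  have hcard : (((range q1) ×ˢ (range (P / (q1 * L0) + 1))).card : ℝ) ≤ Nc := by
    rw [card_product, card_range, card_range]
    push_cast
    have h2 : ((P / (q1 * L0) : ℕ) : ℝ) ≤ P / ((q1 * L0 : ℕ) : ℝ) := Nat.cast_div_le
    push_cast at h2
    have h3 : (0:ℝ) < q1 := by exact_mod_cast hq1pos
    have h4 : (0:ℝ) < L0 := by exact_mod_cast hL0pos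
    have h5 : (q1 : ℝ) * (((P / (q1 * L0) : ℕ) : ℝ) + 1) ≤ P / L0 + q1 := by
      have : (q1 : ℝ) * (P / (q1 * L0)) = P / L0 := by field_simp
      nlinarith
    have h6 : (P : ℝ) / L0 ≤ 32 * K0 := by
      rw [div_le_iff₀ h4]
      rw [div_le_iff₀ (by positivity)] at hL0ge
      linarith
    have h7 : (q1 : ℝ) ≤ q0 := by exact_mod_cast hq1'
    rw [hNc]
    linarith
  have hmaps : ∀ h ∈ G, (fun h : ℕ => (h % q1, h / (q1 * L0))) h ∈
      (range q1) ×ˢ (range (P / (q1 * L0) + 1)) := by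
    intro h hh
    rw [mem_product, mem_range, mem_range]
    refine ⟨Nat.mod_lt _ hq1pos, ?_⟩
    have : h < P := mem_range.1 (mem_filter.1 hh).1
    have := Nat.div_le_div_right (c := q1 * L0) this.le
    exact Nat.lt_succ_of_le this
  obtain ⟨cell, _, hcell⟩ := exists_le_card_fiber_of_nsmul_le_card_of_maps_to (M := ℝ)
    (b := c * P / Nc) hmaps ⟨(0, 0), by
      rw [mem_product, mem_range, mem_range]
      exact ⟨hq1pos, Nat.succ_pos _⟩⟩ (by
      rw [nsmul_eq_mul]
      calc _ ≤ Nc * (c * P / Nc) := mul_le_mul_of_nonneg_right hcard (by positivity)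
        _ = c * P := by field_simp
        _ ≤ G.card := hG.le)
  set S := G.filter (fun x => (x % q1, x / (q1 * L0)) = cell) with hS
  have hSpos : 0 < S.card := by
    have : (0:ℝ) < S.card := lt_of_lt_of_le (by positivity) hcell
    exact_mod_cast this
  have hSne : S.Nonempty := card_pos.1 hSpos
  set a := S.min' hSne with ha
  set b := S.max' hSne with hb
  have haS : a ∈ S := min'_mem _ _
  have hbS : b ∈ S := max'_mem _ _
  have hab : a ≤ b := min'_le _ _ hbS
  have haf := (mem_filter.1 haS).2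
  have hbf := (mem_filter.1 hbS).2
  have hmod : ∀ x ∈ S, x % q1 = a % q1 := by
    intro x hx
    have := (mem_filter.1 hx).2
    rw [← haf] at this
    exact congrArg Prod.fst this
  have hdiv : b / (q1 * L0) = a / (q1 * L0) := by
    rw [← haf] at hbf
    exact congrArg Prod.snd hbf
  set l := (b - a) / q1 with hl
  have hform : ∀ x ∈ S, x = a + q1 * ((x - a) / q1) := by
    intro x hx
    have h2 : a ≤ x := min'_le _ _ hx
    have h3 : q1 ∣ x - a := (Nat.modEq_iff_dvd' h2).1 (hmod x hx).symm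
    rw [Nat.mul_div_cancel' h3]
    omega
  have hbl : b = a + q1 * l := hform b hbS
  have hcardS : S.card ≤ l + 1 := by
    have : S ⊆ (range (l + 1)).image (fun j => a + q1 * j) := by
      intro x hx
      rw [mem_image]
      refine ⟨(x - a) / q1, ?_, (hform x hx).symm⟩
      rw [mem_range]
      have h2 : x ≤ b := le_max' _ _ hx
      have : (x - a) / q1 ≤ (b - a) / q1 := Nat.div_le_div_right (by omega)
      omega
    refine le_trans (card_le_card this) (le_trans card_image_le ?_)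
    rw [card_range]
  have hlL : l ≤ L0 := by
    have h2 := Nat.div_add_mod a (q1 * L0)
    have h3 := Nat.div_add_mod b (q1 * L0)
    have h4 := Nat.mod_lt b hqL
    rw [hdiv] at h3
    have h5 : q1 * l ≤ q1 * L0 := by omega
    exact Nat.le_of_mul_le_mul_left h5 hq1pos
  have hlge : c * P / (2 * Nc) ≤ l := by
    have h2 : (S.card : ℝ) ≤ l + 1 := by exact_mod_cast hcardS
    have h3 : 1 ≤ c * P / (2 * Nc) := by
      rw [le_div_iff₀ (by positivity), one_mul]
      rw [div_le_iff₀ hc] at hPN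
      linarith
    have h4 : c * P / Nc = c * P / (2 * Nc) + c * P / (2 * Nc) := by field_simp; ring
    rw [h4] at hcell
    linarith
  have hlpos : (0 : ℝ) < l := lt_of_lt_of_le (by positivity) hlge
  obtain ⟨na, hna⟩ := (mem_filter.1 (mem_filter.1 haS).1).2
  obtain ⟨nb, hnb⟩ := (mem_filter.1 (mem_filter.1 hbS).1).2
  have h2 : |l * σ - (((nb - na) - l * n1 : ℤ) : ℝ)| ≤ 2 * K0 / P := by
    have h3 : l * σ - (((nb - na) - l * n1 : ℤ) : ℝ) = (s * b - nb) - (s * a - na) := by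
      rw [hbl, hσ]
      push_cast
      ring
    rw [h3]
    refine le_trans (abs_sub _ _) ?_
    have : 2 * K0 / P = K0 / P + K0 / P := by ring
    rw [this]
    linarith
  have h3 : |(l : ℝ) * σ| ≤ 1 / 8 := by
    rw [abs_mul, Nat.abs_cast]
    have h4 : (l : ℝ) ≤ P / (16 * K0) := le_trans (by exact_mod_cast hlL) hL0le
    calc (l : ℝ) * |σ| ≤ (P / (16 * K0)) * (2 * K0 / P) :=
          mul_le_mul h4 hn1 (abs_nonneg _) (by positivity)
      _ = 1 / 8 := by field_simp; norm_num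
  have h4 : 2 * K0 / P ≤ 1 / 16 := by
    rw [div_le_iff₀ hPpos]
    linarith
  have h5 : (nb - na) - l * n1 = 0 := by
    have : |(((nb - na) - l * n1 : ℤ) : ℝ)| < 1 := by
      have h6 : (((nb - na) - l * n1 : ℤ) : ℝ) =
        l * σ - (l * σ - (((nb - na) - l * n1 : ℤ) : ℝ)) := by ring
      rw [h6]
      refine lt_of_le_of_lt (abs_sub _ _) ?_
      linarith
    rw [← Int.cast_abs] at this
    have : |(nb - na) - l * n1| < 1 := by exact_mod_cast this
    exact Int.abs_lt_one_iff.1 this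
  rw [h5] at h2
  simp only [Int.cast_zero, sub_zero] at h2
  refine ⟨q1, hq1, hq1', n1, ?_⟩
  rw [abs_mul, Nat.abs_cast] at h2
  change |σ| ≤ _
  have h6 : c * P / (2 * Nc) * |σ| ≤ 2 * K0 / P :=
    le_trans (mul_le_mul_of_nonneg_right hlge (abs_nonneg _)) h2
  rw [le_div_iff₀ (by positivity)]
  rw [le_div_iff₀ hPpos] at h6
  have h7 : c * P / (2 * Nc) * |σ| * P = (c / (2 * Nc)) * (|σ| * (P : ℝ) ^ 2) := by
    field_simp
  rw [h7] at h6
  calc |σ| * (P : ℝ) ^ 2 = (2 * Nc / c) * ((c / (2 * Nc)) * (|σ| * (P : ℝ) ^ 2)) := by field_simp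
    _ ≤ (2 * Nc / c) * (2 * K0) := mul_le_mul_of_nonneg_left h6 (by positivity)
    _ = 4 * K0 * Nc / c := by ring

/-- Abel summation bound -/
lemma abel_bound (w g : ℕ → ℂ) (B V : ℝ) (hB : 0 ≤ B) (n : ℕ)
    (hg : ∀ X ≤ n, ‖∑ x ∈ range X, g x‖ ≤ B) (hw : ∀ x, ‖w x‖ ≤ 1)
    (hV : ∑ x ∈ range n, ‖w (x + 1) - w x‖ ≤ V) :
    ‖∑ x ∈ range n, w x * g x‖ ≤ B * (1 + V) := by
  have h1 : ∀ n : ℕ, ∑ x ∈ range n, w x * g x =
      w n * (∑ x ∈ range n, g x) - ∑ x ∈ range n, (w (x + 1) - w x) * ∑ y ∈ range (x + 1), g y := by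
    intro n
    induction n with
    | zero => simp
    | succ n ih =>
      rw [sum_range_succ, ih, sum_range_succ (fun x => (w (x + 1) - w x) * ∑ y ∈ range (x + 1), g y) n,
        sum_range_succ g n]
      ring
  rw [h1]
  refine le_trans (norm_sub_le _ _) ?_
  rw [norm_mul]
  have h2 : ‖w n‖ * ‖∑ x ∈ range n, g x‖ ≤ 1 * B :=
    mul_le_mul (hw n) (hg n le_rfl) (norm_nonneg _) (by norm_num)
  have h3 : ‖∑ x ∈ range n, (w (x + 1) - w x) * ∑ y ∈ range (x + 1), g y‖ ≤ V * B := by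
    refine le_trans (norm_sum_le _ _) ?_
    refine le_trans ?_ (mul_le_mul_of_nonneg_right hV hB)
    rw [sum_mul]
    apply sum_le_sum
    intro x hx
    rw [norm_mul]
    exact mul_le_mul_of_nonneg_left (hg _ (by rw [mem_range] at hx; omega)) (norm_nonneg _)
  linarith

/-- sums of a `q`-periodic function times a linear phase -/
lemma periodic_bound (u : ℕ → ℂ) (q : ℕ) (hq : 1 ≤ q) (hu : ∀ x, ‖u x‖ ≤ 1)
    (hper : ∀ x, u (x + q) = u x) (θ κ : ℝ) (hκ : 0 < κ) (hθ : ∀ n : ℤ, κ < |q * θ - n|) (X : ℕ) :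
    ‖∑ x ∈ range X, u x * e (θ * x)‖ ≤ q / (2 * κ) + q := by
  have h1 : ∀ Y : ℕ, ∑ x ∈ range (q * Y), u x * e (θ * x) =
      (∑ r ∈ range q, u r * e (θ * r)) * ∑ y ∈ range Y, e ((q * θ) * y) := by
    intro Y
    induction Y with
    | zero => simp
    | succ Y ih =>
      rw [Nat.mul_succ, sum_range_add, ih, sum_range_succ, mul_add]
      congr 1
      rw [sum_mul]
      apply sum_congr rfl
      intro r _
      have hper' : ∀ k : ℕ, u (q * k + r) = u r := by
        intro k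
        induction k with
        | zero => simp
        | succ k ih => rw [← ih, ← hper (q * k + r)]; congr 1; ring
      rw [hper', mul_assoc, ← e_add]
      congr 2
      push_cast
      ring
  have h2 := Nat.div_add_mod X q
  rw [← h2, sum_range_add, h1]
  refine le_trans (norm_add_le _ _) ?_
  have hq0 : (0:ℝ) ≤ q := by positivity
  have h3 : ‖∑ r ∈ range q, u r * e (θ * r)‖ ≤ q := by
    refine le_trans (norm_sum_le _ _) ?_
    calc ∑ r ∈ range q, ‖u r * e (θ * r)‖ ≤ ∑ r ∈ range q, (1:ℝ) := by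
          apply sum_le_sum
          intro r _
          rw [norm_mul, norm_e, mul_one]
          exact hu r
      _ = q := by simp
  have h4 := geom_bound hκ hθ (X / q)
  have h5 : ‖∑ x ∈ range (X % q), u (q * (X / q) + x) * e (θ * ((q * (X / q) + x : ℕ) : ℝ))‖ ≤ q := by
    refine le_trans (norm_sum_le _ _) ?_
    calc ∑ x ∈ range (X % q), ‖u (q * (X / q) + x) * e (θ * ((q * (X / q) + x : ℕ) : ℝ))‖
        ≤ ∑ x ∈ range (X % q), (1:ℝ) := by
          apply sum_le_sum
          intro r _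
          rw [norm_mul, norm_e, mul_one]
          exact hu _
      _ = ((X % q : ℕ) : ℝ) := by simp
      _ ≤ q := by exact_mod_cast (Nat.mod_lt X hq).le
  rw [norm_mul]
  have h6 : ‖∑ r ∈ range q, u r * e (θ * r)‖ * ‖∑ y ∈ range (X / q), e ((q * θ) * y)‖ ≤
      q * (1 / (2 * κ)) := mul_le_mul h3 h4 (norm_nonneg _) hq0
  have h7 : (q : ℝ) * (1 / (2 * κ)) = q / (2 * κ) := by ring
  rw [h7] at h6
  linarith

/-- inverse theorem for quadratic Weyl sums -/
theorem weyl (η : ℝ) (hη : 0 < η) :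
    ∃ (q0 : ℕ) (C1 : ℝ) (P0 : ℕ), 0 < C1 ∧ 1 ≤ P0 ∧ ∀ P : ℕ, P0 ≤ P → ∀ t θ : ℝ,
      η * P < ‖∑ x ∈ range P, e (t * (x : ℝ) ^ 2 + θ * x)‖ →
      ∃ q : ℕ, 1 ≤ q ∧ q ≤ q0 ∧ ∃ n : ℤ, |q * θ - n| ≤ C1 / P := by
  obtain ⟨q1, K, P1, hK, hP1, hpig⟩ := pigeon (η ^ 2 / 4) (2 / η ^ 2) (by positivity) (by positivity)
  set D : ℝ := 1 + 2 * Real.pi * K with hD
  have hDpos : 1 ≤ D := by
    have := Real.pi_pos
    have : 0 < 2 * Real.pi * K := by positivity
    linarith
  set C1 : ℝ := (2 * q1 + 1) * D / η with hC1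
  have hC1pos : 0 < C1 := by positivity
  refine ⟨2 * q1, C1, P1 + ⌈4 * (2 * q1 + 1) * D / η⌉₊, hC1pos, by omega, ?_⟩
  intro P hP t θ hf
  have hP0 : P1 ≤ P := by omega
  have hPpos' : 1 ≤ P := by omega
  have hPpos : (0:ℝ) < P := by exact_mod_cast hPpos'
  have hPbig : 4 * (2 * q1 + 1) * D / η ≤ (P : ℝ) := by
    have h1 := Nat.le_ceil (4 * (2 * (q1 : ℝ) + 1) * D / η)
    have h2 : ((⌈4 * (2 * (q1 : ℝ) + 1) * D / η⌉₊ : ℕ) : ℝ) ≤ P := by
      have : ⌈4 * (2 * (q1 : ℝ) + 1) * D / η⌉₊ ≤ P := by omega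
      exact_mod_cast this
    linarith
  obtain ⟨qh, hqh1, hqh2, n1, hn1⟩ := hpig P hP0 (2 * t) (weyl_large η t θ hη P hPpos' hf)
  set q : ℕ := 2 * qh with hq
  have hq1 : 1 ≤ q := by omega
  have hqpos : (0:ℝ) < q := by exact_mod_cast hq1
  have hqle : (q : ℝ) ≤ 2 * q1 := by
    have : q ≤ 2 * q1 := by omega
    exact_mod_cast this
  by_contra hcon
  have hθ : ∀ n : ℤ, C1 / P < |q * θ - n| := by
    intro n
    by_contra h
    push Not at h
    exact hcon ⟨q, hq1, by omega, n, h⟩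
  set β : ℝ := t - n1 / q with hβ
  have hβle : |β| ≤ K / (P : ℝ) ^ 2 := by
    have e1 : 2 * t * qh - n1 = q * β := by
      rw [hβ, hq]
      push_cast
      field_simp
    rw [e1, abs_mul, Nat.abs_cast] at hn1
    have : |β| ≤ q * |β| := by
      have : (1:ℝ) ≤ q := by exact_mod_cast hq1
      nlinarith [abs_nonneg β]
    linarith
  have hfe : ∑ x ∈ range P, e (t * (x : ℝ) ^ 2 + θ * x) =
      ∑ x ∈ range P, e (β * (x : ℝ) ^ 2) * (e (n1 / q * (x : ℝ) ^ 2) * e (θ * x)) := by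
    apply sum_congr rfl
    intro x _
    rw [← e_add, ← e_add]
    congr 1
    rw [hβ]
    ring
  have hU : ∀ X ≤ P, ‖∑ x ∈ range X, e (n1 / q * (x : ℝ) ^ 2) * e (θ * x)‖ ≤
      q / (2 * (C1 / P)) + q := by
    intro X _
    apply periodic_bound (fun x : ℕ => e (n1 / q * (x : ℝ) ^ 2)) q hq1 (fun x => (norm_e _).le)
    · intro x
      have : (n1 : ℝ) / q * ((x + q : ℕ) : ℝ) ^ 2 =
          n1 / q * (x : ℝ) ^ 2 + ((n1 * (2 * x + q) : ℤ) : ℝ) := by
        push_cast
        field_simp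
        ring
      rw [this, e_add_int]
    · positivity
    · exact hθ
  have hV : ∑ x ∈ range P, ‖e (β * ((x + 1 : ℕ) : ℝ) ^ 2) - e (β * (x : ℝ) ^ 2)‖ ≤
      2 * Real.pi * K := by
    calc ∑ x ∈ range P, ‖e (β * ((x + 1 : ℕ) : ℝ) ^ 2) - e (β * (x : ℝ) ^ 2)‖
        ≤ ∑ x ∈ range P, 2 * Real.pi * |β| * (2 * x + 1) := by
          apply sum_le_sum
          intro x _
          refine le_trans (norm_e_sub_e_le _ _) ?_
          have : β * ((x + 1 : ℕ) : ℝ) ^ 2 - β * (x : ℝ) ^ 2 = β * (2 * x + 1) := by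
            push_cast; ring
          rw [this, abs_mul, abs_of_nonneg (by positivity : (0:ℝ) ≤ 2 * x + 1)]
          apply le_of_eq; ring
      _ = 2 * Real.pi * |β| * (P : ℝ) ^ 2 := by
          rw [← mul_sum]
          congr 1
          have : ∀ n : ℕ, ∑ x ∈ range n, (2 * (x : ℝ) + 1) = (n : ℝ) ^ 2 := by
            intro n
            induction n with
            | zero => simp
            | succ n ih => rw [sum_range_succ, ih]; push_cast; ring
          exact this P
      _ ≤ 2 * Real.pi * K := by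
          rw [le_div_iff₀ (by positivity)] at hβle
          have := Real.pi_pos
          nlinarith
  have hfin := abel_bound (fun x : ℕ => e (β * (x : ℝ) ^ 2))
    (fun x : ℕ => e (n1 / q * (x : ℝ) ^ 2) * e (θ * x)) (q / (2 * (C1 / P)) + q) (2 * Real.pi * K)
    (by positivity) P hU (fun x => (norm_e _).le) hV
  rw [← hfe] at hfin
  have h1 : (q : ℝ) / (2 * (C1 / P)) * D ≤ η * P / 2 := by
    have e1 : (q : ℝ) / (2 * (C1 / P)) * D = (q / (2 * q1 + 1)) * (η * P / 2) := by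
      rw [hC1]
      field_simp
    rw [e1]
    have : (q : ℝ) / (2 * q1 + 1) ≤ 1 := by
      rw [div_le_one (by positivity)]
      linarith
    calc (q / (2 * q1 + 1)) * (η * P / 2) ≤ 1 * (η * P / 2) :=
          mul_le_mul_of_nonneg_right this (by positivity)
      _ = η * P / 2 := one_mul _
  have h2 : (q : ℝ) * D ≤ η * P / 4 := by
    rw [div_le_iff₀ hη] at hPbig
    nlinarith
  have h3 : (q / (2 * (C1 / P)) + q) * (1 + 2 * Real.pi * K) = q / (2 * (C1 / P)) * D + q * D := by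
    rw [hD]; ring
  rw [h3] at hfin
  have : 0 < η * P := by positivity
  linarith

end Pool.Agent.H520R3
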