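import Mathlib
import Pool.Agent.H520R3.Weyl
import Pool.Agent.H520R3.Count

/-! Exponential sums over the integer points of `[0,P)⁹` on a sphere. -/

set_option autoImplicit false

namespace Pool.Agent.H520R3

open Finset

lemma e_eq_one {x : ℝ} (h : e x = 1) : ∃ n : ℤ, x = n := by
  unfold e at h
  rw [Complex.exp_eq_one_iff] at h
  obtain ⟨n, hn⟩ := h
  refine ⟨n, ?_⟩
  have h1 : ((2 * Real.pi * x : ℝ) : ℂ) = n * (2 * Real.pi) := by
    have h2 := Complex.I_ne_zero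
    apply mul_right_cancel₀ h2
    rw [hn]
    ring
  have h3 : (2 * Real.pi * x : ℝ) = n * (2 * Real.pi) := by exact_mod_cast h1
  have := Real.pi_pos
  have h4 : 2 * Real.pi * (x - n) = 0 := by linarith
  rcases mul_eq_zero.1 h4 with h5 | h5
  · linarith
  · linarith

/-- orthogonality -/
lemma orth (L : ℕ) (hL : 1 ≤ L) (u : ℤ) :
    ∑ t ∈ range L, e ((t : ℝ) / L * u) = if (L : ℤ) ∣ u then (L : ℂ) else 0 := by
  have hL' : (0:ℝ) < L := by exact_mod_cast hL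
  have h1 : ∀ t ∈ range L, e ((t : ℝ) / L * u) = e (u / L) ^ t := by
    intro t _
    rw [← e_mul_nat]
    congr 1
    ring
  rw [sum_congr rfl h1]
  split_ifs with h
  · obtain ⟨k, rfl⟩ := h
    have : (((L : ℤ) * k : ℤ) : ℝ) / L = k := by
      push_cast
      field_simp
    rw [this, e_int]
    simp
  · have hz : e ((u : ℝ) / L) ≠ 1 := by
      intro hz
      obtain ⟨n, hn⟩ := e_eq_one hz
      rw [div_eq_iff hL'.ne'] at hn
      apply h
      refine ⟨n, ?_⟩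
      have : (u : ℝ) = ((L * n : ℤ) : ℝ) := by rw [hn]; push_cast; ring
      exact_mod_cast this
    rw [geom_sum_eq hz, ← e_mul_nat]
    have : (u : ℝ) / L * L = u := by field_simp
    rw [this, e_int, sub_self, zero_div]

lemma parseval_le {I : Type*} [Fintype I] (c : I → ℂ) (hc : ∀ i, ‖c i‖ ≤ 1) (m : I → ℕ)
    (L : ℕ) (hL : 1 ≤ L) (hm : ∀ i, m i < L) :
    ∑ t ∈ range L, ‖∑ i, c i * e ((t : ℝ) / L * m i)‖ ^ 2 ≤
      L * (((univ : Finset (I × I)).filter (fun p => m p.1 = m p.2)).card : ℝ) := by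
  have h1 : ((∑ t ∈ range L, ‖∑ i, c i * e ((t : ℝ) / L * m i)‖ ^ 2 : ℝ) : ℂ) =
      ∑ p : I × I, c p.1 * (starRingEnd ℂ) (c p.2) * (if m p.1 = m p.2 then (L : ℂ) else 0) := by
    push_cast
    have h2 : ∀ t ∈ range L, ((‖∑ i, c i * e ((t : ℝ) / L * m i)‖ : ℝ) : ℂ) ^ 2 =
        ∑ p : I × I, c p.1 * (starRingEnd ℂ) (c p.2) *
          e ((t : ℝ) / L * (((m p.1 : ℤ) - (m p.2 : ℤ) : ℤ) : ℝ)) := by
      intro t _
      rw [← Complex.mul_conj', map_sum, Fintype.sum_mul_sum, Fintype.sum_prod_type]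
      apply sum_congr rfl
      intro i _
      apply sum_congr rfl
      intro j _
      rw [map_mul, ← e_neg]
      have : e ((t : ℝ) / L * (((m i : ℤ) - (m j : ℤ) : ℤ) : ℝ)) =
          e ((t : ℝ) / L * m i) * e (-((t : ℝ) / L * m j)) := by
        rw [← e_add]
        congr 1
        push_cast
        ring
      rw [this]
      ring
    rw [sum_congr rfl h2, sum_comm]
    apply sum_congr rfl
    intro p _
    rw [← mul_sum, orth L hL]
    congr 1
    by_cases h : m p.1 = m p.2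
    · rw [if_pos h, if_pos]
      rw [h, sub_self]
      exact dvd_zero _
    · rw [if_neg h, if_neg]
      intro hd
      have h3 := hm p.1
      have h4 := hm p.2
      apply h
      have h5 : |(m p.1 : ℤ) - m p.2| < L := by rw [abs_lt]; constructor <;> omega
      have := Int.eq_zero_of_abs_lt_dvd hd h5
      omega
  have h2 : (∑ t ∈ range L, ‖∑ i, c i * e ((t : ℝ) / L * m i)‖ ^ 2 : ℝ) =
      ‖((∑ t ∈ range L, ‖∑ i, c i * e ((t : ℝ) / L * m i)‖ ^ 2 : ℝ) : ℂ)‖ := by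
    rw [Complex.norm_real, Real.norm_of_nonneg]
    positivity
  rw [h2, h1]
  refine le_trans (norm_sum_le _ _) ?_
  have h3 : ∀ p ∈ (univ : Finset (I × I)), ‖c p.1 * (starRingEnd ℂ) (c p.2) *
      (if m p.1 = m p.2 then (L : ℂ) else 0)‖ ≤ if m p.1 = m p.2 then (L : ℝ) else 0 := by
    intro p _
    split_ifs
    · rw [norm_mul, norm_mul, Complex.norm_natCast, RCLike.norm_conj]
      have h4 := hc p.1
      have h5 := hc p.2
      have h6 : ‖c p.1‖ * ‖c p.2‖ ≤ 1 * 1 := mul_le_mul h4 h5 (norm_nonneg _) (by norm_num)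
      have h7 : (0:ℝ) ≤ L := by positivity
      nlinarith
    · simp
  refine le_trans (sum_le_sum h3) ?_
  rw [← sum_filter, sum_const, nsmul_eq_mul, mul_comm]

/-- the quadratic exponential sum -/
noncomputable def f (P : ℕ) (t θ : ℝ) : ℂ := ∑ x ∈ range P, e (t * (x : ℝ) ^ 2 + θ * x)

lemma f8 (P L : ℕ) (hP : 1 ≤ P) (hL : 4 * P ^ 2 ≤ L) (θ : ℝ) :
    ∑ t ∈ range L, ‖f P ((t : ℝ) / L) θ‖ ^ 8 ≤ L * ((sols P).card : ℝ) := by
  have hL1 : 1 ≤ L := le_trans (by nlinarith) hL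
  have h1 : ∀ t : ℝ, ‖f P t θ‖ ^ 8 = ‖∑ p : Fin 4 → Fin P,
      e (θ * ∑ i, ((p i : ℕ) : ℝ)) * e (t * ((∑ i, ((p i : ℕ)) ^ 2 : ℕ) : ℝ))‖ ^ 2 := by
    intro t
    have h2 : f P t θ ^ 4 = ∑ p : Fin 4 → Fin P,
      e (θ * ∑ i, ((p i : ℕ) : ℝ)) * e (t * ((∑ i, ((p i : ℕ)) ^ 2 : ℕ) : ℝ)) := by
      unfold f
      rw [sum_range, Fintype.sum_pow]
      apply sum_congr rfl
      intro p _
      rw [← e_sum, ← e_add]
      congr 1
      rw [sum_add_distrib, mul_sum]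
      push_cast
      rw [mul_sum]
      ring
    rw [← h2, norm_pow]
    ring
  rw [sum_congr rfl (fun t _ => h1 _)]
  have h3 := parseval_le (fun p : Fin 4 → Fin P => e (θ * ∑ i, ((p i : ℕ) : ℝ)))
    (fun _ => (norm_e _).le) (fun p => ∑ i, ((p i : ℕ)) ^ 2) L hL1 (by
      intro p
      have h4 : ∀ i ∈ (univ : Finset (Fin 4)), ((p i : ℕ)) ^ 2 ≤ (P - 1) ^ 2 := by
        intro i _
        have := (p i).isLt
        exact Nat.pow_le_pow_left (by omega) 2
      have h5 := sum_le_sum h4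
      rw [sum_const, card_univ, Fintype.card_fin, smul_eq_mul] at h5
      have h6 : (P - 1) ^ 2 < P ^ 2 := Nat.pow_lt_pow_left (by omega) (by norm_num)
      omega)
  exact h3

/-- integer points of `[0,P)⁹` with squared norm `lam` -/
def V (P lam : ℕ) : Finset (Fin 9 → Fin P) := univ.filter (fun v => ∑ i, ((v i : ℕ)) ^ 2 = lam)

/-- exponential sum over `V` -/
noncomputable def S (P lam : ℕ) (θ : Fin 9 → ℝ) : ℂ := ∑ v ∈ V P lam, e (∑ i, θ i * ((v i : ℕ) : ℝ))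

lemma S_eq (P lam L : ℕ) (hP : 1 ≤ P) (hL : 9 * P ^ 2 ≤ L) (hlam : lam < L) (θ : Fin 9 → ℝ) :
    (L : ℂ) * S P lam θ = ∑ t ∈ range L, e (-((t : ℝ) / L * lam)) * ∏ i, f P ((t : ℝ) / L) (θ i) := by
  have hL1 : 1 ≤ L := le_trans (by nlinarith) hL
  have h1 : ∀ t : ℝ, e (-(t * lam)) * ∏ i, f P t (θ i) = ∑ v : Fin 9 → Fin P,
      e (∑ i, θ i * ((v i : ℕ) : ℝ)) *
        e (t * (((∑ i, ((v i : ℕ)) ^ 2 : ℕ) - (lam : ℤ) : ℤ) : ℝ)) := by
    intro t
    unfold f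
    simp_rw [sum_range]
    rw [Finset.prod_univ_sum, Fintype.piFinset_univ, mul_sum]
    apply sum_congr rfl
    intro v _
    rw [← e_sum, ← e_add, ← e_add]
    congr 1
    rw [sum_add_distrib]
    push_cast
    rw [mul_sub, mul_sum]
    ring
  rw [sum_congr rfl (fun t _ => h1 _), sum_comm]
  have h2 : ∀ v ∈ (univ : Finset (Fin 9 → Fin P)), ∑ t ∈ range L, e (∑ i, θ i * ((v i : ℕ) : ℝ)) *
        e ((t : ℝ) / L * (((∑ i, ((v i : ℕ)) ^ 2 : ℕ) - (lam : ℤ) : ℤ) : ℝ)) =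
      if ∑ i, ((v i : ℕ)) ^ 2 = lam then (L : ℂ) * e (∑ i, θ i * ((v i : ℕ) : ℝ)) else 0 := by
    intro v _
    rw [← mul_sum, orth L hL1]
    have h4 : ∀ i ∈ (univ : Finset (Fin 9)), ((v i : ℕ)) ^ 2 ≤ (P - 1) ^ 2 := by
      intro i _
      have := (v i).isLt
      exact Nat.pow_le_pow_left (by omega) 2
    have h5 := sum_le_sum h4
    rw [sum_const, card_univ, Fintype.card_fin, smul_eq_mul] at h5
    have h6 : (P - 1) ^ 2 < P ^ 2 := Nat.pow_lt_pow_left (by omega) (by norm_num)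
    by_cases h : ∑ i, ((v i : ℕ)) ^ 2 = lam
    · rw [if_pos h, if_pos (by rw [h, sub_self]; exact dvd_zero _)]
      ring
    · rw [if_neg h, if_neg, mul_zero]
      intro hd
      apply h
      have h5 : |((∑ i, ((v i : ℕ)) ^ 2 : ℕ) : ℤ) - lam| < L := by
        rw [abs_lt]; constructor <;> omega
      have := Int.eq_zero_of_abs_lt_dvd hd h5
      omega
  rw [sum_congr rfl h2, ← sum_filter, S, mul_sum]
  rfl

lemma prod_le_sum_pow (a : Fin 8 → ℝ) (ha : ∀ j, 0 ≤ a j) : ∏ j, a j ≤ ∑ j, a j ^ 8 := by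
  obtain ⟨j0, _, hj0⟩ := exists_max_image (univ : Finset (Fin 8)) a ⟨0, mem_univ _⟩
  calc ∏ j, a j ≤ ∏ _j : Fin 8, a j0 := prod_le_prod (fun j _ => ha j) (fun j _ => hj0 j (mem_univ _))
    _ = a j0 ^ 8 := by rw [prod_const, card_univ, Fintype.card_fin]
    _ ≤ ∑ j, a j ^ 8 := single_le_sum (f := fun j => a j ^ 8) (fun j _ => pow_nonneg (ha j) 8)
        (mem_univ j0)

lemma S_bound (P lam : ℕ) (hP : 1 ≤ P) (hlam : lam < 9 * P ^ 2) (θ : Fin 9 → ℝ) (η : ℝ)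
    (hη : 0 < η) (i0 : Fin 9) (hbad : ∀ t : ℝ, ‖f P t (θ i0)‖ ≤ η * P) :
    ‖S P lam θ‖ ≤ 96000 * η * (P : ℝ) ^ 7 := by
  set L := 9 * P ^ 2 with hL
  have hL1 : 1 ≤ L := by nlinarith
  have hL0 : (0:ℝ) < L := by exact_mod_cast hL1
  have h1 := S_eq P lam L hP le_rfl hlam θ
  have h2 : (L : ℝ) * ‖S P lam θ‖ ≤ ∑ t ∈ range L, η * P * ∑ j : Fin 8,
      ‖f P ((t : ℝ) / L) (θ (i0.succAbove j))‖ ^ 8 := by
    have h3 : (L : ℝ) * ‖S P lam θ‖ = ‖(L : ℂ) * S P lam θ‖ := by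
      rw [norm_mul, Complex.norm_natCast]
    rw [h3, h1]
    refine le_trans (norm_sum_le _ _) ?_
    apply sum_le_sum
    intro t _
    rw [norm_mul, norm_e, one_mul, norm_prod, Fin.prod_univ_succAbove _ i0]
    apply mul_le_mul (hbad _) _ (prod_nonneg (fun _ _ => norm_nonneg _)) (by positivity)
    exact prod_le_sum_pow _ (fun _ => norm_nonneg _)
  have h3 : ∑ t ∈ range L, η * P * ∑ j : Fin 8, ‖f P ((t : ℝ) / L) (θ (i0.succAbove j))‖ ^ 8 ≤
      η * P * (8 * (L * (12000 * (P : ℝ) ^ 6))) := by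
    rw [← mul_sum, sum_comm]
    apply mul_le_mul_of_nonneg_left _ (by positivity)
    have h4 : ∀ j ∈ (univ : Finset (Fin 8)),
        ∑ t ∈ range L, ‖f P ((t : ℝ) / L) (θ (i0.succAbove j))‖ ^ 8 ≤ L * (12000 * (P : ℝ) ^ 6) := by
      intro j _
      refine le_trans (f8 P L hP (by omega) _) ?_
      exact mul_le_mul_of_nonneg_left (count8 P hP) hL0.le
    refine le_trans (sum_le_sum h4) ?_
    rw [sum_const, card_univ, Fintype.card_fin, nsmul_eq_mul]
    norm_num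
  have h4 : (L : ℝ) * ‖S P lam θ‖ ≤ L * (96000 * η * (P : ℝ) ^ 7) := by
    refine le_trans (le_trans h2 h3) (le_of_eq ?_)
    ring
  exact le_of_mul_le_mul_left h4 hL0

lemma V_pigeon (P : ℕ) (hP : 1 ≤ P) : ∃ lam : ℕ, lam < 9 * P ^ 2 ∧ P ^ 7 ≤ 9 * (V P lam).card := by
  have h1 : (univ : Finset (Fin 9 → Fin P)).card = P ^ 9 := by
    rw [card_univ, Fintype.card_fun, Fintype.card_fin, Fintype.card_fin]
  have hmaps : ∀ v ∈ (univ : Finset (Fin 9 → Fin P)),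
      (fun v : Fin 9 → Fin P => ∑ i, ((v i : ℕ)) ^ 2) v ∈ range (9 * P ^ 2) := by
    intro v _
    rw [mem_range]
    have h4 : ∀ i ∈ (univ : Finset (Fin 9)), ((v i : ℕ)) ^ 2 ≤ (P - 1) ^ 2 := by
      intro i _
      have := (v i).isLt
      exact Nat.pow_le_pow_left (by omega) 2
    have h5 := sum_le_sum h4
    rw [sum_const, card_univ, Fintype.card_fin, smul_eq_mul] at h5
    have h6 : (P - 1) ^ 2 < P ^ 2 := Nat.pow_lt_pow_left (by omega) (by norm_num)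
    change ∑ i, ((v i : ℕ)) ^ 2 < 9 * P ^ 2
    omega
  by_contra hcon
  push Not at hcon
  have h2 : ∀ lam ∈ range (9 * P ^ 2), 9 * (V P lam).card < P ^ 7 := by
    intro lam hl
    exact hcon lam (mem_range.1 hl)
  have h3 := card_eq_sum_card_fiberwise hmaps
  rw [h1] at h3
  have hne : (range (9 * P ^ 2)).Nonempty := ⟨0, by rw [mem_range]; positivity⟩
  have h4 : ∑ lam ∈ range (9 * P ^ 2), 9 * (V P lam).card < ∑ lam ∈ range (9 * P ^ 2), P ^ 7 :=
    sum_lt_sum_of_nonempty hne h2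
  rw [← mul_sum, sum_const, card_range, smul_eq_mul] at h4
  have h5 : ∑ lam ∈ range (9 * P ^ 2), (V P lam).card = P ^ 9 := h3.symm
  rw [h5] at h4
  have : 9 * P ^ 2 * P ^ 7 = 9 * P ^ 9 := by ring
  omega

theorem sphere (δ : ℝ) (hδ : 0 < δ) :
    ∃ (Q : ℕ) (C : ℝ) (P1 : ℕ), 1 ≤ Q ∧ 0 < C ∧ ∀ P : ℕ, P1 ≤ P →
      ∃ lam : ℕ, 1 ≤ lam ∧ (V P lam).Nonempty ∧ ∀ θ : Fin 9 → ℝ,
        ‖S P lam θ‖ ≤ δ * (V P lam).card ∨ ∀ i, ∃ n : ℤ, |Q * θ i - n| ≤ C / P := by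
  set η : ℝ := δ / 864000 with hη
  have hηpos : 0 < η := by positivity
  obtain ⟨q0, C1, P0, hC1, hP0, hw⟩ := weyl η hηpos
  refine ⟨q0.factorial, q0.factorial * C1, P0 + 10, Nat.factorial_pos _, by positivity, ?_⟩
  intro P hP
  have hP1 : 1 ≤ P := by omega
  have hPpos : (0:ℝ) < P := by exact_mod_cast hP1
  obtain ⟨lam, hlam, hcard⟩ := V_pigeon P hP1
  have hcard10 : 2 ≤ (V P lam).card := by
    by_contra h
    push Not at h
    have h1 : P ^ 7 ≤ 9 := by omega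
    have h2 : 10 ^ 7 ≤ P ^ 7 := Nat.pow_le_pow_left (by omega) 7
    omega
  refine ⟨lam, ?_, card_pos.1 (by omega), ?_⟩
  · by_contra h
    have h0 : lam = 0 := by omega
    subst h0
    have : (V P 0).card ≤ 1 := by
      rw [card_le_one]
      intro a ha b hb
      have h1 := (mem_filter.1 ha).2
      have h2 := (mem_filter.1 hb).2
      rw [sum_eq_zero_iff] at h1 h2
      funext i
      apply Fin.ext
      have h3 := pow_eq_zero_iff (n := 2) (by norm_num) |>.1 (h1 i (mem_univ _))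
      have h4 := pow_eq_zero_iff (n := 2) (by norm_num) |>.1 (h2 i (mem_univ _))
      rw [h3, h4]
    omega
  · intro θ
    by_cases hbad : ∃ i0, ∀ t : ℝ, ‖f P t (θ i0)‖ ≤ η * P
    · left
      obtain ⟨i0, hi0⟩ := hbad
      refine le_trans (S_bound P lam hP1 hlam θ η hηpos i0 hi0) ?_
      have h1 : ((P : ℝ)) ^ 7 ≤ 9 * (V P lam).card := by exact_mod_cast hcard
      have h2 : 96000 * η * (P : ℝ) ^ 7 = δ * ((P : ℝ) ^ 7 / 9) := by rw [hη]; ring
      rw [h2]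
      apply mul_le_mul_of_nonneg_left _ hδ.le
      linarith
    · right
      push Not at hbad
      intro i
      obtain ⟨t, ht⟩ := hbad i
      obtain ⟨q, hq1, hq2, n, hn⟩ := hw P (by omega) t (θ i) ht
      obtain ⟨k, hk⟩ := Nat.dvd_factorial hq1 hq2
      refine ⟨k * n, ?_⟩
      have e1 : ((q0.factorial : ℕ) : ℝ) * θ i - ((k * n : ℤ) : ℝ) = k * (q * θ i - n) := by
        rw [hk]
        push_cast
        ring
      rw [e1, abs_mul, Nat.abs_cast]
      have h1 : (k : ℝ) ≤ q0.factorial := by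
        have : k ≤ q0.factorial := by
          rw [hk]
          exact Nat.le_mul_of_pos_left _ hq1
        exact_mod_cast this
      calc (k : ℝ) * |q * θ i - n| ≤ q0.factorial * (C1 / P) :=
            mul_le_mul h1 hn (abs_nonneg _) (by positivity)
        _ = _ := by ring

end Pool.Agent.H520R3
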