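import Mathlib
import Pool.Agent.H520R3.Sphere

/-! A set of integer points meeting every translate of `Q·[0,R)⁹` in a large box contains two
points at distance `√lam`. -/

set_option autoImplicit false

namespace Pool.Agent.H520R3

open Finset

lemma orth9 (M : ℕ) (hM : 1 ≤ M) (u : Fin 9 → ℤ) :
    ∑ k ∈ Fintype.piFinset (fun _ : Fin 9 => range M), e (∑ i, ((k i : ℕ) : ℝ) / M * u i) =
      if (∀ i, (M : ℤ) ∣ u i) then (M : ℂ) ^ 9 else 0 := by
  have h1 : ∑ k ∈ Fintype.piFinset (fun _ : Fin 9 => range M), e (∑ i, ((k i : ℕ) : ℝ) / M * u i) =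
      ∏ i : Fin 9, ∑ t ∈ range M, e ((t : ℝ) / M * u i) := by
    rw [Finset.prod_univ_sum]
    apply sum_congr rfl
    intro k _
    rw [e_sum]
  rw [h1]
  simp_rw [orth M hM]
  split_ifs with h
  · have : ∀ i ∈ (univ : Finset (Fin 9)), (if (M : ℤ) ∣ u i then (M : ℂ) else 0) = M := by
      intro i _
      rw [if_pos (h i)]
    rw [prod_congr rfl this, prod_const, card_univ, Fintype.card_fin]
  · push Not at h
    obtain ⟨i, hi⟩ := h
    apply prod_eq_zero (mem_univ i)
    rw [if_neg hi]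

open Classical in
/-- triples `(a, b, v)` with `b = a + v + r` -/
noncomputable def NN (P lam : ℕ) (AH : Finset (Fin 9 → ℕ)) (r : Fin 9 → ℤ) :
    Finset ((Fin 9 → ℕ) × (Fin 9 → ℕ) × (Fin 9 → Fin P)) :=
  (AH ×ˢ AH ×ˢ V P lam).filter (fun q => ∀ i, ((q.2.1 i : ℕ) : ℤ) = (q.1 i : ℕ) + ((q.2.2 i : ℕ) : ℤ) + r i)

/-- Fourier transform of the indicator function of `AH` -/
noncomputable def FF (M : ℕ) (AH : Finset (Fin 9 → ℕ)) (k : Fin 9 → ℕ) : ℂ :=
  ∑ a ∈ AH, e (∑ i, ((k i : ℕ) : ℝ) / M * a i)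

lemma FF_mul (M : ℕ) (AH : Finset (Fin 9 → ℕ)) (k : Fin 9 → ℕ) :
    ((‖FF M AH k‖ : ℝ) : ℂ) ^ 2 = ∑ a ∈ AH, ∑ b ∈ AH,
      e (∑ i, ((k i : ℕ) : ℝ) / M * (((a i : ℤ) - (b i : ℤ) : ℤ) : ℝ)) := by
  rw [← Complex.mul_conj']
  unfold FF
  rw [map_sum, sum_mul_sum]
  apply sum_congr rfl
  intro a _
  apply sum_congr rfl
  intro b _
  rw [← e_neg, ← e_add]
  congr 1
  rw [← sum_neg_distrib, ← sum_add_distrib]
  apply sum_congr rfl
  intro i _
  push_cast
  ring

lemma FF_parseval (M H : ℕ) (hM : 1 ≤ M) (hHM : H ≤ M) (AH : Finset (Fin 9 → ℕ))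
    (hAH : ∀ a ∈ AH, ∀ i, a i < H) :
    ∑ k ∈ Fintype.piFinset (fun _ : Fin 9 => range M), ‖FF M AH k‖ ^ 2 = (M : ℝ) ^ 9 * AH.card := by
  have h1 : ((∑ k ∈ Fintype.piFinset (fun _ : Fin 9 => range M), ‖FF M AH k‖ ^ 2 : ℝ) : ℂ) =
      (M : ℂ) ^ 9 * AH.card := by
    push_cast
    rw [sum_congr rfl (fun k _ => FF_mul M AH k), sum_comm]
    have h2 : ∀ a ∈ AH, ∑ k ∈ Fintype.piFinset (fun _ : Fin 9 => range M), ∑ b ∈ AH,
        e (∑ i, ((k i : ℕ) : ℝ) / M * (((a i : ℤ) - (b i : ℤ) : ℤ) : ℝ)) = (M : ℂ) ^ 9 := by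
      intro a ha
      rw [sum_comm, sum_eq_single_of_mem a ha]
      · rw [orth9 M hM (fun i => (a i : ℤ) - (a i : ℤ)), if_pos]
        intro i
        rw [sub_self]
        exact dvd_zero _
      · intro b hb hne
        rw [orth9 M hM (fun i => (a i : ℤ) - (b i : ℤ)), if_neg]
        intro hd
        apply hne
        funext i
        have h3 := hAH a ha i
        have h4 := hAH b hb i
        have h5 : |(a i : ℤ) - b i| < M := by rw [abs_lt]; constructor <;> omega
        have := Int.eq_zero_of_abs_lt_dvd (hd i) h5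
        omega
    rw [sum_congr rfl h2, sum_const, nsmul_eq_mul, mul_comm]
  exact_mod_cast h1

lemma NN_eq (P lam M H : ℕ) (B : ℕ) (hM : 1 ≤ M) (hHM : H + P + B ≤ M) (AH : Finset (Fin 9 → ℕ))
    (hAH : ∀ a ∈ AH, ∀ i, a i < H) (r : Fin 9 → ℤ) (hr : ∀ i, |r i| ≤ B) :
    ∑ k ∈ Fintype.piFinset (fun _ : Fin 9 => range M), ((‖FF M AH k‖ : ℝ) : ℂ) ^ 2 *
      (S P lam (fun i => ((k i : ℕ) : ℝ) / M) * e (∑ i, ((k i : ℕ) : ℝ) / M * r i)) =
      (M : ℂ) ^ 9 * (NN P lam AH r).card := by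
  classical
  have h1 : ∀ k ∈ Fintype.piFinset (fun _ : Fin 9 => range M), ((‖FF M AH k‖ : ℝ) : ℂ) ^ 2 *
      (S P lam (fun i => ((k i : ℕ) : ℝ) / M) * e (∑ i, ((k i : ℕ) : ℝ) / M * r i)) =
      ∑ q ∈ AH ×ˢ AH ×ˢ V P lam, e (∑ i, ((k i : ℕ) : ℝ) / M *
        (((q.1 i : ℤ) - (q.2.1 i : ℤ) + ((q.2.2 i : ℕ) : ℤ) + r i : ℤ) : ℝ)) := by
    intro k _
    rw [FF_mul, sum_product, sum_mul]
    apply sum_congr rfl
    intro a _
    rw [sum_product, sum_mul]
    apply sum_congr rfl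
    intro b _
    unfold S
    rw [sum_mul, mul_sum]
    apply sum_congr rfl
    intro v _
    rw [← e_add, ← e_add]
    congr 1
    rw [← sum_add_distrib, ← sum_add_distrib]
    apply sum_congr rfl
    intro i _
    push_cast
    ring
  rw [sum_congr rfl h1, sum_comm]
  have h2 : ∀ q ∈ AH ×ˢ AH ×ˢ V P lam, ∑ k ∈ Fintype.piFinset (fun _ : Fin 9 => range M),
      e (∑ i, ((k i : ℕ) : ℝ) / M *
        (((q.1 i : ℤ) - (q.2.1 i : ℤ) + ((q.2.2 i : ℕ) : ℤ) + r i : ℤ) : ℝ)) =
      if (∀ i, ((q.2.1 i : ℕ) : ℤ) = (q.1 i : ℕ) + ((q.2.2 i : ℕ) : ℤ) + r i) then (M : ℂ) ^ 9 else 0 := by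
    intro q hq
    rw [mem_product, mem_product] at hq
    rw [orth9 M hM (fun i => (q.1 i : ℤ) - (q.2.1 i : ℤ) + ((q.2.2 i : ℕ) : ℤ) + r i)]
    have hiff : (∀ i, (M : ℤ) ∣ (q.1 i : ℤ) - (q.2.1 i : ℤ) + ((q.2.2 i : ℕ) : ℤ) + r i) ↔
        (∀ i, ((q.2.1 i : ℕ) : ℤ) = (q.1 i : ℕ) + ((q.2.2 i : ℕ) : ℤ) + r i) := by
      constructor
      · intro h i
        have h3 := hAH _ hq.1 i
        have h4 := hAH _ hq.2.1 i
        have h5 := (q.2.2 i).isLt
        have h6 := abs_le.1 (hr i)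
        have h7 : |(q.1 i : ℤ) - (q.2.1 i : ℤ) + ((q.2.2 i : ℕ) : ℤ) + r i| < M := by
          rw [abs_lt]; constructor <;> omega
        have := Int.eq_zero_of_abs_lt_dvd (h i) h7
        omega
      · intro h i
        have := h i
        have h2 : (q.1 i : ℤ) - (q.2.1 i : ℤ) + ((q.2.2 i : ℕ) : ℤ) + r i = 0 := by omega
        rw [h2]
        exact dvd_zero _
    simp only [hiff]
  rw [sum_congr rfl h2, ← sum_filter, sum_const, nsmul_eq_mul, mul_comm]
  rfl

/-- the main averaging statement -/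
theorem avg (R : ℕ) (hR : 1 ≤ R) :
    ∃ (Q lam H : ℕ), 1 ≤ Q ∧ 1 ≤ lam ∧ 1 ≤ H ∧ ∀ A : (Fin 9 → ℕ) → Prop,
      (∀ x : Fin 9 → ℕ, (∀ i, x i + Q * R ≤ H) →
        ∃ p : Fin 9 → ℕ, (∀ i, p i < R) ∧ A (fun i => x i + Q * p i)) →
      ∃ a b : Fin 9 → ℕ, (∀ i, a i < H) ∧ (∀ i, b i < H) ∧ A a ∧ A b ∧
        ∑ i, ((b i : ℤ) - a i) ^ 2 = lam := by
  classical
  set δ : ℝ := 1 / (8 * (R : ℝ) ^ 18) with hδ
  have hR0 : (0:ℝ) < R := by exact_mod_cast hR
  have hδpos : 0 < δ := by positivity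
  obtain ⟨Q, C, P1, hQ, hC, hsph⟩ := sphere δ hδpos
  set P : ℕ := P1 + ⌈36 * R * C / δ⌉₊ + 1 with hP
  have hP1 : P1 ≤ P := by omega
  have hPpos' : 1 ≤ P := by omega
  have hPpos : (0:ℝ) < P := by exact_mod_cast hPpos'
  have hPbig : 36 * R * C / δ ≤ (P : ℝ) := by
    have h1 := Nat.le_ceil (36 * R * C / δ)
    have h2 : ((⌈36 * R * C / δ⌉₊ : ℕ) : ℝ) ≤ P := by
      have : ⌈36 * R * C / δ⌉₊ ≤ P := by omega
      exact_mod_cast this
    linarith
  obtain ⟨lam, hlam, hVne, hS⟩ := hsph P hP1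
  set B : ℕ := Q * R with hB
  set H : ℕ := 100 * (B + P) with hH
  set M : ℕ := H + P + B with hM
  have hM1 : 1 ≤ M := by omega
  refine ⟨Q, lam, H, hQ, hlam, by omega, ?_⟩
  intro A hA
  by_contra hcon
  push Not at hcon
  set AH : Finset (Fin 9 → ℕ) := (Fintype.piFinset (fun _ : Fin 9 => range H)).filter A with hAHdef
  have hAH : ∀ a ∈ AH, ∀ i, a i < H := by
    intro a ha i
    have := (mem_filter.1 ha).1
    rw [Fintype.mem_piFinset] at this
    exact mem_range.1 (this i)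
  have hAHcard : (AH.card : ℝ) ≤ (H : ℝ) ^ 9 := by
    have h1 : AH.card ≤ H ^ 9 := by
      refine le_trans (card_filter_le _ _) ?_
      rw [Fintype.card_piFinset]
      simp
    exact_mod_cast h1
  -- no pair at distance √lam
  have hN0 : NN P lam AH (fun _ => 0) = ∅ := by
    rw [eq_empty_iff_forall_notMem]
    intro q hq
    unfold NN at hq
    rw [mem_filter, mem_product, mem_product] at hq
    obtain ⟨⟨h1, h2, h3⟩, h4⟩ := hq
    apply hcon q.1 q.2.1 (hAH _ h1) (hAH _ h2) (mem_filter.1 h1).2 (mem_filter.1 h2).2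
    have h5 := (mem_filter.1 h3).2
    have h6 : ∀ i ∈ (univ : Finset (Fin 9)), ((q.2.1 i : ℤ) - q.1 i) ^ 2 = (((q.2.2 i : ℕ) ^ 2 : ℕ) : ℤ) := by
      intro i _
      have := h4 i
      rw [this]
      push_cast
      ring
    rw [sum_congr rfl h6, ← h5]
    push_cast
    rfl
  have hNN : ∀ s : Fin 9 → ℤ, (∀ i, |s i| ≤ R) →
      ((NN P lam AH (fun i => Q * s i)).card : ℝ) ≤ 2 * δ * (V P lam).card * (H : ℝ) ^ 9 := by
    intro s hs
    have hr : ∀ i, |(fun i => (Q : ℤ) * s i) i| ≤ (B : ℤ) := by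
      intro i
      change |(Q : ℤ) * s i| ≤ _
      rw [abs_mul, Nat.abs_cast, hB]
      push_cast
      exact mul_le_mul_of_nonneg_left (hs i) (by positivity)
    have h1 := NN_eq P lam M H B hM1 le_rfl AH hAH (fun i => (Q : ℤ) * s i) hr
    have h2 := NN_eq P lam M H B hM1 le_rfl AH hAH (fun _ => 0) (by intro i; simp)
    rw [hN0] at h2
    have h3 : (M : ℂ) ^ 9 * (NN P lam AH (fun i => (Q : ℤ) * s i)).card =
        ∑ k ∈ Fintype.piFinset (fun _ : Fin 9 => range M), ((‖FF M AH k‖ : ℝ) : ℂ) ^ 2 *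
      (S P lam (fun i => ((k i : ℕ) : ℝ) / M) *
        (e (∑ i, ((k i : ℕ) : ℝ) / M * (((Q : ℤ) * s i : ℤ) : ℝ)) - 1)) := by
      have e0 : ∀ k : Fin 9 → ℕ, e (∑ i, ((k i : ℕ) : ℝ) / M * ((0 : ℤ) : ℝ)) = 1 := by
        intro k
        simp [e_zero]
      simp only [e0, card_empty, Nat.cast_zero, mul_zero] at h2
      rw [← h1, ← sub_zero (∑ k ∈ _, _), ← h2, ← sum_sub_distrib]
      apply sum_congr rfl
      intro k _
      ring
    have h4 : (M : ℝ) ^ 9 * (NN P lam AH (fun i => (Q : ℤ) * s i)).card ≤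
        ∑ k ∈ Fintype.piFinset (fun _ : Fin 9 => range M), ‖FF M AH k‖ ^ 2 *
          (2 * δ * (V P lam).card) := by
      have h5 : (M : ℝ) ^ 9 * (NN P lam AH (fun i => (Q : ℤ) * s i)).card =
          ‖(M : ℂ) ^ 9 * (NN P lam AH (fun i => (Q : ℤ) * s i)).card‖ := by
        rw [norm_mul, norm_pow, Complex.norm_natCast, Complex.norm_natCast]
      rw [h5, h3]
      refine le_trans (norm_sum_le _ _) ?_
      apply sum_le_sum
      intro k _
      rw [norm_mul, norm_pow, Complex.norm_real, norm_norm, norm_mul]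
      apply mul_le_mul_of_nonneg_left _ (by positivity)
      have hV0 : (0:ℝ) ≤ (V P lam).card := by positivity
      rcases hS (fun i => ((k i : ℕ) : ℝ) / M) with h6 | h6
      · have h7 : ‖e (∑ i, ((k i : ℕ) : ℝ) / M * (((Q : ℤ) * s i : ℤ) : ℝ)) - 1‖ ≤ 2 := by
          refine le_trans (norm_sub_le _ _) ?_
          rw [norm_e, norm_one]
          norm_num
        calc _ ≤ (δ * (V P lam).card) * 2 := mul_le_mul h6 h7 (norm_nonneg _) (by positivity)
          _ = _ := by ring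
      · have h7 : ‖S P lam (fun i => ((k i : ℕ) : ℝ) / M)‖ ≤ (V P lam).card := by
          unfold S
          refine le_trans (norm_sum_le _ _) ?_
          rw [sum_congr rfl (fun v _ => norm_e _)]
          simp
        choose n hn using h6
        have h8 : e (∑ i, ((k i : ℕ) : ℝ) / M * (((Q : ℤ) * s i : ℤ) : ℝ)) =
            e (∑ i, (Q * (((k i : ℕ) : ℝ) / M) - n i) * s i) := by
          have : ∑ i, ((k i : ℕ) : ℝ) / M * (((Q : ℤ) * s i : ℤ) : ℝ) =
              ∑ i, (Q * (((k i : ℕ) : ℝ) / M) - n i) * s i + ((∑ i, n i * s i : ℤ) : ℝ) := by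
            push_cast
            rw [← sum_add_distrib]
            apply sum_congr rfl
            intro i _
            ring
          rw [this, e_add_int]
        have h9 : ‖e (∑ i, ((k i : ℕ) : ℝ) / M * (((Q : ℤ) * s i : ℤ) : ℝ)) - 1‖ ≤ 2 * δ := by
          rw [h8]
          refine le_trans (norm_e_sub_one_le _) ?_
          have h10 : |∑ i, (Q * (((k i : ℕ) : ℝ) / M) - n i) * (s i : ℝ)| ≤ 9 * (C / P * R) := by
            refine le_trans (abs_sum_le_sum_abs _ _) ?_
            have h11 : ∀ i ∈ (univ : Finset (Fin 9)),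
                |(Q * (((k i : ℕ) : ℝ) / M) - n i) * (s i : ℝ)| ≤ C / P * R := by
              intro i _
              rw [abs_mul]
              have h12 : |(s i : ℝ)| ≤ R := by
                have := hs i
                rw [← Int.cast_abs]
                exact_mod_cast this
              exact mul_le_mul (hn i) h12 (abs_nonneg _) (by positivity)
            refine le_trans (sum_le_sum h11) ?_
            rw [sum_const, card_univ, Fintype.card_fin, nsmul_eq_mul]
            norm_num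
          have hpi : Real.pi ≤ 4 := Real.pi_le_four
          have h12 : 36 * R * C ≤ P * δ := by
            rw [div_le_iff₀ hδpos] at hPbig
            exact hPbig
          have h13 : 9 * (C / P * R) * 8 ≤ 2 * δ := by
            have : 9 * (C / P * R) * 8 = 2 * (36 * R * C) / P := by ring
            rw [this, div_le_iff₀ hPpos]
            linarith
          calc 2 * Real.pi * |∑ i, (Q * (((k i : ℕ) : ℝ) / M) - n i) * (s i : ℝ)|
              ≤ 8 * (9 * (C / P * R)) := by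
                apply mul_le_mul _ h10 (abs_nonneg _) (by norm_num)
                linarith
            _ ≤ 2 * δ := by linarith
        calc _ ≤ ((V P lam).card : ℝ) * (2 * δ) := mul_le_mul h7 h9 (norm_nonneg _) hV0
          _ = _ := by ring
    rw [← sum_mul, FF_parseval M H hM1 (by omega) AH hAH] at h4
    have hM0 : (0:ℝ) < (M : ℝ) ^ 9 := by
      have : (0:ℝ) < M := by exact_mod_cast hM1
      positivity
    have h5 : ((NN P lam AH (fun i => (Q : ℤ) * s i)).card : ℝ) ≤ AH.card * (2 * δ * (V P lam).card) := by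
      rw [mul_assoc] at h4
      exact le_of_mul_le_mul_left h4 hM0
    refine le_trans h5 ?_
    have h6 : 0 ≤ 2 * δ * ((V P lam).card : ℝ) := by positivity
    calc (AH.card : ℝ) * (2 * δ * (V P lam).card) ≤ (H : ℝ) ^ 9 * (2 * δ * (V P lam).card) :=
          mul_le_mul_of_nonneg_right hAHcard h6
      _ = _ := by ring
  -- lower bound
  have hchoose : ∀ x : Fin 9 → ℕ, ∃ p : Fin 9 → ℕ, (∀ i, x i + Q * R ≤ H) →
      (∀ i, p i < R) ∧ A (fun i => x i + Q * p i) := by
    intro x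
    by_cases hx : ∀ i, x i + Q * R ≤ H
    · obtain ⟨p, hp⟩ := hA x hx
      exact ⟨p, fun _ => hp⟩
    · exact ⟨fun _ => 0, fun h => absurd h hx⟩
  choose p hp using hchoose
  set W : ℕ := H - B - P with hW
  set X0 : Finset (Fin 9 → ℕ) := Fintype.piFinset (fun _ : Fin 9 => range W) with hX0
  set PP : Finset ((Fin 9 → ℕ) × (Fin 9 → ℕ)) :=
    (Fintype.piFinset (fun _ : Fin 9 => range R)) ×ˢ (Fintype.piFinset (fun _ : Fin 9 => range R)) with hPP
  set T : Finset ((_ : (Fin 9 → ℕ) × (Fin 9 → ℕ)) ×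
      ((Fin 9 → ℕ) × (Fin 9 → ℕ) × (Fin 9 → Fin P))) :=
    PP.sigma (fun pp => NN P lam AH (fun i => (Q : ℤ) * ((pp.2 i : ℤ) - pp.1 i))) with hT
  have hlow : X0.card * (V P lam).card ≤ T.card := by
    rw [← card_product]
    apply card_le_card_of_injOn (fun xv : (Fin 9 → ℕ) × (Fin 9 → Fin P) =>
      (⟨(p xv.1, p (fun i => xv.1 i + (xv.2 i : ℕ))),
        (fun i => xv.1 i + Q * p xv.1 i,
         fun i => xv.1 i + (xv.2 i : ℕ) + Q * p (fun i => xv.1 i + (xv.2 i : ℕ)) i,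
         xv.2)⟩ : ((_ : (Fin 9 → ℕ) × (Fin 9 → ℕ)) ×
      ((Fin 9 → ℕ) × (Fin 9 → ℕ) × (Fin 9 → Fin P)))))
    · intro xv hxv
      rw [mem_coe, mem_product, hX0, Fintype.mem_piFinset] at hxv
      obtain ⟨hx, hv⟩ := hxv
      have hx' : ∀ i, xv.1 i < W := fun i => mem_range.1 (hx i)
      have hv' : ∀ i, (xv.2 i : ℕ) < P := fun i => (xv.2 i).isLt
      have h1 := hp xv.1 (fun i => by have := hx' i; rw [← hB]; omega)
      have h2 := hp (fun i => xv.1 i + (xv.2 i : ℕ)) (fun i => by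
        have := hx' i
        have := hv' i
        rw [← hB]
        change xv.1 i + (xv.2 i : ℕ) + B ≤ H
        omega)
      have hqR : ∀ z : ℕ, z < R → Q * z ≤ B := by
        intro z hz
        rw [hB]
        exact Nat.mul_le_mul_left _ hz.le
      rw [mem_coe, hT, mem_sigma]
      refine ⟨?_, ?_⟩
      · rw [hPP, mem_product, Fintype.mem_piFinset, Fintype.mem_piFinset]
        exact ⟨fun i => mem_range.2 (h1.1 i), fun i => mem_range.2 (h2.1 i)⟩
      · unfold NN
        rw [mem_filter, mem_product, mem_product]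
        refine ⟨⟨?_, ?_, hv⟩, ?_⟩
        · rw [hAHdef, mem_filter, Fintype.mem_piFinset]
          refine ⟨fun i => ?_, h1.2⟩
          rw [mem_range]
          have := hx' i
          have := hqR _ (h1.1 i)
          change xv.1 i + Q * p xv.1 i < H
          omega
        · rw [hAHdef, mem_filter, Fintype.mem_piFinset]
          refine ⟨fun i => ?_, h2.2⟩
          rw [mem_range]
          have := hx' i
          have := hv' i
          have := hqR _ (h2.1 i)
          change xv.1 i + (xv.2 i : ℕ) + Q * p (fun i => xv.1 i + (xv.2 i : ℕ)) i < H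
          omega
        · intro i
          push_cast
          ring
    · intro xv hxv yw hyw h
      have h1 := (Sigma.mk.inj h).1
      have h2 := eq_of_heq (Sigma.mk.inj h).2
      have h3 : p xv.1 = p yw.1 := congrArg Prod.fst h1
      have h4 : (fun i => xv.1 i + Q * p xv.1 i) = (fun i => yw.1 i + Q * p yw.1 i) :=
        congrArg Prod.fst h2
      have h5 : xv.2 = yw.2 := congrArg (fun z => z.2.2) h2
      apply Prod.ext
      · funext i
        have h6 : xv.1 i + Q * p xv.1 i = yw.1 i + Q * p yw.1 i := congrFun h4 i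
        rw [h3] at h6
        exact Nat.add_right_cancel h6
      · exact h5
  have hup : (T.card : ℝ) ≤ (R : ℝ) ^ 18 * (2 * δ * (V P lam).card * (H : ℝ) ^ 9) := by
    rw [hT, card_sigma]
    push_cast
    have h1 : ∀ pp ∈ PP, ((NN P lam AH (fun i => (Q : ℤ) * ((pp.2 i : ℤ) - pp.1 i))).card : ℝ) ≤
        2 * δ * (V P lam).card * (H : ℝ) ^ 9 := by
      intro pp hpp
      rw [hPP, mem_product, Fintype.mem_piFinset, Fintype.mem_piFinset] at hpp
      apply hNN (fun i => (pp.2 i : ℤ) - pp.1 i)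
      intro i
      have h1 := mem_range.1 (hpp.1 i)
      have h2 := mem_range.1 (hpp.2 i)
      rw [abs_le]
      constructor <;> omega
    refine le_trans (sum_le_sum h1) ?_
    rw [sum_const, nsmul_eq_mul]
    apply le_of_eq
    congr 1
    rw [hPP, card_product, Fintype.card_piFinset]
    simp only [prod_const, card_range, card_univ, Fintype.card_fin]
    push_cast
    ring
  have hX0card : X0.card = W ^ 9 := by
    rw [hX0, Fintype.card_piFinset]
    simp
  rw [hX0card] at hlow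
  have hV0 : (0:ℝ) < (V P lam).card := by exact_mod_cast card_pos.2 hVne
  have h1 : (W : ℝ) ^ 9 * (V P lam).card ≤ (R : ℝ) ^ 18 * (2 * δ * (V P lam).card * (H : ℝ) ^ 9) := by
    refine le_trans ?_ hup
    exact_mod_cast hlow
  have h2 : (R : ℝ) ^ 18 * (2 * δ * (V P lam).card * (H : ℝ) ^ 9) =
      (1 / 4 * (H : ℝ) ^ 9) * (V P lam).card := by
    rw [hδ]
    field_simp
    ring
  rw [h2] at h1
  have h3 := le_of_mul_le_mul_right h1 hV0
  have h4 : (W : ℝ) = 99 / 100 * H := by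
    have : 100 * W = 99 * H := by omega
    have h5 : (100 : ℝ) * W = 99 * H := by exact_mod_cast this
    linarith
  rw [h4, mul_pow] at h3
  have hH0 : (0:ℝ) < (H : ℝ) ^ 9 := by
    have : 0 < H := by omega
    have : (0:ℝ) < H := by exact_mod_cast this
    positivity
  have h5 := le_of_mul_le_mul_right h3 hH0
  norm_num at h5

end Pool.Agent.H520R3
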