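import Mathlib

/-!
# Compositions of Darboux Baire one functions have connected graphs
-/

set_option autoImplicit false
open Set Filter Topology

namespace H520R3.DB1

/-- bilaterally dense in itself -/
def BDI (S : Set ℝ) : Prop :=
  ∀ c ∈ S, ∀ ε : ℝ, 0 < ε → (∃ l ∈ S, c - ε < l ∧ l < c) ∧ (∃ r ∈ S, c < r ∧ r < c + ε)

/-- maps intervals to intervals -/
def Darboux (g : ℝ → ℝ) : Prop := ∀ S : Set ℝ, OrdConnected S → OrdConnected (g '' S)

/-- pointwise limit of continuous functions -/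
def Baire1 {X : Type*} [TopologicalSpace X] (φ : X → ℝ) : Prop :=
  ∃ u : ℕ → X → ℝ, (∀ n, Continuous (u n)) ∧ ∀ x, Tendsto (fun n => u n x) atTop (𝓝 (φ x))

theorem Darboux.exists_eq {g : ℝ → ℝ} (hg : Darboux g) {a b s : ℝ}
    (hs : s ∈ uIcc (g a) (g b)) : ∃ c ∈ uIcc a b, g c = s := by
  have h := hg (uIcc a b) ordConnected_uIcc
  exact h.uIcc_subset (mem_image_of_mem g left_mem_uIcc) (mem_image_of_mem g right_mem_uIcc) hs

theorem BDI.preimage {g : ℝ → ℝ} (hg : Darboux g) {S : Set ℝ} (hS : BDI S) : BDI (g ⁻¹' S) := by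
  -- general fact: for every m ≠ c there is a point strictly between (m inclusive)
  have key : ∀ c m : ℝ, g c ∈ S → m ≠ c → ∃ l ∈ uIcc m c, l ≠ c ∧ g l ∈ S := by
    intro c m hc hmc
    rcases lt_trichotomy (g m) (g c) with h | h | h
    · obtain ⟨⟨s, hs, h1, h2⟩, -⟩ := hS (g c) hc (g c - g m) (by linarith)
      obtain ⟨l, hl, hls⟩ := hg.exists_eq (a := m) (b := c) (s := s)
        (by rw [uIcc_of_le h.le]; exact ⟨by linarith, h2.le⟩)
      refine ⟨l, hl, ?_, by rw [hls]; exact hs⟩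
      rintro rfl
      linarith
    · exact ⟨m, left_mem_uIcc, hmc, by rw [h]; exact hc⟩
    · obtain ⟨-, ⟨s, hs, h1, h2⟩⟩ := hS (g c) hc (g m - g c) (by linarith)
      obtain ⟨l, hl, hls⟩ := hg.exists_eq (a := m) (b := c) (s := s)
        (by rw [uIcc_of_ge h.le]; exact ⟨h1.le, by linarith⟩)
      refine ⟨l, hl, ?_, by rw [hls]; exact hs⟩
      rintro rfl
      linarith
  intro c hc ε hε
  constructor
  · obtain ⟨l, hl, hlc, hlS⟩ := key c (c - ε / 2) hc (by linarith)
    rw [uIcc_of_le (by linarith)] at hl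
    exact ⟨l, hlS, by linarith [hl.1], lt_of_le_of_ne hl.2 hlc⟩
  · obtain ⟨l, hl, hlc, hlS⟩ := key c (c + ε / 2) hc (by linarith)
    rw [uIcc_of_ge (by linarith)] at hl
    exact ⟨l, hlS, lt_of_le_of_ne hl.1 (Ne.symm hlc), by linarith [hl.2]⟩

theorem BDI_ball (z ε : ℝ) : BDI (Metric.ball z ε) := by
  intro c hc δ hδ
  rw [Metric.mem_ball, Real.dist_eq, abs_lt] at hc
  constructor
  · refine ⟨max (c - δ / 2) ((c + (z - ε)) / 2), ?_, ?_, ?_⟩
    · rw [Metric.mem_ball, Real.dist_eq, abs_lt]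
      constructor
      · have := le_max_right (c - δ / 2) ((c + (z - ε)) / 2)
        linarith
      · have : max (c - δ / 2) ((c + (z - ε)) / 2) < c := max_lt (by linarith) (by linarith)
        linarith
    · exact lt_of_lt_of_le (by linarith) (le_max_left _ _)
    · exact max_lt (by linarith) (by linarith)
  · refine ⟨min (c + δ / 2) ((c + (z + ε)) / 2), ?_, ?_, ?_⟩
    · rw [Metric.mem_ball, Real.dist_eq, abs_lt]
      constructor
      · have : c < min (c + δ / 2) ((c + (z + ε)) / 2) := lt_min (by linarith) (by linarith)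
        linarith
      · have := min_le_right (c + δ / 2) ((c + (z + ε)) / 2)
        linarith
    · exact lt_min (by linarith) (by linarith)
    · exact lt_of_le_of_lt (min_le_left _ _) (by linarith)

/-- The inductive structure: the space of chains, with last coordinate `v`. -/
structure Good (X : Type) [TopologicalSpace X] (v : X → ℝ) : Prop where
  polish : PolishSpace X
  conn : ∀ A : Set X, IsClopen A → A.Nonempty → A = univ
  cont : Continuous v
  basis : ∀ p : X, ∀ U ∈ 𝓝 p, ∃ O ∈ 𝓝 p, O ⊆ U ∧ OrdConnected (v '' O)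
  trap : ∀ S : Set ℝ, BDI S → ∀ p, v p ∈ S → ∀ U ∈ 𝓝 p,
    ∃ W, IsOpen W ∧ p ∈ W ∧ closure W ⊆ U ∧ ∀ e ∈ closure W, e ∉ W → v e ∈ S

theorem key {X : Type} [TopologicalSpace X] {v : X → ℝ} (h : Good X v) {g : ℝ → ℝ}
    (hD : Darboux g) (A : Set X) (p : X) (hpA : p ∈ A) (hpB : p ∈ closure Aᶜ)
    (U : Set X) (hU : U ∈ 𝓝 p) (ε : ℝ) (hε : 0 < ε)
    (hUA : ∀ y ∈ U, |g (v y) - g (v p)| < ε → y ∈ A)
    (hUF : ∀ y ∈ U, y ∈ closure A → y ∈ closure Aᶜ → |g (v y) - g (v p)| < ε) : False := by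
  set S : Set ℝ := g ⁻¹' Metric.ball (g (v p)) ε with hSdef
  have hS : BDI S := BDI.preimage hD (BDI_ball _ _)
  have hmemS : ∀ c, c ∈ S ↔ |g c - g (v p)| < ε := by
    intro c
    rw [hSdef, mem_preimage, Metric.mem_ball, Real.dist_eq]
  have hpS : v p ∈ S := by
    rw [hmemS]; simpa using hε
  obtain ⟨W, hWo, hpW, hWU, hWS⟩ := h.trap S hS p hpS U hU
  obtain ⟨b, hbW, hbA⟩ : ∃ b ∈ W, b ∉ A := by
    rw [mem_closure_iff] at hpB
    obtain ⟨b, hb1, hb2⟩ := hpB W hWo hpW
    exact ⟨b, hb1, hb2⟩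
  have hWU' : W ⊆ U := subset_closure.trans hWU
  have hbS : v b ∉ S := fun hb => hbA (hUA b (hWU' hbW) ((hmemS _).1 hb))
  set G : Set ℝ := {c | ∀ c' ∈ uIcc c (v b), c' ∉ S} with hG
  have hGcl : IsClosed G := by
    apply isClosed_of_closure_subset
    intro c hc c' hc' hc'S
    rw [mem_closure_iff] at hc
    have hne : c' ≠ v b := fun h => hbS (h ▸ hc'S)
    rcases le_total c (v b) with hle | hle
    · rw [uIcc_of_le hle] at hc'
      have hlt : c' < v b := lt_of_le_of_ne hc'.2 hne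
      obtain ⟨-, ⟨r, hrS, hr1, hr2⟩⟩ := hS c' hc'S (v b - c') (by linarith)
      obtain ⟨d, hd1, hd2⟩ := hc (Iio r) isOpen_Iio (lt_of_le_of_lt hc'.1 hr1)
      have hd1' : d < r := hd1
      exact hd2 r (by rw [uIcc_of_le (by linarith)]; exact ⟨hd1'.le, by linarith⟩) hrS
    · rw [uIcc_of_ge hle] at hc'
      have hlt : v b < c' := lt_of_le_of_ne hc'.1 (Ne.symm hne)
      obtain ⟨⟨r, hrS, hr1, hr2⟩, -⟩ := hS c' hc'S (c' - v b) (by linarith)
      obtain ⟨d, hd1, hd2⟩ := hc (Ioi r) isOpen_Ioi (lt_of_lt_of_le hr2 hc'.2)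
      have hd1' : r < d := hd1
      exact hd2 r (by rw [uIcc_of_ge (by linarith)]; exact ⟨by linarith, hd1'.le⟩) hrS
  set E : Set X := {x | x ∈ W ∧ x ∉ A ∧ v x ∈ G} with hE
  have hEopen : IsOpen E := by
    rw [isOpen_iff_mem_nhds]
    rintro e ⟨heW, heA, heG⟩
    have hecl : e ∉ closure A := by
      intro hcl
      have h1 := hUF e (hWU' heW) hcl (subset_closure heA)
      exact heA (hUA e (hWU' heW) h1)
    have hnb : W ∩ (closure A)ᶜ ∈ 𝓝 e :=
      inter_mem (hWo.mem_nhds heW) (isClosed_closure.isOpen_compl.mem_nhds hecl)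
    obtain ⟨O, hO, hOsub, hOc⟩ := h.basis e _ hnb
    refine mem_of_superset hO ?_
    intro x hx
    have hxW := (hOsub hx).1
    have hxA : x ∉ A := fun hxA => (hOsub hx).2 (subset_closure hxA)
    refine ⟨hxW, hxA, ?_⟩
    intro c hc hcS
    rcases uIcc_subset_uIcc_union_uIcc (b := v e) hc with hc | hc
    · have heO : e ∈ O := mem_of_mem_nhds hO
      obtain ⟨y, hyO, hyc⟩ :=
        hOc.uIcc_subset (mem_image_of_mem v hx) (mem_image_of_mem v heO) hc
      have hyW := (hOsub hyO).1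
      have hyA : y ∉ A := fun hyA => (hOsub hyO).2 (subset_closure hyA)
      rw [← hyc] at hcS
      exact hyA (hUA y (hWU' hyW) ((hmemS _).1 hcS))
    · exact heG c hc hcS
  have hEclosed : IsClosed E := by
    apply isClosed_of_closure_subset
    intro e he
    have heclW : e ∈ closure W := closure_mono (fun x hx => hx.1) he
    have heU : e ∈ U := hWU heclW
    have heG : v e ∈ G := by
      have h1 : v e ∈ closure G := by
        apply closure_mono (s := v '' E) _ (image_closure_subset_closure_image h.cont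
          (mem_image_of_mem v he))
        rintro _ ⟨x, hx, rfl⟩
        exact hx.2.2
      exact hGcl.closure_subset h1
    have heS : v e ∉ S := heG (v e) left_mem_uIcc
    have hecB : e ∈ closure Aᶜ := closure_mono (fun x hx => hx.2.1) he
    have heA : e ∉ A := by
      intro heA
      exact heS ((hmemS _).2 (hUF e heU (subset_closure heA) hecB))
    have heW : e ∈ W := by
      by_contra hcon
      exact heS (hWS e heclW hcon)
    exact ⟨heW, heA, heG⟩
  have hbE : b ∈ E := by
    refine ⟨hbW, hbA, ?_⟩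
    intro c hc
    rw [uIcc_self, mem_singleton_iff] at hc
    rw [hc]; exact hbS
  have := h.conn E ⟨hEclosed, hEopen⟩ ⟨b, hbE⟩
  have hpE : p ∈ E := by rw [this]; trivial
  exact hpE.2.1 hpA

/-- Baire: a Baire one function restricted to a nonempty closed set has a continuity point. -/
theorem exists_cont {X : Type*} [TopologicalSpace X] [PolishSpace X] {φ : X → ℝ}
    (hφ : Baire1 φ) {D : Set X} (hD : IsClosed D) (hne : D.Nonempty) :
    ∃ p ∈ D, ∀ ε : ℝ, 0 < ε → ∃ U ∈ 𝓝 p, ∀ y ∈ U, y ∈ D → |φ y - φ p| < ε := by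
  obtain ⟨u, hu, hlim⟩ := hφ
  have : PolishSpace D := hD.polishSpace
  have : Nonempty D := hne.to_subtype
  have : BaireSpace D := inferInstance
  let F : ℕ → ℕ → Set D := fun m N =>
    {x | ∀ j, N ≤ j → |u j x.1 - u N x.1| ≤ 1 / ((m : ℝ) + 1)}
  have hF : ∀ m N, IsClosed (F m N) := by
    intro m N
    have : F m N = ⋂ j, ⋂ (_ : N ≤ j), {x : D | |u j x.1 - u N x.1| ≤ 1 / ((m : ℝ) + 1)} := by
      ext x; simp [F]
    rw [this]
    refine isClosed_iInter fun j => isClosed_iInter fun _ => ?_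
    exact isClosed_le ((((hu j).comp continuous_subtype_val).sub
      ((hu N).comp continuous_subtype_val)).abs) continuous_const
  have hcov : ∀ m, ⋃ N, F m N = univ := by
    intro m
    rw [eq_univ_iff_forall]
    intro x
    have hc := (hlim x.1).cauchySeq
    rw [Metric.cauchySeq_iff'] at hc
    obtain ⟨N, hN⟩ := hc (1 / ((m : ℝ) + 1)) (by positivity)
    refine mem_iUnion.2 ⟨N, fun j hj => ?_⟩
    have := hN j hj
    rw [Real.dist_eq] at this
    exact this.le
  have hdense : ∀ m, Dense (⋃ N, interior (F m N)) := fun m =>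
    dense_iUnion_interior_of_closed (hF m) (hcov m)
  have hopen : ∀ m, IsOpen (⋃ N, interior (F m N)) := fun m =>
    isOpen_iUnion fun N => isOpen_interior
  obtain ⟨p, hp⟩ := (dense_iInter_of_isOpen_nat hopen hdense).nonempty
  rw [mem_iInter] at hp
  refine ⟨p.1, p.2, ?_⟩
  intro ε hε
  obtain ⟨m, hm⟩ := exists_nat_one_div_lt (show (0 : ℝ) < ε / 4 by positivity)
  obtain ⟨N, hN⟩ := mem_iUnion.1 (hp m)
  have hlimF : ∀ x : D, x ∈ F m N → |φ x.1 - u N x.1| ≤ ε / 4 := by
    intro x hx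
    have h1 : Tendsto (fun j => |u j x.1 - u N x.1|) atTop (𝓝 |φ x.1 - u N x.1|) :=
      ((hlim x.1).sub_const _).abs
    refine le_of_tendsto h1 ?_
    filter_upwards [eventually_ge_atTop N] with j hj
    exact (hx j hj).trans hm.le
  have h1 : interior (F m N) ∈ 𝓝 p := isOpen_interior.mem_nhds hN
  have h2 : {y : D | |u N y.1 - u N p.1| < ε / 4} ∈ 𝓝 p := by
    have hc : Continuous fun y : D => |u N y.1 - u N p.1| :=
      (((hu N).comp continuous_subtype_val).sub continuous_const).abs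
    exact (isOpen_lt hc continuous_const).mem_nhds (by simpa using (by positivity : (0:ℝ) < ε / 4))
  have h3 := inter_mem h1 h2
  rw [mem_nhds_subtype] at h3
  obtain ⟨U, hU, hUsub⟩ := h3
  refine ⟨U, hU, ?_⟩
  intro y hyU hyD
  have hy := hUsub (show (⟨y, hyD⟩ : D) ∈ Subtype.val ⁻¹' U from hyU)
  have e1 := hlimF ⟨y, hyD⟩ (interior_subset hy.1)
  have e2 := hlimF p (interior_subset hN)
  have e3 : |u N y - u N p.1| < ε / 4 := hy.2
  calc |φ y - φ p.1| = |(φ y - u N y) + (u N y - u N p.1) - (φ p.1 - u N p.1)| := by ring_nf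
    _ ≤ |φ y - u N y| + |u N y - u N p.1| + |φ p.1 - u N p.1| := by
        exact (abs_sub _ _).trans (by gcongr; exact abs_add_le _ _)
    _ < ε := by
        have e1' : |φ y - u N y| ≤ ε / 4 := e1
        linarith

/-- A `Gδ` subset of a Polish space is Polish. -/
theorem polish_of_isGdelta {X : Type} [TopologicalSpace X] [PolishSpace X] {s : Set X}
    (hs : IsGδ s) : PolishSpace s := by
  obtain ⟨V, hVo, hV⟩ : ∃ V : ℕ → Set X, (∀ n, IsOpen (V n)) ∧ s = ⋂ n, V n := hs.eq_iInter_nat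
  have : ∀ n, PolishSpace (V n) := fun n => (hVo n).polishSpace
  have hmem : ∀ (x : s) (n : ℕ), x.1 ∈ V n := by
    intro x n
    exact mem_iInter.1 (hV.subset x.2) n
  let f : s → (∀ n, V n) := fun x n => ⟨x.1, hmem x n⟩
  have hf : IsClosedEmbedding f := by
    refine ⟨⟨?_, ?_⟩, ?_⟩
    · -- inducing
      apply Topology.IsInducing.of_comp (g := fun q : (∀ n, V n) => ((q 0 : V 0) : X))
      · exact continuous_pi fun n => continuous_subtype_val.subtype_mk _
      · exact continuous_subtype_val.comp (continuous_apply 0)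
      · exact Topology.IsInducing.subtypeVal
    · intro x y hxy
      have := congrArg (fun q : (∀ n, V n) => ((q 0 : V 0) : X)) hxy
      exact Subtype.ext this
    · have : range f = ⋂ n, {q : (∀ n, V n) | ((q n : V n) : X) = ((q 0 : V 0) : X)} := by
        ext q
        constructor
        · rintro ⟨x, rfl⟩
          exact mem_iInter.2 fun n => rfl
        · intro hq
          rw [mem_iInter] at hq
          have hq0 : ((q 0 : V 0) : X) ∈ s := by
            rw [hV, mem_iInter]
            intro n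
            have := hq n
            have h2 : ((q n : V n) : X) = ((q 0 : V 0) : X) := this
            rw [← h2]
            exact (q n).2
          refine ⟨⟨_, hq0⟩, ?_⟩
          funext n
          apply Subtype.ext
          exact (hq n).symm
      rw [this]
      refine isClosed_iInter fun n => ?_
      exact isClosed_eq (continuous_subtype_val.comp (continuous_apply n))
        (continuous_subtype_val.comp (continuous_apply 0))
  exact hf.polishSpace

theorem isGdelta_graph {X : Type} [TopologicalSpace X] {v : X → ℝ} (hv : Continuous v)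
    {g : ℝ → ℝ} (hB : Baire1 g) : IsGδ {q : X × ℝ | q.2 = g (v q.1)} := by
  obtain ⟨u, hu, hlim⟩ := hB
  have : {q : X × ℝ | q.2 = g (v q.1)} =
      ⋂ m : ℕ, ⋃ j : ℕ, ⋃ (_ : m ≤ j), {q : X × ℝ | |u j (v q.1) - q.2| < 1 / ((m : ℝ) + 1)} := by
    ext q
    simp only [mem_iInter, mem_iUnion, exists_prop]
    constructor
    · intro hq m
      have hq' : q.2 = g (v q.1) := hq
      have h1 := hlim (v q.1)
      rw [Metric.tendsto_atTop] at h1
      obtain ⟨N, hN⟩ := h1 (1 / ((m : ℝ) + 1)) (by positivity)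
      refine ⟨max m N, le_max_left _ _, ?_⟩
      have := hN (max m N) (le_max_right _ _)
      rw [Real.dist_eq, ← hq'] at this
      exact this
    · intro hq
      change q.2 = g (v q.1)
      refine eq_of_forall_dist_le fun ε hε => ?_
      have h1 := hlim (v q.1)
      rw [Metric.tendsto_atTop] at h1
      obtain ⟨N, hN⟩ := h1 (ε / 2) (by positivity)
      obtain ⟨m, hm⟩ := exists_nat_one_div_lt (show (0 : ℝ) < ε / 2 by positivity)
      obtain ⟨j, hj, hjq⟩ := hq (max m N)
      have h2 := hN j (le_trans (le_max_right _ _) hj)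
      have h3 : |u j (v q.1) - q.2| < ε / 2 := by
        have h4 : |u j (v q.1) - q.2| < 1 / (((max m N : ℕ) : ℝ) + 1) := hjq
        have h5 : 1 / (((max m N : ℕ) : ℝ) + 1) ≤ 1 / ((m : ℝ) + 1) := by
          apply one_div_le_one_div_of_le (by positivity)
          have : (m : ℝ) ≤ ((max m N : ℕ) : ℝ) := by exact_mod_cast le_max_left m N
          linarith
        linarith
      rw [Real.dist_eq] at h2 ⊢
      calc |q.2 - g (v q.1)| = |(u j (v q.1) - g (v q.1)) - (u j (v q.1) - q.2)| := by ring_nf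
        _ ≤ |u j (v q.1) - g (v q.1)| + |u j (v q.1) - q.2| := abs_sub _ _
        _ ≤ ε := by linarith
  rw [this]
  refine IsGδ.iInter_of_isOpen fun m => isOpen_iUnion fun j => isOpen_iUnion fun _ => ?_
  exact isOpen_lt ((((hu j).comp (hv.comp continuous_fst)).sub continuous_snd).abs)
    continuous_const

theorem Good.step {X : Type} [TopologicalSpace X] {v : X → ℝ} (h : Good X v) {g : ℝ → ℝ}
    (hD : Darboux g) (hB : Baire1 g) :
    Good {q : X × ℝ // q.2 = g (v q.1)} (fun q => q.1.2) := by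
  have hpol := h.polish
  -- local description of neighbourhoods
  have hnb : ∀ (p : {q : X × ℝ // q.2 = g (v q.1)}), ∀ U ∈ 𝓝 p, ∃ V ∈ 𝓝 p.1.1, ∃ ε : ℝ, 0 < ε ∧
      ∀ q : {q : X × ℝ // q.2 = g (v q.1)}, q.1.1 ∈ V → |q.1.2 - p.1.2| < ε → q ∈ U := by
    intro p U hU
    obtain ⟨T, hT, hTU⟩ := (mem_nhds_induced Subtype.val p U).1 hU
    have hT' : T ∈ 𝓝 (p.1.1, p.1.2) := hT
    rw [mem_nhds_prod_iff] at hT'
    obtain ⟨V, hV, T2, hT2, hsub⟩ := hT'
    rw [Metric.mem_nhds_iff] at hT2
    obtain ⟨ε, hε, hball⟩ := hT2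
    refine ⟨V, hV, ε, hε, ?_⟩
    intro q hq1 hq2
    apply hTU
    change q.1 ∈ T
    apply hsub
    refine ⟨hq1, hball ?_⟩
    rw [Metric.mem_ball, Real.dist_eq]
    exact hq2
  refine ⟨polish_of_isGdelta (isGdelta_graph h.cont hB), ?_, ?_, ?_, ?_⟩
  · -- connectedness
    intro A' hA' hne'
    by_contra hcon
    let mk : X → {q : X × ℝ // q.2 = g (v q.1)} := fun x => ⟨(x, g (v x)), rfl⟩
    have hmk : ∀ q : {q : X × ℝ // q.2 = g (v q.1)}, mk q.1.1 = q := by
      intro q
      apply Subtype.ext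
      exact Prod.ext rfl q.2.symm
    set A : Set X := {x | mk x ∈ A'} with hA
    have hloc : ∀ (O : Set {q : X × ℝ // q.2 = g (v q.1)}), IsOpen O → ∀ x, mk x ∈ O →
        ∃ V ∈ 𝓝 x, ∃ ε : ℝ, 0 < ε ∧ ∀ y ∈ V, |g (v y) - g (v x)| < ε → mk y ∈ O := by
      intro O hO x hx
      obtain ⟨V, hV, ε, hε, hsub⟩ := hnb (mk x) O (hO.mem_nhds hx)
      exact ⟨V, hV, ε, hε, fun y hy hy2 => hsub (mk y) hy hy2⟩
    have hAne : A.Nonempty := by
      obtain ⟨q, hq⟩ := hne'
      exact ⟨q.1.1, by rw [hA, mem_ofPred_eq, hmk]; exact hq⟩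
    have hAu : A ≠ univ := by
      intro hAu
      apply hcon
      rw [eq_univ_iff_forall]
      intro q
      have : q.1.1 ∈ A := by rw [hAu]; trivial
      rw [hA, mem_ofPred_eq, hmk] at this
      exact this
    have hfr : (frontier A).Nonempty := by
      rw [nonempty_iff_ne_empty]
      intro hf
      exact hAu (h.conn A (isClopen_iff_frontier_eq_empty.2 hf) hAne)
    have hφ : Baire1 (fun x => g (v x)) := by
      obtain ⟨u, hu, hlim⟩ := hB
      exact ⟨fun n x => u n (v x), fun n => (hu n).comp h.cont, fun x => hlim (v x)⟩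
    obtain ⟨p, hpF, hpc⟩ := exists_cont hφ isClosed_frontier hfr
    rw [frontier_eq_closure_inter_closure] at hpF
    by_cases hpA : p ∈ A
    · obtain ⟨V, hV, ε, hε, hsub⟩ := hloc A' hA'.isOpen p hpA
      obtain ⟨U, hU, hUc⟩ := hpc ε hε
      refine key h hD A p hpA hpF.2 (V ∩ U) (inter_mem hV hU) ε hε ?_ ?_
      · exact fun y hy hy2 => hsub y hy.1 hy2
      · intro y hy h1 h2
        exact hUc y hy.2 (by rw [frontier_eq_closure_inter_closure]; exact ⟨h1, h2⟩)
    · obtain ⟨V, hV, ε, hε, hsub⟩ := hloc A'ᶜ hA'.compl.isOpen p hpA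
      obtain ⟨U, hU, hUc⟩ := hpc ε hε
      refine key h hD Aᶜ p hpA (by rw [compl_compl]; exact hpF.1) (V ∩ U) (inter_mem hV hU)
        ε hε ?_ ?_
      · exact fun y hy hy2 => hsub y hy.1 hy2
      · intro y hy h1 h2
        rw [compl_compl] at h2
        exact hUc y hy.2 (by rw [frontier_eq_closure_inter_closure]; exact ⟨h2, h1⟩)
  · exact continuous_snd.comp continuous_subtype_val
  · -- basis
    intro p U hU
    obtain ⟨V, hV, ε, hε, hsub⟩ := hnb p U hU
    obtain ⟨O, hO, hOV, hOc⟩ := h.basis p.1.1 V hV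
    refine ⟨{q | q.1.1 ∈ O ∧ |q.1.2 - p.1.2| < ε}, ?_, ?_, ?_⟩
    · apply inter_mem
      · exact (continuous_fst.comp continuous_subtype_val).continuousAt.preimage_mem_nhds hO
      · have hc : Continuous fun q : {q : X × ℝ // q.2 = g (v q.1)} => |q.1.2 - p.1.2| :=
          ((continuous_snd.comp continuous_subtype_val).sub continuous_const).abs
        exact (isOpen_lt hc continuous_const).mem_nhds (by simpa using hε)
    · intro q hq
      exact hsub q (hOV hq.1) hq.2
    · have : (fun q : {q : X × ℝ // q.2 = g (v q.1)} => q.1.2) ''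
          {q | q.1.1 ∈ O ∧ |q.1.2 - p.1.2| < ε} = (g '' (v '' O)) ∩ Metric.ball p.1.2 ε := by
        ext z
        constructor
        · rintro ⟨q, ⟨h1, h2⟩, rfl⟩
          refine ⟨⟨v q.1.1, ⟨q.1.1, h1, rfl⟩, q.2.symm⟩, ?_⟩
          rw [Metric.mem_ball, Real.dist_eq]
          exact h2
        · rintro ⟨⟨_, ⟨x, hx, rfl⟩, rfl⟩, h2⟩
          rw [Metric.mem_ball, Real.dist_eq] at h2
          exact ⟨⟨(x, g (v x)), rfl⟩, ⟨hx, h2⟩, rfl⟩
      rw [this, Real.ball_eq_Ioo]
      exact (hD _ hOc).inter ordConnected_Ioo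
  · -- trap
    intro S hS p hpS U hU
    obtain ⟨V, hV, ε, hε, hsub⟩ := hnb p U hU
    have hpS' : v p.1.1 ∈ g ⁻¹' S := by
      rw [mem_preimage, ← p.2]; exact hpS
    obtain ⟨W, hWo, hpW, hWV, hWS⟩ := h.trap (g ⁻¹' S) (hS.preimage hD) p.1.1 hpS' V hV
    obtain ⟨⟨l, hlS, hl1, hl2⟩, ⟨r, hrS, hr1, hr2⟩⟩ := hS p.1.2 hpS ε hε
    have hc1 : Continuous fun q : {q : X × ℝ // q.2 = g (v q.1)} => q.1.1 :=
      continuous_fst.comp continuous_subtype_val
    have hc2 : Continuous fun q : {q : X × ℝ // q.2 = g (v q.1)} => q.1.2 :=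
      continuous_snd.comp continuous_subtype_val
    set W' : Set {q : X × ℝ // q.2 = g (v q.1)} :=
      {q | q.1.1 ∈ W ∧ l < q.1.2 ∧ q.1.2 < r} with hW'
    have hcl : ∀ e ∈ closure W', e.1.1 ∈ closure W ∧ l ≤ e.1.2 ∧ e.1.2 ≤ r := by
      intro e he
      refine ⟨?_, ?_, ?_⟩
      · have := image_closure_subset_closure_image hc1 (mem_image_of_mem _ he)
        refine closure_mono ?_ this
        rintro _ ⟨q, hq, rfl⟩
        exact hq.1
      · have : closure W' ⊆ {q | l ≤ q.1.2} :=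
          closure_minimal (fun q hq => hq.2.1.le) (isClosed_le continuous_const hc2)
        exact this he
      · have : closure W' ⊆ {q | q.1.2 ≤ r} :=
          closure_minimal (fun q hq => hq.2.2.le) (isClosed_le hc2 continuous_const)
        exact this he
    refine ⟨W', ?_, ⟨hpW, hl2, hr1⟩, ?_, ?_⟩
    · exact (hWo.preimage hc1).inter ((isOpen_lt continuous_const hc2).inter
        (isOpen_lt hc2 continuous_const))
    · intro e he
      obtain ⟨h1, h2, h3⟩ := hcl e he
      refine hsub e (hWV h1) ?_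
      rw [abs_lt]
      constructor <;> linarith
    · intro e he heW
      obtain ⟨h1, h2, h3⟩ := hcl e he
      by_cases hW2 : e.1.1 ∈ W
      · rcases eq_or_lt_of_le h2 with h4 | h4
        · rw [← h4]; exact hlS
        · rcases eq_or_lt_of_le h3 with h5 | h5
          · rw [h5]; exact hrS
          · exact absurd ⟨hW2, h4, h5⟩ heW
      · have h6 : g (v e.1.1) ∈ S := hWS e.1.1 h1 hW2
        change e.1.2 ∈ S
        rw [e.2]; exact h6

theorem good_base : Good ℝ (fun x => x) := by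
  refine ⟨inferInstance, ?_, continuous_id, ?_, ?_⟩
  · intro A hA hne
    rcases isClopen_iff.1 hA with h | h
    · exact absurd h hne.ne_empty
    · exact h
  · intro p U hU
    obtain ⟨ε, hε, hsub⟩ := Metric.mem_nhds_iff.1 hU
    refine ⟨Metric.ball p ε, Metric.ball_mem_nhds p hε, hsub, ?_⟩
    rw [image_id', Real.ball_eq_Ioo]
    exact ordConnected_Ioo
  · intro S hS p hp U hU
    obtain ⟨ε, hε, hsub⟩ := Metric.mem_nhds_iff.1 hU
    obtain ⟨⟨l, hlS, hl1, hl2⟩, ⟨r, hrS, hr1, hr2⟩⟩ := hS p hp ε hε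
    have hcl : closure (Ioo l r) ⊆ Icc l r := closure_minimal Ioo_subset_Icc_self isClosed_Icc
    refine ⟨Ioo l r, isOpen_Ioo, ⟨hl2, hr1⟩, ?_, ?_⟩
    · intro e he
      have := hcl he
      apply hsub
      rw [Real.ball_eq_Ioo]
      exact ⟨by linarith [this.1], by linarith [this.2]⟩
    · intro e he heW
      have h1 := hcl he
      rcases eq_or_lt_of_le h1.1 with h4 | h4
      · rw [← h4]; exact hlS
      · rcases eq_or_lt_of_le h1.2 with h5 | h5
        · rw [h5]; exact hrS
        · exact absurd ⟨h4, h5⟩ heW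

theorem chain (L : List (ℝ → ℝ)) (hL : ∀ g ∈ L, Darboux g ∧ Baire1 g) :
    ∃ (X : Type) (_ : TopologicalSpace X) (v u : X → ℝ), Good X v ∧ Continuous u ∧
      Function.Surjective u ∧ ∀ x, v x = (L.foldr (fun g h => g ∘ h) id) (u x) := by
  induction L with
  | nil =>
    exact ⟨ℝ, inferInstance, fun x => x, fun x => x, good_base, continuous_id,
      Function.surjective_id, fun x => rfl⟩
  | cons g L ih =>
    obtain ⟨X, tX, v, u, hgood, hu, hsurj, hv⟩ := ih (fun g' hg' => hL g' (List.mem_cons_of_mem _ hg'))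
    obtain ⟨hD, hB⟩ := hL g List.mem_cons_self
    refine ⟨{q : X × ℝ // q.2 = g (v q.1)}, inferInstance, fun q => q.1.2, fun q => u q.1.1,
      hgood.step hD hB, hu.comp (continuous_fst.comp continuous_subtype_val), ?_, ?_⟩
    · intro y
      obtain ⟨x, hx⟩ := hsurj y
      exact ⟨⟨(x, g (v x)), rfl⟩, hx⟩
    · intro q
      change q.1.2 = g ((L.foldr (fun g h => g ∘ h) id) (u q.1.1))
      rw [← hv, ← q.2]

/-- Any finite composition of Darboux Baire one functions has a connected graph. -/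
theorem graph_connected (L : List (ℝ → ℝ)) (hL : ∀ g ∈ L, Darboux g ∧ Baire1 g) :
    IsPreconnected (range fun x : ℝ => (x, (L.foldr (fun g h => g ∘ h) id) x)) := by
  obtain ⟨X, tX, v, u, hgood, hu, hsurj, hv⟩ := chain L hL
  have : PreconnectedSpace X := by
    rw [preconnectedSpace_iff_clopen]
    intro s hs
    by_cases hne : s.Nonempty
    · exact Or.inr (hgood.conn s hs hne)
    · exact Or.inl (not_nonempty_iff_eq_empty.1 hne)
  have h1 : IsPreconnected (range fun x : X => (u x, v x)) :=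
    isPreconnected_range (hu.prodMk hgood.cont)
  have h2 : (range fun x : X => (u x, v x)) =
      range fun x : ℝ => (x, (L.foldr (fun g h => g ∘ h) id) x) := by
    ext q
    constructor
    · rintro ⟨x, rfl⟩
      exact ⟨u x, by simp only [hv]⟩
    · rintro ⟨y, rfl⟩
      obtain ⟨x, hx⟩ := hsurj y
      exact ⟨x, by simp only [hv, hx]⟩
  rwa [← h2]

/-- the retraction of the line onto the unit interval -/
noncomputable def cl (x : ℝ) : ℝ := max 0 (min 1 x)

theorem cl_cont : Continuous cl := continuous_const.max (continuous_const.min continuous_id)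

theorem cl_mem (x : ℝ) : cl x ∈ Icc (0 : ℝ) 1 :=
  ⟨le_max_left _ _, max_le zero_le_one (min_le_left _ _)⟩

theorem cl_of_mem {x : ℝ} (hx : x ∈ Icc (0 : ℝ) 1) : cl x = x := by
  unfold cl
  rw [min_eq_right hx.2, max_eq_right hx.1]

theorem darboux_of_deriv {g F : ℝ → ℝ}
    (hF : ∀ x ∈ Icc (0 : ℝ) 1, HasDerivWithinAt F (g x) (Icc (0 : ℝ) 1) x) :
    Darboux (g ∘ cl) := by
  intro S hS
  rw [image_comp]
  have h1 : OrdConnected (cl '' S) := (hS.isPreconnected.image cl cl_cont.continuousOn).ordConnected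
  have hsub : cl '' S ⊆ Icc (0 : ℝ) 1 := by
    rintro _ ⟨x, -, rfl⟩
    exact cl_mem x
  exact h1.image_hasDerivWithinAt fun x hx => (hF x (hsub hx)).mono hsub

theorem baire1_of_deriv {g F : ℝ → ℝ}
    (hF : ∀ x ∈ Icc (0 : ℝ) 1, HasDerivWithinAt F (g x) (Icc (0 : ℝ) 1) x) :
    Baire1 (g ∘ cl) := by
  let a : ℕ → ℝ → ℝ := fun n x => max 0 (cl x - 1 / ((n : ℝ) + 1))
  let b : ℕ → ℝ → ℝ := fun n x => min 1 (cl x + 1 / ((n : ℝ) + 1))
  have hpos : ∀ n : ℕ, (0 : ℝ) < 1 / ((n : ℝ) + 1) := fun n => by positivity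
  have hale : ∀ n x, a n x ≤ cl x := fun n x =>
    max_le (cl_mem x).1 (by linarith [hpos n])
  have hble : ∀ n x, cl x ≤ b n x := fun n x =>
    le_min (cl_mem x).2 (by linarith [hpos n])
  have ham : ∀ n x, a n x ∈ Icc (0 : ℝ) 1 := fun n x =>
    ⟨le_max_left _ _, (hale n x).trans (cl_mem x).2⟩
  have hbm : ∀ n x, b n x ∈ Icc (0 : ℝ) 1 := fun n x =>
    ⟨(cl_mem x).1.trans (hble n x), min_le_left _ _⟩
  have hlt : ∀ n x, a n x < b n x := by
    intro n x
    have h1 := (cl_mem x).1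
    have h2 := (cl_mem x).2
    have h3 := hpos n
    exact max_lt (lt_min (by norm_num) (by linarith)) (lt_min (by linarith) (by linarith))
  have hac : ∀ n, Continuous (a n) := fun n => continuous_const.max (cl_cont.sub continuous_const)
  have hbc : ∀ n, Continuous (b n) := fun n => continuous_const.min (cl_cont.add continuous_const)
  have hFc : ContinuousOn F (Icc (0 : ℝ) 1) := fun x hx => (hF x hx).continuousWithinAt
  refine ⟨fun n x => (F (b n x) - F (a n x)) / (b n x - a n x), ?_, ?_⟩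
  · intro n
    refine Continuous.div ?_ ?_ ?_
    · exact (hFc.comp_continuous (hbc n) (hbm n)).sub (hFc.comp_continuous (hac n) (ham n))
    · exact (hbc n).sub (hac n)
    · intro x
      have := hlt n x
      intro h
      linarith
  · intro x
    rw [Metric.tendsto_atTop]
    intro ε hε
    have hy := cl_mem x
    have hd := hF (cl x) hy
    rw [hasDerivWithinAt_iff_isLittleO] at hd
    have hd2 := hd.def (show (0 : ℝ) < ε / 2 by positivity)
    rw [eventually_iff, mem_nhdsWithin] at hd2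
    obtain ⟨T, hTo, hxT, hTsub⟩ := hd2
    obtain ⟨δ, hδ, hball⟩ := Metric.isOpen_iff.1 hTo (cl x) hxT
    obtain ⟨N, hN⟩ := exists_nat_one_div_lt hδ
    refine ⟨N, fun n hn => ?_⟩
    have hnN : 1 / ((n : ℝ) + 1) ≤ 1 / ((N : ℝ) + 1) := by
      apply one_div_le_one_div_of_le (by positivity)
      have : (N : ℝ) ≤ n := by exact_mod_cast hn
      linarith
    have h1 : a n x ∈ T ∩ Icc (0 : ℝ) 1 := by
      refine ⟨hball ?_, ham n x⟩
      rw [Metric.mem_ball, Real.dist_eq, abs_lt]
      have := hale n x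
      have h3 : cl x - 1 / ((n : ℝ) + 1) ≤ a n x := le_max_right _ _
      constructor <;> linarith
    have h2 : b n x ∈ T ∩ Icc (0 : ℝ) 1 := by
      refine ⟨hball ?_, hbm n x⟩
      rw [Metric.mem_ball, Real.dist_eq, abs_lt]
      have := hble n x
      have h3 : b n x ≤ cl x + 1 / ((n : ℝ) + 1) := min_le_right _ _
      constructor <;> linarith
    have e1 := hTsub h1
    have e2 := hTsub h2
    simp only [mem_ofPred_eq, Real.norm_eq_abs, smul_eq_mul] at e1 e2
    have hle1 := hale n x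
    have hle2 := hble n x
    rw [abs_of_nonpos (by linarith : a n x - cl x ≤ 0)] at e1
    rw [abs_of_nonneg (by linarith : 0 ≤ b n x - cl x)] at e2
    have hba : 0 < b n x - a n x := by linarith [hlt n x]
    rw [Real.dist_eq]
    have hkey : |F (b n x) - F (a n x) - (b n x - a n x) * g (cl x)| ≤
        ε / 2 * (b n x - a n x) := by
      calc |F (b n x) - F (a n x) - (b n x - a n x) * g (cl x)|
          = |(F (b n x) - F (cl x) - (b n x - cl x) * g (cl x)) -
              (F (a n x) - F (cl x) - (a n x - cl x) * g (cl x))| := by ring_nf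
        _ ≤ |F (b n x) - F (cl x) - (b n x - cl x) * g (cl x)| +
              |F (a n x) - F (cl x) - (a n x - cl x) * g (cl x)| := abs_sub _ _
        _ ≤ ε / 2 * (b n x - cl x) + ε / 2 * -(a n x - cl x) := by linarith
        _ = ε / 2 * (b n x - a n x) := by ring
    have heq : (F (b n x) - F (a n x)) / (b n x - a n x) - (g ∘ cl) x =
        (F (b n x) - F (a n x) - (b n x - a n x) * g (cl x)) / (b n x - a n x) := by
      rw [Function.comp_apply]
      field_simp
    rw [heq, abs_div, abs_of_pos hba, div_lt_iff₀ hba]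
    nlinarith

theorem main (l : List (ℝ → ℝ))
    (hl : ∀ g ∈ l, MapsTo g (Icc (0 : ℝ) 1) (Icc (0 : ℝ) 1) ∧
      ∃ F : ℝ → ℝ, ∀ x ∈ Icc (0 : ℝ) 1, HasDerivWithinAt F (g x) (Icc (0 : ℝ) 1) x) :
    IsConnected ((fun x : ℝ => (x, (l.foldr (fun g h => g ∘ h) id) x)) '' Icc (0 : ℝ) 1) := by
  have hcomp : ∀ l : List (ℝ → ℝ), (∀ g ∈ l, MapsTo g (Icc (0 : ℝ) 1) (Icc (0 : ℝ) 1)) →
      ∀ x, cl (((l.map (fun g => g ∘ cl)).foldr (fun g h => g ∘ h) id) x) =
        (l.foldr (fun g h => g ∘ h) id) (cl x) := by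
    intro l
    induction l with
    | nil => intro _ x; rfl
    | cons g l ih =>
      intro hg x
      have ih' := ih (fun g' hg' => hg g' (List.mem_cons_of_mem _ hg')) x
      simp only [List.map_cons, List.foldr_cons, Function.comp_apply]
      rw [ih']
      apply cl_of_mem
      apply hg g List.mem_cons_self
      rw [← ih']
      exact cl_mem _
  have h1 := graph_connected (l.map (fun g => g ∘ cl)) (by
    intro g hg
    rw [List.mem_map] at hg
    obtain ⟨g', hg', rfl⟩ := hg
    obtain ⟨-, F, hF⟩ := hl g' hg'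
    exact ⟨darboux_of_deriv hF, baire1_of_deriv hF⟩)
  have h2 := h1.image (fun q : ℝ × ℝ => (cl q.1, cl q.2))
    ((cl_cont.comp continuous_fst).prodMk (cl_cont.comp continuous_snd)).continuousOn
  refine ⟨⟨_, ⟨0, by simp, rfl⟩⟩, ?_⟩
  convert h2 using 1
  ext q
  constructor
  · rintro ⟨x, hx, rfl⟩
    refine ⟨_, ⟨x, rfl⟩, ?_⟩
    simp only
    rw [hcomp l (fun g hg => (hl g hg).1) x, cl_of_mem hx]
  · rintro ⟨_, ⟨x, rfl⟩, rfl⟩
    refine ⟨cl x, cl_mem x, ?_⟩
    simp only
    rw [hcomp l (fun g hg => (hl g hg).1) x]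

end H520R3.DB1
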