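import Mathlib

/-!
# Markov group conjecture, part I: smoothing for partially lazy chains
-/

set_option autoImplicit false
open Set Filter Topology BoundedContinuousFunction

namespace H520R3.MG

/-- bounded functions on the state space -/
abbrev F := ℕ →ᵇ ℝ

/-- a Markov operator acting on bounded functions -/
structure Kern (K : F →ₗ[ℝ] F) : Prop where
  pos : ∀ f : F, (∀ x, 0 ≤ f x) → ∀ x, 0 ≤ K f x
  one : ∀ x, K 1 x = 1

/-- a Markov operator that is lazy on `S` -/
structure Lazy (K : F →ₗ[ℝ] F) (S : Set ℕ) : Prop where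
  kern : Kern K
  lazy : ∀ f : F, (∀ x, 0 ≤ f x) → ∀ x ∈ S, f x / 2 ≤ K f x

theorem Kern.mono {K : F →ₗ[ℝ] F} (h : Kern K) {f g : F} (hfg : ∀ x, f x ≤ g x) (x : ℕ) :
    K f x ≤ K g x := by
  have := h.pos (g - f) (fun x => by simpa using hfg x) x
  rw [map_sub] at this
  simpa using this

theorem Kern.const {K : F →ₗ[ℝ] F} (h : Kern K) (c : ℝ) (x : ℕ) : K (c • (1 : F)) x = c := by
  rw [map_smul]
  simp [h.one x]

theorem Kern.le_const {K : F →ₗ[ℝ] F} (h : Kern K) {f : F} {c : ℝ} (hf : ∀ x, f x ≤ c) (x : ℕ) :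
    K f x ≤ c := by
  have := h.mono (f := f) (g := c • (1 : F)) (fun x => by simpa using hf x) x
  rwa [h.const] at this

theorem Kern.abs_le {K : F →ₗ[ℝ] F} (h : Kern K) {f g : F} (hfg : ∀ x, |f x| ≤ g x) (x : ℕ) :
    |K f x| ≤ K g x := by
  rw [abs_le']
  constructor
  · exact h.mono (fun x => (le_abs_self _).trans (hfg x)) x
  · have := h.mono (f := -f) (g := g) (fun x => by
      simpa using (neg_le_abs _).trans (hfg x)) x
    rw [map_neg] at this
    simpa using this

theorem Kern.abs_le_const {K : F →ₗ[ℝ] F} (h : Kern K) {f : F} {c : ℝ} (hf : ∀ x, |f x| ≤ c)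
    (x : ℕ) : |K f x| ≤ c := by
  have := h.abs_le (f := f) (g := c • (1 : F)) (fun x => by simpa using hf x) x
  rwa [h.const] at this

theorem Lazy.mono {K : F →ₗ[ℝ] F} {S : Set ℕ} (h : Lazy K S) {f g : F} (hfg : ∀ x, f x ≤ g x)
    {x : ℕ} (hx : x ∈ S) : K f x - f x / 2 ≤ K g x - g x / 2 := by
  have := h.lazy (g - f) (fun x => by simpa using hfg x) x hx
  rw [map_sub] at this
  simp only [BoundedContinuousFunction.coe_sub, Pi.sub_apply] at this
  linarith

theorem Lazy.abs_le {K : F →ₗ[ℝ] F} {S : Set ℕ} (h : Lazy K S) {f g : F}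
    (hfg : ∀ x, |f x| ≤ g x) {x : ℕ} (hx : x ∈ S) : |K f x - f x / 2| ≤ K g x - g x / 2 := by
  rw [abs_le']
  constructor
  · exact h.mono (fun x => (le_abs_self _).trans (hfg x)) hx
  · have := h.mono (f := -f) (g := g) (fun x => by
      simpa using (neg_le_abs _).trans (hfg x)) hx
    rw [map_neg] at this
    simp only [BoundedContinuousFunction.coe_neg, Pi.neg_apply] at this
    linarith

theorem Lazy.abs_le_const {K : F →ₗ[ℝ] F} {S : Set ℕ} (h : Lazy K S) {f : F} {c : ℝ}
    (hf : ∀ x, |f x| ≤ c) {x : ℕ} (hx : x ∈ S) : |K f x - f x / 2| ≤ c / 2 := by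
  have := h.abs_le (f := f) (g := c • (1 : F)) (fun x => by simpa using hf x) hx
  rw [h.kern.const] at this
  have e : (c • (1 : F)) x = c := by simp
  rw [e] at this
  linarith

open Classical in
/-- indicator function -/
noncomputable def ind (S : Set ℕ) : F :=
  BoundedContinuousFunction.ofNormedAddCommGroupDiscrete (fun x => if x ∈ S then (1 : ℝ) else 0) 1
    (fun x => by split_ifs <;> simp)

theorem ind_of_mem {S : Set ℕ} {x : ℕ} (hx : x ∈ S) : ind S x = 1 := by
  simp [ind, hx]

theorem ind_of_notMem {S : Set ℕ} {x : ℕ} (hx : x ∉ S) : ind S x = 0 := by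
  simp [ind, hx]

theorem ind_nonneg (S : Set ℕ) (x : ℕ) : 0 ≤ ind S x := by
  by_cases hx : x ∈ S
  · rw [ind_of_mem hx]; norm_num
  · rw [ind_of_notMem hx]

theorem ind_le_one (S : Set ℕ) (x : ℕ) : ind S x ≤ 1 := by
  by_cases hx : x ∈ S
  · rw [ind_of_mem hx]
  · rw [ind_of_notMem hx]; norm_num

/-- one step of the double recursion -/
noncomputable def stepF (K : F →ₗ[ℝ] F) (S : Set ℕ) (a b : F) : F :=
  K a - ind S * K a + ind S * ((1 / 2 : ℝ) • a + (K b - (1 / 2 : ℝ) • b))

theorem stepF_of_mem (K : F →ₗ[ℝ] F) {S : Set ℕ} (a b : F) {x : ℕ} (hx : x ∈ S) :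
    stepF K S a b x = a x / 2 + (K b x - b x / 2) := by
  simp only [stepF, BoundedContinuousFunction.coe_add, BoundedContinuousFunction.coe_sub,
    BoundedContinuousFunction.coe_mul, BoundedContinuousFunction.coe_smul, Pi.add_apply,
    Pi.sub_apply, Pi.mul_apply, ind_of_mem hx, smul_eq_mul]
  ring

theorem stepF_of_notMem (K : F →ₗ[ℝ] F) {S : Set ℕ} (a b : F) {x : ℕ} (hx : x ∉ S) :
    stepF K S a b x = K a x := by
  simp only [stepF, BoundedContinuousFunction.coe_add, BoundedContinuousFunction.coe_sub,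
    BoundedContinuousFunction.coe_mul, BoundedContinuousFunction.coe_smul, Pi.add_apply,
    Pi.sub_apply, Pi.mul_apply, ind_of_notMem hx, smul_eq_mul]
  ring

/-- the double recursion; first index is time, second the number of visits -/
def Rec (K : F →ₗ[ℝ] F) (S : Set ℕ) (g : ℕ → ℕ → F) : Prop :=
  ∀ m s x, (x ∉ S → g (m + 1) (s + 1) x = K (g m (s + 1)) x) ∧
    (x ∈ S → g (m + 1) (s + 1) x = g m (s + 1) x / 2 + (K (g m s) x - g m s x / 2))

/-- the array generated by the recursion -/
noncomputable def arr (K : F →ₗ[ℝ] F) (S : Set ℕ) (z : ℕ → F) (w : F) : ℕ → ℕ → F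
  | 0 => fun s => match s with
    | 0 => z 0
    | _ + 1 => w
  | m + 1 => fun s => match s with
    | 0 => z (m + 1)
    | s + 1 => stepF K S (arr K S z w m (s + 1)) (arr K S z w m s)

theorem arr_zero (K : F →ₗ[ℝ] F) (S : Set ℕ) (z : ℕ → F) (w : F) (m : ℕ) :
    arr K S z w m 0 = z m := by
  cases m <;> rfl

theorem arr_init (K : F →ₗ[ℝ] F) (S : Set ℕ) (z : ℕ → F) (w : F) (s : ℕ) :
    arr K S z w 0 (s + 1) = w := rfl

theorem arr_rec (K : F →ₗ[ℝ] F) (S : Set ℕ) (z : ℕ → F) (w : F) : Rec K S (arr K S z w) := by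
  intro m s x
  constructor
  · intro hx
    change stepF K S (arr K S z w m (s + 1)) (arr K S z w m s) x = _
    exact stepF_of_notMem K _ _ hx
  · intro hx
    change stepF K S (arr K S z w m (s + 1)) (arr K S z w m s) x = _
    exact stepF_of_mem K _ _ hx

theorem dom {K : F →ₗ[ℝ] F} {S : Set ℕ} (hL : Lazy K S) {g h : ℕ → ℕ → F} (hg : Rec K S g)
    (hh : Rec K S h) (h0 : ∀ m x, |g m 0 x| ≤ h m 0 x)
    (h1 : ∀ s x, |g 0 (s + 1) x| ≤ h 0 (s + 1) x) : ∀ m s x, |g m s x| ≤ h m s x := by
  intro m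
  induction m with
  | zero =>
    intro s x
    cases s with
    | zero => exact h0 0 x
    | succ s => exact h1 s x
  | succ m ih =>
    intro s x
    cases s with
    | zero => exact h0 (m + 1) x
    | succ s =>
      by_cases hx : x ∈ S
      · rw [(hg m s x).2 hx, (hh m s x).2 hx]
        have e1 := ih (s + 1) x
        have e2 := hL.abs_le (fun x => ih s x) hx
        calc |g m (s + 1) x / 2 + (K (g m s) x - g m s x / 2)|
            ≤ |g m (s + 1) x / 2| + |K (g m s) x - g m s x / 2| := abs_add_le _ _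
          _ ≤ _ := by
              rw [abs_div, abs_of_pos (by norm_num : (0 : ℝ) < 2)]
              linarith
      · rw [(hg m s x).1 hx, (hh m s x).1 hx]
        exact hL.kern.abs_le (fun x => ih (s + 1) x) x

/-- `U m s x`: the probability that fewer than `s` visits to `S` are completed at time `m`. -/
noncomputable def U (K : F →ₗ[ℝ] F) (S : Set ℕ) : ℕ → ℕ → F := arr K S (fun _ => 0) 1

theorem U_rec (K : F →ₗ[ℝ] F) (S : Set ℕ) : Rec K S (U K S) := arr_rec _ _ _ _

theorem U_zero (K : F →ₗ[ℝ] F) (S : Set ℕ) (m : ℕ) (x : ℕ) : U K S m 0 x = 0 := by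
  rw [U, arr_zero]; simp

theorem U_init (K : F →ₗ[ℝ] F) (S : Set ℕ) (s : ℕ) (x : ℕ) : U K S 0 (s + 1) x = 1 := by
  rw [U, arr_init]; simp

theorem U_le_one {K : F →ₗ[ℝ] F} {S : Set ℕ} (hL : Lazy K S) : ∀ m s x, U K S m s x ≤ 1 := by
  intro m
  induction m with
  | zero =>
    intro s x
    cases s with
    | zero => rw [U_zero]; norm_num
    | succ s => rw [U_init]
  | succ m ih =>
    intro s x
    cases s with
    | zero => rw [U_zero]; norm_num
    | succ s =>
      by_cases hx : x ∈ S
      · rw [(U_rec K S m s x).2 hx]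
        have e1 := ih (s + 1) x
        have e2 := hL.mono (f := U K S m s) (g := 1) (fun x => by simpa using ih s x) hx
        rw [hL.kern.one] at e2
        simp only [BoundedContinuousFunction.coe_one, Pi.one_apply] at e2
        linarith
      · rw [(U_rec K S m s x).1 hx]
        exact hL.kern.le_const (fun x => ih (s + 1) x) x

theorem U_nonneg {K : F →ₗ[ℝ] F} {S : Set ℕ} (hL : Lazy K S) (m s x : ℕ) : 0 ≤ U K S m s x := by
  have h := dom hL (U_rec K S) (U_rec K S) (fun m x => by rw [U_zero]; simp)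
    (fun s x => by rw [U_init]; simp) m s x
  exact (abs_nonneg _).trans h

theorem U_anti {K : F →ₗ[ℝ] F} {S : Set ℕ} (hL : Lazy K S) (m s x : ℕ) :
    U K S (m + 1) s x ≤ U K S m s x := by
  have hd : Rec K S (fun m s => U K S m s - U K S (m + 1) s) := by
    intro m s x
    have e1 := U_rec K S m s x
    have e2 := U_rec K S (m + 1) s x
    constructor
    · intro hx
      simp only [BoundedContinuousFunction.coe_sub, Pi.sub_apply, map_sub]
      have := e1.1 hx
      have := e2.1 hx
      linarith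
    · intro hx
      simp only [BoundedContinuousFunction.coe_sub, Pi.sub_apply, map_sub]
      have := e1.2 hx
      have := e2.2 hx
      linarith
  have h := dom hL hd hd (fun m x => by
      simp only [BoundedContinuousFunction.coe_sub, Pi.sub_apply, U_zero]; simp)
    (fun s x => by
      simp only [BoundedContinuousFunction.coe_sub, Pi.sub_apply, U_init]
      rw [abs_of_nonneg]
      linarith [U_le_one hL 1 (s + 1) x]) m s x
  have := (abs_nonneg _).trans h
  simp only [BoundedContinuousFunction.coe_sub, Pi.sub_apply] at this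
  linarith

/-! ### the coefficients -/

/-- negative binomial weights -/
noncomputable def p (t γ : ℕ) : ℝ := (Nat.multichoose t γ : ℝ) / 2 ^ (γ + t)

theorem p_succ_succ (t γ : ℕ) : p (t + 1) (γ + 1) = p (t + 1) γ / 2 + p t (γ + 1) / 2 := by
  unfold p
  rw [Nat.multichoose_succ_succ]
  push_cast
  have e1 : (2 : ℝ) ^ (γ + 1 + (t + 1)) = 2 ^ (γ + (t + 1)) * 2 := by rw [← pow_succ]; congr 1; ring
  have e2 : (2 : ℝ) ^ (γ + 1 + t) = 2 ^ (γ + (t + 1)) := by congr 1; ring
  rw [e1, e2]
  field_simp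
  ring

theorem p_succ_zero (t : ℕ) : p (t + 1) 0 = p t 0 / 2 := by
  unfold p
  rw [Nat.multichoose_zero_right, Nat.multichoose_zero_right]
  rw [show 0 + (t + 1) = (0 + t) + 1 by ring, pow_succ]
  field_simp

/-- differences of the weights -/
noncomputable def c (t : ℕ) : ℕ → ℝ
  | 0 => p t 0
  | γ + 1 => p t (γ + 1) - p t γ

theorem c_succ_zero (t : ℕ) : c (t + 1) 0 = c t 0 / 2 := p_succ_zero t

theorem c_succ_succ (t γ : ℕ) : c (t + 1) (γ + 1) = c (t + 1) γ / 2 + c t (γ + 1) / 2 := by
  cases γ with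
  | zero =>
    simp only [c]
    rw [p_succ_succ, p_succ_zero]
    ring
  | succ γ =>
    simp only [c]
    rw [p_succ_succ t (γ + 1), p_succ_succ t γ]
    ring

theorem p_zero_zero : p 0 0 = 1 := by simp [p]

theorem p_zero_succ (γ : ℕ) : p 0 (γ + 1) = 0 := by simp [p]

theorem c_zero_zero : c 0 0 = 1 := p_zero_zero

theorem c_zero_one : c 0 1 = -1 := by
  simp only [c]; rw [p_zero_zero, p_zero_succ]; norm_num

theorem c_zero_succ_succ (γ : ℕ) : c 0 (γ + 2) = 0 := by
  simp only [c]; rw [p_zero_succ, p_zero_succ]; norm_num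

theorem p_nonneg (t γ : ℕ) : 0 ≤ p t γ := by unfold p; positivity

theorem p_ratio (k γ : ℕ) : p (k + 1) (γ + 1) * (2 * (γ + 1)) = p (k + 1) γ * (γ + 1 + k) := by
  unfold p
  rw [Nat.multichoose_eq, Nat.multichoose_eq]
  have e1 : k + 1 + (γ + 1) - 1 = k + γ + 1 := by omega
  have e2 : k + 1 + γ - 1 = k + γ := by omega
  rw [e1, e2]
  have h := Nat.add_one_mul_choose_eq (k + γ) γ
  have h' : ((k + γ + 1 : ℕ) : ℝ) * ((k + γ).choose γ : ℝ) =
      ((k + γ + 1).choose (γ + 1) : ℝ) * ((γ + 1 : ℕ) : ℝ) := by exact_mod_cast h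
  push_cast at h'
  have e3 : (2 : ℝ) ^ (γ + 1 + (k + 1)) = 2 ^ (γ + (k + 1)) * 2 := by rw [← pow_succ]; congr 1; ring
  rw [e3]
  field_simp
  linarith

theorem c_nonneg_of_le {k γ : ℕ} (h : γ ≤ k) : 0 ≤ c (k + 1) γ := by
  cases γ with
  | zero => exact p_nonneg _ _
  | succ γ =>
    simp only [c]
    have h1 := p_ratio k γ
    have h2 := p_nonneg (k + 1) γ
    have h3 : ((γ : ℝ) + 1) ≤ k := by exact_mod_cast h
    have h4 : (0 : ℝ) ≤ γ := by positivity
    have h5 : p (k + 1) γ * (2 * (γ + 1)) ≤ p (k + 1) (γ + 1) * (2 * (γ + 1)) := by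
      rw [h1]
      apply mul_le_mul_of_nonneg_left _ h2
      linarith
    have h6 := le_of_mul_le_mul_right h5 (by positivity)
    linarith

theorem c_nonpos_of_lt {k γ : ℕ} (h : k < γ) : c (k + 1) γ ≤ 0 := by
  cases γ with
  | zero => omega
  | succ γ =>
    simp only [c]
    have h1 := p_ratio k γ
    have h2 := p_nonneg (k + 1) γ
    have h3 : (k : ℝ) ≤ γ := by exact_mod_cast Nat.lt_succ_iff.1 h
    have h4 : (0 : ℝ) ≤ γ := by positivity
    have h5 : p (k + 1) (γ + 1) * (2 * (γ + 1)) ≤ p (k + 1) γ * (2 * (γ + 1)) := by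
      rw [h1]
      apply mul_le_mul_of_nonneg_left _ h2
      linarith
    have h6 := le_of_mul_le_mul_right h5 (by positivity)
    linarith

theorem sum_c (t m : ℕ) : ∑ γ ∈ Finset.range (m + 1), c t γ = p t m := by
  induction m with
  | zero => simp [c]
  | succ m ih =>
    rw [Finset.sum_range_succ, ih]
    simp only [c]
    ring

theorem sum_abs_c (k m : ℕ) :
    ∑ γ ∈ Finset.range (m + 1), |c (k + 1) γ| ≤ 2 * p (k + 1) k := by
  rcases le_total m k with h | h
  · have e : ∑ γ ∈ Finset.range (m + 1), |c (k + 1) γ| = ∑ γ ∈ Finset.range (m + 1), c (k + 1) γ := by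
      refine Finset.sum_congr rfl fun γ hγ => ?_
      rw [Finset.mem_range] at hγ
      exact abs_of_nonneg (c_nonneg_of_le (by omega))
    have e2 : p (k + 1) m ≤ p (k + 1) k := by
      rw [← sum_c, ← sum_c]
      refine Finset.sum_le_sum_of_subset_of_nonneg ?_ ?_
      · intro γ hγ
        rw [Finset.mem_range] at hγ ⊢
        omega
      · intro γ hγ _
        rw [Finset.mem_range] at hγ
        exact c_nonneg_of_le (by omega)
    rw [e, sum_c]
    linarith [p_nonneg (k + 1) k]
  · -- induction from k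
    have key : ∀ d, ∑ γ ∈ Finset.range (k + d + 1), |c (k + 1) γ| =
        2 * p (k + 1) k - p (k + 1) (k + d) := by
      intro d
      induction d with
      | zero =>
        have e : ∑ γ ∈ Finset.range (k + 0 + 1), |c (k + 1) γ| =
            ∑ γ ∈ Finset.range (k + 1), c (k + 1) γ := by
          refine Finset.sum_congr rfl fun γ hγ => ?_
          rw [Finset.mem_range] at hγ
          exact abs_of_nonneg (c_nonneg_of_le (by omega))
        rw [e, sum_c]
        simp only [add_zero]
        ring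
      | succ d ih =>
        rw [show k + (d + 1) + 1 = (k + d + 1) + 1 by ring, Finset.sum_range_succ, ih,
          abs_of_nonpos (c_nonpos_of_lt (by omega))]
        simp only [c]
        rw [show k + (d + 1) = k + d + 1 by ring]
        ring
    obtain ⟨d, rfl⟩ := Nat.exists_eq_add_of_le h
    rw [key]
    linarith [p_nonneg (k + 1) (k + d)]

theorem p_central (k : ℕ) : 2 * p (k + 1) k = (Nat.centralBinom k : ℝ) / 4 ^ k := by
  unfold p
  rw [Nat.multichoose_eq, Nat.centralBinom_eq_two_mul_choose]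
  have e1 : k + 1 + k - 1 = 2 * k := by omega
  rw [e1]
  have e2 : (2 : ℝ) ^ (k + (k + 1)) = 4 ^ k * 2 := by
    rw [show k + (k + 1) = 2 * k + 1 by ring, pow_succ, pow_mul]; norm_num
  rw [e2]
  field_simp

theorem central_sq (k : ℕ) : ((Nat.centralBinom k : ℝ) / 4 ^ k) ^ 2 * (2 * k + 1) ≤ 1 := by
  induction k with
  | zero => simp
  | succ k ih =>
    have h := Nat.succ_mul_centralBinom_succ k
    have h' : ((k : ℝ) + 1) * (Nat.centralBinom (k + 1) : ℝ) =
        2 * (2 * k + 1) * (Nat.centralBinom k : ℝ) := by exact_mod_cast h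
    have h'' : (Nat.centralBinom (k + 1) : ℝ) = 2 * (2 * k + 1) * (Nat.centralBinom k : ℝ) / (k + 1) := by
      field_simp
      linarith
    have e : ((Nat.centralBinom (k + 1) : ℝ) / 4 ^ (k + 1)) =
        ((Nat.centralBinom k : ℝ) / 4 ^ k) * ((2 * k + 1) / (2 * (k + 1))) := by
      rw [h'', pow_succ]
      field_simp
      ring
    rw [e]
    push_cast
    have hk : (0 : ℝ) ≤ k := by positivity
    have h3 : ((2 * (k : ℝ) + 1) / (2 * (k + 1))) ^ 2 * (2 * (k + 1) + 1) ≤ 2 * k + 1 := by
      rw [div_pow, div_mul_eq_mul_div, div_le_iff₀ (by positivity)]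
      nlinarith
    calc ((Nat.centralBinom k : ℝ) / 4 ^ k * ((2 * k + 1) / (2 * (k + 1)))) ^ 2 * (2 * (k + 1) + 1)
        = ((Nat.centralBinom k : ℝ) / 4 ^ k) ^ 2 *
          (((2 * (k : ℝ) + 1) / (2 * (k + 1))) ^ 2 * (2 * (k + 1) + 1)) := by ring
      _ ≤ ((Nat.centralBinom k : ℝ) / 4 ^ k) ^ 2 * (2 * k + 1) := by gcongr
      _ ≤ 1 := ih

/-- the smoothing constants tend to zero -/
theorem exists_small (ε : ℝ) (hε : 0 < ε) :
    ∃ N : ℕ, ∀ m, ∑ γ ∈ Finset.range (m + 1), |c N γ| ≤ ε := by
  obtain ⟨k, hk⟩ := exists_nat_gt (1 / ε ^ 2)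
  refine ⟨k + 1, fun m => (sum_abs_c k m).trans ?_⟩
  rw [p_central]
  by_contra hcon
  push Not at hcon
  have h := central_sq k
  have h1 : ε ^ 2 < ((Nat.centralBinom k : ℝ) / 4 ^ k) ^ 2 := by gcongr
  have h2 : 1 / ε ^ 2 < 2 * k + 1 := by
    have : (0 : ℝ) ≤ k := by positivity
    linarith
  rw [div_lt_iff₀ (by positivity)] at h2
  have h3 : (0 : ℝ) < 2 * k + 1 := by positivity
  nlinarith

/-! ### smoothing -/

section smooth

variable {K : F →ₗ[ℝ] F} {S : Set ℕ}

/-- the part of `K^m f` with at least `s` completed visits -/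
noncomputable def G (K : F →ₗ[ℝ] F) (S : Set ℕ) (f : F) : ℕ → ℕ → F :=
  arr K S (fun m => K^[m] f) 0

theorem iterate_abs_le (hK : Kern K) {f : F} {C : ℝ} (hf : ∀ x, |f x| ≤ C) (m x : ℕ) :
    |(K^[m] f) x| ≤ C := by
  induction m generalizing x with
  | zero => exact hf x
  | succ m ih =>
    rw [Function.iterate_succ_apply']
    exact hK.abs_le_const ih x

theorem sub_G_le (hL : Lazy K S) {f : F} (hf : ∀ x, |f x| ≤ 1) (m s x : ℕ) :
    |(K^[m] f) x - G K S f m s x| ≤ U K S m s x := by
  have hr : Rec K S (fun m s => K^[m] f - G K S f m s) := by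
    intro m s x
    have e := arr_rec K S (fun m => K^[m] f) 0 m s x
    constructor
    · intro hx
      simp only [BoundedContinuousFunction.coe_sub, Pi.sub_apply, map_sub, G]
      rw [e.1 hx, Function.iterate_succ_apply']
    · intro hx
      simp only [BoundedContinuousFunction.coe_sub, Pi.sub_apply, map_sub, G]
      rw [e.2 hx, Function.iterate_succ_apply']
      ring
  have h := dom hL hr (U_rec K S) (fun m x => by
      simp only [BoundedContinuousFunction.coe_sub, Pi.sub_apply, G, arr_zero, U_zero]; simp)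
    (fun s x => by
      simp only [BoundedContinuousFunction.coe_sub, Pi.sub_apply, G, arr_init, U_init]
      simpa using hf x) m s x
  simpa using h

/-- convolution of `G` with the coefficients -/
noncomputable def D (K : F →ₗ[ℝ] F) (S : Set ℕ) (f : F) (t s m : ℕ) : F :=
  ∑ γ ∈ Finset.range (m + 1), c t γ • G K S f (m - γ) s

theorem D_apply (f : F) (t s m x : ℕ) :
    D K S f t s m x = ∑ γ ∈ Finset.range (m + 1), c t γ * G K S f (m - γ) s x := by
  rw [D, BoundedContinuousFunction.coe_sum, Finset.sum_apply]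
  rfl

theorem K_D_apply (f : F) (t s m x : ℕ) :
    K (D K S f t s m) x = ∑ γ ∈ Finset.range (m + 1), c t γ * K (G K S f (m - γ) s) x := by
  rw [D, map_sum, BoundedContinuousFunction.coe_sum, Finset.sum_apply]
  refine Finset.sum_congr rfl fun γ _ => ?_
  rw [map_smul]
  rfl

theorem G_zero_succ (f : F) (s x : ℕ) : G K S f 0 (s + 1) x = 0 := by
  rw [G, arr_init]; rfl

theorem D_notMem (f : F) (t s m : ℕ) {x : ℕ} (hx : x ∉ S) :
    D K S f t (s + 1) (m + 1) x = K (D K S f t (s + 1) m) x := by
  rw [D_apply, K_D_apply, Finset.sum_range_succ, Nat.sub_self, G_zero_succ, mul_zero, add_zero]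
  refine Finset.sum_congr rfl fun γ hγ => ?_
  rw [Finset.mem_range] at hγ
  rw [show m + 1 - γ = (m - γ) + 1 by omega]
  rw [show G K S f (m - γ + 1) (s + 1) x = K (G K S f (m - γ) (s + 1)) x from
    (arr_rec K S (fun m => K^[m] f) 0 (m - γ) s x).1 hx]

theorem D_mem_rec (f : F) (t s m : ℕ) {x : ℕ} (hx : x ∈ S) :
    D K S f t (s + 1) (m + 1) x = D K S f t (s + 1) m x / 2 +
      (K (D K S f t s m) x - D K S f t s m x / 2) := by
  rw [D_apply, D_apply, K_D_apply, D_apply, Finset.sum_range_succ, Nat.sub_self, G_zero_succ,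
    mul_zero, add_zero, Finset.sum_div, Finset.sum_div, ← Finset.sum_sub_distrib,
    ← Finset.sum_add_distrib]
  refine Finset.sum_congr rfl fun γ hγ => ?_
  rw [Finset.mem_range] at hγ
  rw [show m + 1 - γ = (m - γ) + 1 by omega]
  rw [show G K S f (m - γ + 1) (s + 1) x = G K S f (m - γ) (s + 1) x / 2 +
      (K (G K S f (m - γ) s) x - G K S f (m - γ) s x / 2) from
    (arr_rec K S (fun m => K^[m] f) 0 (m - γ) s x).2 hx]
  ring

theorem D_succ_t (f : F) (t s m : ℕ) :
    D K S f (t + 1) s (m + 1) = (1 / 2 : ℝ) • D K S f (t + 1) s m +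
      (1 / 2 : ℝ) • D K S f t s (m + 1) := by
  rw [D, D, D, Finset.sum_range_succ', Finset.sum_range_succ' _ (m + 1), smul_add, Finset.smul_sum,
    Finset.smul_sum, ← add_assoc, ← Finset.sum_add_distrib]
  congr 1
  · refine Finset.sum_congr rfl fun γ _ => ?_
    rw [c_succ_succ, show m + 1 - (γ + 1) = m - γ by omega, smul_smul, smul_smul, ← add_smul]
    congr 1
    ring
  · rw [c_succ_zero, smul_smul]
    congr 1
    ring

theorem D_zero (f : F) (t s : ℕ) : D K S f t s 0 = c t 0 • G K S f 0 s := by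
  simp [D]

theorem D_mem (f : F) (t s m : ℕ) {x : ℕ} (hx : x ∈ S) :
    D K S f t (s + 1) (m + 1) x =
      2 * (K (D K S f (t + 1) s m) x - D K S f (t + 1) s m x / 2) := by
  induction m with
  | zero =>
    rw [D_mem_rec f t s 0 hx, D_zero, D_zero, D_zero, c_succ_zero]
    simp only [map_smul, BoundedContinuousFunction.coe_smul, smul_eq_mul, G_zero_succ]
    ring
  | succ m ih =>
    rw [D_mem_rec f t s (m + 1) hx, ih, D_succ_t]
    simp only [map_add, map_smul, BoundedContinuousFunction.coe_add, Pi.add_apply,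
      BoundedContinuousFunction.coe_smul, smul_eq_mul]
    ring

theorem D_bound (hL : Lazy K S) {f : F} (hf : ∀ x, |f x| ≤ 1) {N : ℕ} {ε : ℝ}
    (hN : ∀ m, ∑ γ ∈ Finset.range (m + 1), |c N γ| ≤ ε) :
    ∀ s t, t + s = N → ∀ m x, |D K S f t s m x| ≤ ε := by
  have hε : 0 ≤ ε := le_trans (Finset.sum_nonneg fun _ _ => abs_nonneg _) (hN 0)
  intro s
  induction s with
  | zero =>
    intro t ht m x
    simp only [add_zero] at ht
    subst ht
    rw [D_apply]
    refine le_trans (Finset.abs_sum_le_sum_abs _ _) (le_trans (Finset.sum_le_sum fun γ _ => ?_) (hN m))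
    rw [abs_mul]
    have h1 : |G K S f (m - γ) 0 x| ≤ 1 := by
      rw [G, arr_zero]
      exact iterate_abs_le hL.kern hf _ _
    calc |c t γ| * |G K S f (m - γ) 0 x| ≤ |c t γ| * 1 := by gcongr
      _ = _ := mul_one _
  | succ s ih =>
    intro t ht m
    induction m with
    | zero =>
      intro x
      rw [D_zero]
      simp only [BoundedContinuousFunction.coe_smul, smul_eq_mul, G_zero_succ, mul_zero, abs_zero]
      exact hε
    | succ m ihm =>
      intro x
      by_cases hx : x ∈ S
      · rw [D_mem f t s m hx, abs_mul, abs_of_pos (by norm_num : (0 : ℝ) < 2)]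
        have := hL.abs_le_const (ih (t + 1) (by omega) m) hx
        linarith
      · rw [D_notMem f t s m hx]
        exact hL.kern.abs_le_const ihm x

theorem D_zero_N (f : F) (N m : ℕ) :
    D K S f 0 N (m + 1) = G K S f (m + 1) N - G K S f m N := by
  rw [D, Finset.sum_range_succ', Finset.sum_range_succ', c_zero_zero, c_zero_one]
  rw [Finset.sum_eq_zero (fun γ _ => by rw [c_zero_succ_succ, zero_smul])]
  rw [show m + 1 - (0 + 1) = m by omega, show m + 1 - 0 = m + 1 by omega]
  ext x
  simp only [BoundedContinuousFunction.coe_add, BoundedContinuousFunction.coe_sub,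
    BoundedContinuousFunction.coe_smul, BoundedContinuousFunction.coe_zero, Pi.add_apply,
    Pi.sub_apply, Pi.zero_apply, smul_eq_mul]
  ring

/-- **Smoothing.** -/
theorem smoothing (hL : Lazy K S) {f : F} (hf : ∀ x, |f x| ≤ 1) {N : ℕ} {ε : ℝ}
    (hN : ∀ m, ∑ γ ∈ Finset.range (m + 1), |c N γ| ≤ ε) (n x : ℕ) :
    |(K^[n] f) x - (K^[n + 1] f) x| ≤ ε + 2 * U K S n N x := by
  have h1 := sub_G_le hL hf n N x
  have h2 := sub_G_le hL hf (n + 1) N x
  have h3 := D_bound hL hf hN N 0 (by omega) (n + 1) x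
  rw [D_zero_N] at h3
  simp only [BoundedContinuousFunction.coe_sub, Pi.sub_apply] at h3
  have h4 := U_anti hL n N x
  have e : (K^[n] f) x - (K^[n + 1] f) x = ((K^[n] f) x - G K S f n N x) -
      ((K^[n + 1] f) x - G K S f (n + 1) N x) - (G K S f (n + 1) N x - G K S f n N x) := by ring
  rw [e]
  calc _ ≤ |(K^[n] f) x - G K S f n N x| + |(K^[n + 1] f) x - G K S f (n + 1) N x| +
        |G K S f (n + 1) N x - G K S f n N x| := by
        refine (abs_sub _ _).trans ?_
        gcongr
        exact abs_sub _ _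
    _ ≤ _ := by linarith

end smooth

/-! ### expected number of visits -/

/-- expected number of visits to `A` among the first `n` times -/
noncomputable def V (K : F →ₗ[ℝ] F) (A : Set ℕ) : ℕ → F
  | 0 => 0
  | n + 1 => ind A + K (V K A n)

theorem V_succ (K : F →ₗ[ℝ] F) (A : Set ℕ) (n x : ℕ) :
    V K A (n + 1) x = ind A x + K (V K A n) x := rfl

theorem V_nonneg {K : F →ₗ[ℝ] F} (hK : Kern K) (A : Set ℕ) (n x : ℕ) : 0 ≤ V K A n x := by
  induction n generalizing x with
  | zero => exact le_rfl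
  | succ n ih => rw [V_succ]; exact add_nonneg (ind_nonneg _ _) (hK.pos _ ih x)

theorem V_le {K : F →ₗ[ℝ] F} (hK : Kern K) (A : Set ℕ) (n x : ℕ) : V K A n x ≤ n := by
  induction n generalizing x with
  | zero => simp [V]
  | succ n ih =>
    rw [V_succ]
    have := hK.le_const ih x
    push_cast
    linarith [ind_le_one A x]

theorem V_mono {K : F →ₗ[ℝ] F} (hK : Kern K) (A : Set ℕ) (n x : ℕ) :
    V K A n x ≤ V K A (n + 1) x := by
  induction n generalizing x with
  | zero => exact V_nonneg hK A 1 x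
  | succ n ih =>
    rw [V_succ, V_succ K A (n + 1)]
    have := hK.mono ih x
    linarith

theorem V_mono' {K : F →ₗ[ℝ] F} (hK : Kern K) (A : Set ℕ) {m n : ℕ} (h : m ≤ n) (x : ℕ) :
    V K A m x ≤ V K A n x :=
  monotone_nat_of_le_succ (f := fun n => V K A n x) (fun n => V_mono hK A n x) h

theorem visits {K : F →ₗ[ℝ] F} {S : Set ℕ} (hL : Lazy K S) {A : Set ℕ} (hAS : A ⊆ S)
    (n₀ : ℕ) (M : ℝ)
    (hM : ∀ x, V K A n₀ x ≤ M) (hM0 : 0 ≤ M) :
    ∀ n, n ≤ n₀ → ∀ N x, V K A n x ≤ 2 * N + (1 - U K S n N x) * M := by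
  intro n
  induction n with
  | zero =>
    intro _ N x
    have h1 := U_le_one hL 0 N x
    have : V K A 0 x = 0 := rfl
    rw [this]
    have : (0 : ℝ) ≤ (1 - U K S 0 N x) * M := mul_nonneg (by linarith) hM0
    positivity
  | succ n ih =>
    intro hn N x
    have ih' := ih (by omega)
    cases N with
    | zero =>
      rw [U_zero]
      have := (V_mono' hL.kern A hn x).trans (hM x)
      push_cast
      linarith
    | succ N =>
      by_cases hx : x ∈ S
      · rw [(U_rec K S n N x).2 hx, V_succ]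
        have e1 := ih' (N + 1) x
        have e2 := hL.mono (f := V K A n)
          (g := (2 * (N : ℝ) + M) • (1 : F) - M • U K S n N) (fun y => by
            simp only [BoundedContinuousFunction.coe_sub, Pi.sub_apply,
              BoundedContinuousFunction.coe_smul, BoundedContinuousFunction.coe_one,
              Pi.one_apply, smul_eq_mul]
            have := ih' N y
            linarith) hx
        rw [map_sub] at e2
        simp only [BoundedContinuousFunction.coe_sub, Pi.sub_apply, hL.kern.const] at e2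
        rw [map_smul] at e2
        simp only [BoundedContinuousFunction.coe_smul, BoundedContinuousFunction.coe_one,
              Pi.one_apply, smul_eq_mul] at e2
        have e3 := ind_le_one A x
        push_cast at e1 ⊢
        nlinarith
      · rw [(U_rec K S n N x).1 hx, V_succ]
        have hA : ind A x ≤ 0 := by
          rw [ind_of_notMem (fun h => hx (hAS h))]
        have e2 := hL.kern.mono (f := V K A n)
          (g := (2 * ((N + 1 : ℕ) : ℝ) + M) • (1 : F) - M • U K S n (N + 1)) (fun y => by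
            simp only [BoundedContinuousFunction.coe_sub, Pi.sub_apply,
              BoundedContinuousFunction.coe_smul, BoundedContinuousFunction.coe_one,
              Pi.one_apply, smul_eq_mul]
            have := ih' (N + 1) y
            linarith) x
        rw [map_sub] at e2
        simp only [BoundedContinuousFunction.coe_sub, Pi.sub_apply, hL.kern.const] at e2
        rw [map_smul] at e2
        simp only [BoundedContinuousFunction.coe_smul, smul_eq_mul] at e2
        linarith

end H520R3.MG
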