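import Mathlib
import Pool.Agent.H520R3.MG1

/-!
# Markov group conjecture, part II: Markov operators on `ℓ¹` and their duals
-/

set_option autoImplicit false
open Set Filter Topology BoundedContinuousFunction

namespace H520R3.MG

abbrev E := lp (fun _ : ℕ => ℝ) 1

theorem summ (x : E) : Summable (fun n => |x n|) := by
  have := lp.memℓp x
  rw [memℓp_gen_iff (by norm_num)] at this
  simpa using this

theorem norm_eq (x : E) : ‖x‖ = ∑' n, |x n| := by
  rw [lp.norm_eq_tsum_rpow (by norm_num)]; simp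

theorem f_le (f : F) (n : ℕ) : |f n| ≤ ‖f‖ := f.norm_coe_le_norm n

theorem summ_mul (x : E) (f : F) : Summable fun n => x n * f n := by
  refine Summable.of_norm_bounded ((summ x).mul_right ‖f‖) fun n => ?_
  rw [norm_mul, Real.norm_eq_abs, Real.norm_eq_abs]
  exact mul_le_mul_of_nonneg_left (f_le f n) (abs_nonneg _)

theorem abs_tsum_le (x : E) (f : F) {C : ℝ} (hC : ∀ n, |f n| ≤ C) :
    |∑' n, x n * f n| ≤ C * ‖x‖ := by
  rw [norm_eq x, ← tsum_mul_left, ← Real.norm_eq_abs]
  refine (tsum_of_norm_bounded ((summ x).mul_left C).hasSum fun n => ?_)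
  rw [norm_mul, Real.norm_eq_abs, Real.norm_eq_abs, mul_comm]
  exact mul_le_mul_of_nonneg_right (hC n) (abs_nonneg _)

/-- pairing with a bounded function -/
noncomputable def pairL (f : F) : E →L[ℝ] ℝ :=
  LinearMap.mkContinuous
    { toFun := fun x => ∑' n, x n * f n
      map_add' := fun x y => by
        rw [← (summ_mul x f).tsum_add (summ_mul y f)]
        refine tsum_congr fun n => ?_
        rw [lp.coeFn_add, Pi.add_apply]
        ring
      map_smul' := fun a x => by
        rw [RingHom.id_apply, smul_eq_mul, ← tsum_mul_left]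
        refine tsum_congr fun n => ?_
        rw [lp.coeFn_smul, Pi.smul_apply, smul_eq_mul]
        ring } ‖f‖ (fun x => abs_tsum_le x f (f_le f))

theorem pairL_apply (f : F) (x : E) : pairL f x = ∑' n, x n * f n := rfl

theorem pairL_abs_le (f : F) (x : E) {C : ℝ} (hC : ∀ n, |f n| ≤ C) : |pairL f x| ≤ C * ‖x‖ :=
  abs_tsum_le x f hC

theorem pairL_add (f g : F) (x : E) : pairL (f + g) x = pairL f x + pairL g x := by
  rw [pairL_apply, pairL_apply, pairL_apply, ← (summ_mul x f).tsum_add (summ_mul x g)]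
  refine tsum_congr fun n => ?_
  rw [BoundedContinuousFunction.coe_add, Pi.add_apply]
  ring

theorem pairL_smul (a : ℝ) (f : F) (x : E) : pairL (a • f) x = a * pairL f x := by
  rw [pairL_apply, pairL_apply, ← tsum_mul_left]
  refine tsum_congr fun n => ?_
  change x n * (a * f n) = a * (x n * f n)
  ring

/-- basis vectors -/
noncomputable def e (i : ℕ) : E := lp.single 1 i (1 : ℝ)

theorem e_self (i : ℕ) : e i i = 1 := lp.single_apply_self _ _ _

theorem e_ne {i j : ℕ} (h : j ≠ i) : e i j = 0 := lp.single_apply_ne _ _ _ h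

theorem e_nonneg (i j : ℕ) : 0 ≤ e i j := by
  by_cases h : j = i
  · subst h; rw [e_self]; norm_num
  · rw [e_ne h]

theorem norm_e (i : ℕ) : ‖e i‖ = 1 := by
  rw [e, lp.norm_single (by norm_num)]; simp

theorem hasSum_e (x : E) : HasSum (fun i => x i • e i) x := by
  have h := lp.hasSum_single (p := 1) (by norm_num) x
  convert h using 2 with i
  rw [e, ← lp.single_smul]
  simp

theorem pairL_e (f : F) (i : ℕ) : pairL f (e i) = f i := by
  rw [pairL_apply, tsum_eq_single i]
  · rw [e_self, one_mul]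
  · intro j hj
    rw [e_ne hj, zero_mul]

/-- the dual operator on bounded functions -/
noncomputable def P (A : E →L[ℝ] E) : F →ₗ[ℝ] F where
  toFun f := BoundedContinuousFunction.ofNormedAddCommGroupDiscrete
    (fun i => pairL f (A (e i))) (‖f‖ * ‖A‖) (fun i => by
      refine (pairL_abs_le f _ (f_le f)).trans ?_
      refine mul_le_mul_of_nonneg_left ?_ (norm_nonneg _)
      have := A.le_opNorm (e i)
      rwa [norm_e, mul_one] at this)
  map_add' f g := by
    ext i
    exact pairL_add f g _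
  map_smul' a f := by
    ext i
    exact pairL_smul a f _

theorem P_apply (A : E →L[ℝ] E) (f : F) (i : ℕ) : P A f i = pairL f (A (e i)) := rfl

theorem pairL_P (A : E →L[ℝ] E) (f : F) (y : E) : pairL (P A f) y = pairL f (A y) := by
  have h := (hasSum_e y).mapL ((pairL f).comp A)
  have e1 : (fun b => ((pairL f).comp A) (y b • e b)) = fun i => y i * P A f i := by
    funext i
    rw [map_smul, smul_eq_mul]
    rfl
  rw [e1] at h
  rw [pairL_apply]
  exact h.tsum_eq

theorem P_comp (A B : E →L[ℝ] E) (f : F) : P (A.comp B) f = P B (P A f) := by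
  ext i
  rw [P_apply, P_apply, pairL_P]
  rfl

theorem P_id (f : F) : P (ContinuousLinearMap.id ℝ E) f = f := by
  ext i
  rw [P_apply]
  exact pairL_e f i

/-- Markov operators on `ℓ¹` -/
structure Mk (A : E →L[ℝ] E) : Prop where
  pos : ∀ x : E, (∀ n, 0 ≤ x n) → ∀ n, 0 ≤ (A x) n
  norm : ∀ x : E, (∀ n, 0 ≤ x n) → ‖A x‖ = ‖x‖

theorem Mk.col_nonneg {A : E →L[ℝ] E} (h : Mk A) (i j : ℕ) : 0 ≤ (A (e i)) j :=
  h.pos _ (e_nonneg i) j

theorem Mk.col_sum {A : E →L[ℝ] E} (h : Mk A) (i : ℕ) : ∑' j, (A (e i)) j = 1 := by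
  have h1 := h.norm (e i) (e_nonneg i)
  rw [norm_e, norm_eq] at h1
  rw [← h1]
  refine tsum_congr fun j => ?_
  rw [abs_of_nonneg (h.col_nonneg i j)]

theorem Mk.kern {A : E →L[ℝ] E} (h : Mk A) : Kern (P A) := by
  refine ⟨?_, ?_⟩
  · intro f hf i
    rw [P_apply, pairL_apply]
    exact tsum_nonneg fun j => mul_nonneg (h.col_nonneg i j) (hf j)
  · intro i
    rw [P_apply, pairL_apply, ← h.col_sum i]
    refine tsum_congr fun j => ?_
    rw [BoundedContinuousFunction.coe_one, Pi.one_apply, mul_one]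

theorem Mk.diag_le {A : E →L[ℝ] E} (h : Mk A) (i : ℕ) (f : F) (hf : ∀ x, 0 ≤ f x) :
    (A (e i)) i * f i ≤ P A f i := by
  rw [P_apply, pairL_apply]
  exact (summ_mul _ f).le_tsum i (fun j _ => mul_nonneg (h.col_nonneg i j) (hf j))

theorem Mk.lazy {A : E →L[ℝ] E} (h : Mk A) {S : Set ℕ} (hS : ∀ i ∈ S, 1 / 2 ≤ (A (e i)) i) :
    Lazy (P A) S := by
  refine ⟨h.kern, fun f hf i hi => ?_⟩
  refine le_trans ?_ (h.diag_le i f hf)
  have := mul_le_mul_of_nonneg_right (hS i hi) (hf i)
  linarith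

theorem exists_dual (y : E) : ∃ f : F, (∀ n, |f n| ≤ 1) ∧ pairL f y = ‖y‖ := by
  classical
  refine ⟨BoundedContinuousFunction.ofNormedAddCommGroupDiscrete
    (fun n => if 0 ≤ y n then (1 : ℝ) else -1) 1 (fun n => by split_ifs <;> simp), ?_, ?_⟩
  · intro n
    change |if 0 ≤ y n then (1 : ℝ) else -1| ≤ 1
    split_ifs <;> simp
  · rw [pairL_apply, norm_eq]
    refine tsum_congr fun n => ?_
    change y n * (if 0 ≤ y n then (1 : ℝ) else -1) = |y n|
    split_ifs with h
    · rw [abs_of_nonneg h, mul_one]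
    · rw [abs_of_neg (not_le.1 h)]; ring

theorem Mk.contr {A : E →L[ℝ] E} (h : Mk A) (x : E) : ‖A x‖ ≤ ‖x‖ := by
  obtain ⟨f, hf, hfe⟩ := exists_dual (A x)
  rw [← hfe, ← pairL_P]
  have := pairL_abs_le (P A f) x (C := 1) (fun n => h.kern.abs_le_const hf n)
  rw [one_mul] at this
  exact (le_abs_self _).trans this

theorem Mk.diag_le_one {A : E →L[ℝ] E} (h : Mk A) (i : ℕ) : (A (e i)) i ≤ 1 := by
  have h1 := h.diag_le i 1 (fun x => by simp)
  rw [h.kern.one] at h1
  simpa using h1

theorem tri (u v w : E) (a b : ℝ) (h : u = v - w) (hv : ‖v‖ = a) (hw : ‖w‖ = b) :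
    ‖u‖ ≤ a + b := by
  rw [h, ← hv, ← hw]
  exact _root_.norm_sub_le v w

theorem Mk.norm_sub_le {A : E →L[ℝ] E} (h : Mk A) (i : ℕ) :
    ‖e i - A (e i)‖ ≤ 2 * (1 - (A (e i)) i) := by
  set a := (A (e i)) i with ha
  have h1 : ‖A (e i) - a • e i‖ = 1 - a := by
    rw [norm_eq]
    have hs : Summable fun n => (A (e i)) n := by
      have := summ_mul (A (e i)) 1
      simpa using this
    have hs2 : Summable fun n => (a • e i : E) n := by
      have := summ_mul (a • e i) 1
      simpa using this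
    have e1 : ∀ n, |(A (e i) - a • e i : E) n| = (A (e i)) n - (a • e i : E) n := by
      intro n
      rw [lp.coeFn_sub, Pi.sub_apply]
      apply abs_of_nonneg
      rw [lp.coeFn_smul, Pi.smul_apply, smul_eq_mul]
      by_cases hn : n = i
      · subst hn; rw [e_self, ← ha]; linarith
      · rw [e_ne hn, mul_zero, sub_zero]; exact h.col_nonneg i n
    rw [tsum_congr e1, hs.tsum_sub hs2, h.col_sum i, tsum_eq_single i]
    · rw [lp.coeFn_smul, Pi.smul_apply, e_self, smul_eq_mul, mul_one]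
    · intro j hj
      rw [lp.coeFn_smul, Pi.smul_apply, e_ne hj, smul_zero]
  have h2 : e i - A (e i) = (1 - a) • e i - (A (e i) - a • e i) := by
    rw [sub_smul, one_smul]; abel
  have h3 : ‖(1 - a) • e i‖ = 1 - a := by
    rw [norm_smul, norm_e, mul_one, Real.norm_eq_abs,
      abs_of_nonneg (by linarith [h.diag_le_one i] : 0 ≤ 1 - a)]
  have h4 := tri _ _ _ _ _ h2 h3 h1
  linarith

theorem Mk.le_norm_sub {A : E →L[ℝ] E} (i : ℕ) :
    1 - (A (e i)) i ≤ ‖e i - A (e i)‖ := by
  have h1 := lp.norm_apply_le_norm (p := 1) (by norm_num) (e i - A (e i)) i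
  refine le_trans ?_ h1
  rw [lp.coeFn_sub, Pi.sub_apply, e_self]
  exact le_abs_self _

theorem opNorm_le {B : E →L[ℝ] E} {C : ℝ} (hC : ∀ i, ‖B (e i)‖ ≤ C) (x : E) :
    ‖B x‖ ≤ C * ‖x‖ := by
  have h1 := (hasSum_e x).mapL B
  have h2 : HasSum (fun n => C * |x n|) (C * ‖x‖) := by
    rw [norm_eq]
    exact (summ x).hasSum.mul_left C
  refine h1.norm_le_of_bounded h2 fun i => ?_
  rw [map_smul, norm_smul, Real.norm_eq_abs, mul_comm]
  exact mul_le_mul_of_nonneg_right (hC i) (abs_nonneg _)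

/-! ### integrals over the unit interval -/

theorem int_le (φ : ℝ → ℝ) (hφ : Continuous φ) (n : ℕ) (h B : ℝ) (hh : 0 ≤ h)
    (H : ∀ r ∈ Icc 0 h, ∑ k ∈ Finset.range n, φ (k * h + r) ≤ B) :
    ∫ t in (0 : ℝ)..(n * h), φ t ≤ h * B := by
  have h1 : ∫ t in (0 : ℝ)..(n * h), φ t =
      ∑ k ∈ Finset.range n, ∫ t in ((k : ℝ) * h)..(((k + 1 : ℕ) : ℝ) * h), φ t := by
    have := intervalIntegral.sum_integral_adjacent_intervals (f := φ)
      (μ := MeasureTheory.volume) (a := fun k : ℕ => (k : ℝ) * h) (n := n)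
      (fun k _ => hφ.intervalIntegrable _ _)
    rw [this]
    simp
  have h2 : ∀ k : ℕ, ∫ t in ((k : ℝ) * h)..(((k + 1 : ℕ) : ℝ) * h), φ t =
      ∫ r in (0 : ℝ)..h, φ (k * h + r) := by
    intro k
    rw [intervalIntegral.integral_comp_add_left (fun x => φ x) ((k : ℝ) * h)]
    congr 1
    · ring
    · push_cast; ring
  rw [h1, Finset.sum_congr rfl (fun k _ => h2 k), ← intervalIntegral.integral_finsetSum]
  · have h3 : ∫ r in (0 : ℝ)..h, ∑ k ∈ Finset.range n, φ (k * h + r) ≤ ∫ r in (0 : ℝ)..h, B := by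
      apply intervalIntegral.integral_mono_on hh
      · apply Continuous.intervalIntegrable
        fun_prop
      · exact continuous_const.intervalIntegrable _ _
      · exact H
    refine h3.trans (le_of_eq ?_)
    rw [intervalIntegral.integral_const, smul_eq_mul, sub_zero]
  · intro k _
    apply Continuous.intervalIntegrable
    fun_prop

end H520R3.MG
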