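import Mathlib
import Pool.Agent.H520R3.MG2

/-!
# Markov group conjecture, part III: the proof
-/

set_option autoImplicit false
open Set Filter Topology BoundedContinuousFunction

namespace H520R3.MG

/-- a Markovian semigroup on `ℓ¹` with bijective `T 1` -/
structure MSG (T : NNReal → (E →L[ℝ] E)) : Prop where
  zero : T 0 = ContinuousLinearMap.id ℝ E
  add : ∀ s t : NNReal, T (s + t) = (T s).comp (T t)
  cont : ∀ x : E, Continuous fun t : NNReal => T t x
  mkv : ∀ t, Mk (T t)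
  bij : Function.Bijective (T 1)

/-- dyadic times -/
noncomputable def hl (l : ℕ) : NNReal := (1 / 2) ^ l

theorem hl_succ (l : ℕ) : hl l = hl (l + 1) + hl (l + 1) := by
  unfold hl
  rw [pow_succ, ← mul_add]
  norm_num

theorem hl_mul (l : ℕ) : ((2 ^ l : ℕ) : NNReal) * hl l = 1 := by
  unfold hl
  push_cast
  rw [← mul_pow]
  norm_num

theorem hl_pos (l : ℕ) : 0 < hl l := by unfold hl; positivity

theorem hl_real (l : ℕ) : ((hl l : NNReal) : ℝ) = (1 / 2) ^ l := by
  unfold hl; push_cast; rfl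

section

variable {T : NNReal → (E →L[ℝ] E)}

/-- `ι ≤ M ‖T_t x‖` for `t ≤ 2` -/
theorem MSG.lower (hT : MSG T) : ∃ M : ℝ, 1 ≤ M ∧ ∀ t : NNReal, t ≤ 2 → ∀ x : E,
    ‖x‖ ≤ M * ‖T t x‖ := by
  obtain ⟨c, hc⟩ : ∃ c : ℝ, ∀ x : E, ‖x‖ ≤ c * ‖T 1 x‖ := by
    let eqv := ContinuousLinearEquiv.ofBijective (T 1) (LinearMap.ker_eq_bot.2 hT.bij.1)
      (LinearMap.range_eq_top.2 hT.bij.2)
    refine ⟨‖(eqv.symm : E →L[ℝ] E)‖, fun x => ?_⟩
    have h1 := (eqv.symm : E →L[ℝ] E).le_opNorm (T 1 x)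
    have h2 : (eqv.symm : E →L[ℝ] E) (T 1 x) = x := by
      change eqv.symm (T 1 x) = x
      have : T 1 x = eqv x := rfl
      rw [this, eqv.symm_apply_apply]
    rwa [h2] at h1
  set M := max 1 c with hM
  have hM1 : 1 ≤ M := le_max_left _ _
  have hcM : ∀ x : E, ‖x‖ ≤ M * ‖T 1 x‖ := fun x =>
    (hc x).trans (mul_le_mul_of_nonneg_right (le_max_right _ _) (norm_nonneg _))
  refine ⟨M * M, by nlinarith, ?_⟩
  intro t ht x
  have h1 : T 2 = (T 1).comp (T 1) := by rw [← hT.add]; norm_num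
  have h2 : T 2 = (T (2 - t)).comp (T t) := by rw [← hT.add, tsub_add_cancel_of_le ht]
  have h3 : ‖T 2 x‖ ≤ ‖T t x‖ := by
    rw [h2]
    exact (hT.mkv (2 - t)).contr _
  have h4 : T 2 x = T 1 (T 1 x) := by rw [h1]; rfl
  calc ‖x‖ ≤ M * ‖T 1 x‖ := hcM x
    _ ≤ M * (M * ‖T 1 (T 1 x)‖) := mul_le_mul_of_nonneg_left (hcM _) (by linarith)
    _ = M * M * ‖T 2 x‖ := by rw [h4]; ring
    _ ≤ M * M * ‖T t x‖ := mul_le_mul_of_nonneg_left h3 (by nlinarith)

theorem MSG.iterate (hT : MSG T) (h : NNReal) (f : F) (n : ℕ) :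
    (P (T h))^[n] f = P (T (n * h)) f := by
  induction n with
  | zero => simp [hT.zero, P_id]
  | succ n ih =>
    rw [Function.iterate_succ_apply', ih, ← P_comp, ← hT.add]
    congr 3
    push_cast
    ring

theorem MSG.P_add (hT : MSG T) (s t : NNReal) (f : F) : P (T (s + t)) f = P (T t) (P (T s) f) := by
  rw [hT.add, P_comp]

/-- diagonal entries are supermultiplicative -/
theorem MSG.diag_add (hT : MSG T) (i : ℕ) (s t : NNReal) :
    (T s (e i)) i * (T t (e i)) i ≤ (T (s + t) (e i)) i := by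
  have key : ∀ u, (T u (e i)) i = P (T u) (ind {i}) i := by
    intro u
    rw [P_apply, pairL_apply, tsum_eq_single i]
    · rw [ind_of_mem (mem_singleton i), mul_one]
    · intro j hj
      rw [ind_of_notMem (by simpa using hj), mul_zero]
  rw [key (s + t), hT.P_add]
  have h1 := (hT.mkv t).diag_le i (P (T s) (ind {i})) ((hT.mkv s).kern.pos _ (ind_nonneg _))
  rw [← key s] at h1
  linarith

/-- slow states at level `l` -/
def Sl (T : NNReal → (E →L[ℝ] E)) (l : ℕ) : Set ℕ :=
  {j | ∀ m, l < m → (3 : ℝ) / 4 < (T (hl m) (e j)) j}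

/-- states of level exactly `l` -/
def La (T : NNReal → (E →L[ℝ] E)) (l : ℕ) : Set ℕ :=
  {j | j ∈ Sl T l ∧ (T (hl l) (e j)) j ≤ 3 / 4}

theorem La_sub (l : ℕ) : La T l ⊆ Sl T l := fun _ h => h.1

theorem MSG.lazy (hT : MSG T) (l : ℕ) : Lazy (P (T (hl l))) (Sl T l) := by
  refine (hT.mkv _).lazy fun i hi => ?_
  have h1 := hi (l + 1) (by omega)
  have h2 := hT.diag_add i (hl (l + 1)) (hl (l + 1))
  rw [← hl_succ] at h2
  nlinarith

theorem ind_Sl_succ (l x : ℕ) : ind (Sl T (l + 1)) x = ind (Sl T l) x + ind (La T (l + 1)) x := by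
  by_cases h1 : x ∈ Sl T (l + 1)
  · by_cases h2 : (T (hl (l + 1)) (e x)) x ≤ 3 / 4
    · have h3 : x ∈ La T (l + 1) := ⟨h1, h2⟩
      have h4 : x ∉ Sl T l := fun h => absurd (h (l + 1) (by omega)) (not_lt.2 h2)
      rw [ind_of_mem h1, ind_of_mem h3, ind_of_notMem h4, zero_add]
    · have h3 : x ∉ La T (l + 1) := fun h => h2 h.2
      have h4 : x ∈ Sl T l := by
        intro m hm
        rcases Nat.eq_or_lt_of_le (Nat.succ_le_of_lt hm) with h | h
        · have h' : l + 1 = m := h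
          rw [← h']; exact not_le.1 h2
        · exact h1 m h
      rw [ind_of_mem h1, ind_of_notMem h3, ind_of_mem h4, add_zero]
  · have h3 : x ∉ La T (l + 1) := fun h => h1 h.1
    have h4 : x ∉ Sl T l := fun h => h1 fun m hm => h m (by omega)
    rw [ind_of_notMem h1, ind_of_notMem h3, ind_of_notMem h4, add_zero]

theorem V_eq_sum (K : F →ₗ[ℝ] F) (A : Set ℕ) (n : ℕ) :
    V K A n = ∑ k ∈ Finset.range n, K^[k] (ind A) := by
  induction n with
  | zero => rfl
  | succ n ih =>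
    rw [V, ih, Finset.sum_range_succ', map_sum, add_comm]
    congr 1
    refine Finset.sum_congr rfl fun k _ => ?_
    rw [Function.iterate_succ_apply']

theorem MSG.sum_visits (hT : MSG T) (l : ℕ) (r : NNReal) (A : Set ℕ) (i : ℕ) :
    ∑ k ∈ Finset.range (2 ^ l), P (T (k * hl l + r)) (ind A) i =
      P (T r) (V (P (T (hl l))) A (2 ^ l)) i := by
  rw [V_eq_sum, map_sum, BoundedContinuousFunction.coe_sum, Finset.sum_apply]
  refine Finset.sum_congr rfl fun k _ => ?_
  rw [hT.iterate, hT.P_add]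

/-- the main use of invertibility -/
theorem MSG.exit (hT : MSG T) {M : ℝ} (hM1 : 1 ≤ M)
    (hM : ∀ t : NNReal, t ≤ 2 → ∀ x : E, ‖x‖ ≤ M * ‖T t x‖) {N : ℕ}
    (hN : ∀ m, ∑ γ ∈ Finset.range (m + 1), |c N γ| ≤ 1 / (8 * M)) (l i : ℕ)
    (hi : (T (hl l) (e i)) i ≤ 3 / 4) (r : NNReal) (hr : r ≤ 1) :
    1 / (16 * M) ≤ P (T r) (U (P (T (hl l))) (Sl T l) (2 ^ l) N) i := by
  set K := P (T (hl l)) with hK
  set n := 2 ^ l with hn
  have hnh : (n : NNReal) * hl l = 1 := hl_mul l
  set y : E := e i - T (hl l) (e i) with hy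
  obtain ⟨f, hf, hfe⟩ := exists_dual (T ((n : NNReal) * hl l + r) y)
  have h1 : 1 / 4 ≤ ‖y‖ := by
    have := Mk.le_norm_sub (A := T (hl l)) i
    linarith
  have h2 : 1 / (4 * M) ≤ ‖T ((n : NNReal) * hl l + r) y‖ := by
    have := hM ((n : NNReal) * hl l + r) (by
      rw [hnh]
      calc (1 : NNReal) + r ≤ 1 + 1 := by gcongr
        _ = 2 := by norm_num) y
    rw [div_le_iff₀ (by linarith)]
    nlinarith
  have h3 : pairL f (T ((n : NNReal) * hl l + r) y) =
      P (T r) (K^[n] f - K^[n + 1] f) i := by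
    rw [hy, map_sub, map_sub, map_sub, hK, hT.iterate, hT.iterate, ← hT.P_add, ← hT.P_add]
    rw [BoundedContinuousFunction.coe_sub, Pi.sub_apply, P_apply, P_apply]
    congr 2
    have : T (((n + 1 : ℕ) : NNReal) * hl l + r) =
        (T ((n : NNReal) * hl l + r)).comp (T (hl l)) := by
      rw [← hT.add]
      congr 1
      push_cast
      ring
    rw [this]
    rfl
  have h4 : P (T r) (K^[n] f - K^[n + 1] f) i ≤
      1 / (8 * M) + 2 * P (T r) (U K (Sl T l) n N) i := by
    have h5 := (hT.mkv r).kern.mono (f := K^[n] f - K^[n + 1] f)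
      (g := (1 / (8 * M)) • (1 : F) + (2 : ℝ) • U K (Sl T l) n N) (fun x => by
        have := smoothing (hT.lazy l) hf hN n x
        simp only [BoundedContinuousFunction.coe_sub, Pi.sub_apply,
          BoundedContinuousFunction.coe_add, Pi.add_apply,
          BoundedContinuousFunction.coe_smul, BoundedContinuousFunction.coe_one,
          Pi.one_apply, smul_eq_mul, mul_one]
        exact (le_abs_self _).trans this) i
    rw [map_add, BoundedContinuousFunction.coe_add, Pi.add_apply, (hT.mkv r).kern.const,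
      map_smul] at h5
    exact h5
  rw [← h3, hfe] at h4
  have e1 : 1 / (4 * M) = 2 * (1 / (8 * M)) := by field_simp; norm_num
  have e2 : 1 / (16 * M) = (1 / (8 * M)) / 2 := by field_simp; norm_num
  rw [e1] at h2
  rw [e2]
  linarith

theorem MSG.exit0 (hT : MSG T) {M : ℝ} (hM1 : 1 ≤ M)
    (hM : ∀ t : NNReal, t ≤ 2 → ∀ x : E, ‖x‖ ≤ M * ‖T t x‖) {N : ℕ}
    (hN : ∀ m, ∑ γ ∈ Finset.range (m + 1), |c N γ| ≤ 1 / (8 * M)) (l i : ℕ)
    (hi : (T (hl l) (e i)) i ≤ 3 / 4) :
    1 / (16 * M) ≤ U (P (T (hl l))) (Sl T l) (2 ^ l) N i := by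
  have := hT.exit hM1 hM hN l i hi 0 (by norm_num)
  rwa [hT.zero, P_id] at this

/-- expected number of visits to the level set -/
theorem MSG.La_visits (hT : MSG T) {M : ℝ} (hM1 : 1 ≤ M)
    (hM : ∀ t : NNReal, t ≤ 2 → ∀ x : E, ‖x‖ ≤ M * ‖T t x‖) {N : ℕ}
    (hN : ∀ m, ∑ γ ∈ Finset.range (m + 1), |c N γ| ≤ 1 / (8 * M)) (l x : ℕ) :
    V (P (T (hl l))) (La T l) (2 ^ l) x ≤ 2 * N * (16 * M) := by
  set K := P (T (hl l)) with hK
  set n := 2 ^ l with hn
  set η : ℝ := 1 / (16 * M) with hη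
  have hη0 : 0 < η := by positivity
  have hη1 : η ≤ 1 := by
    rw [hη, div_le_one (by positivity)]; linarith
  have hL := hT.lazy l
  set R : ℝ := ⨆ y, V K (La T l) n y with hR
  have hbdd : BddAbove (range fun y => V K (La T l) n y) := by
    refine ⟨n, ?_⟩
    rintro _ ⟨y, rfl⟩
    exact V_le hL.kern _ _ _
  have hle : ∀ y, V K (La T l) n y ≤ R := fun y => le_ciSup hbdd y
  have hR0 : 0 ≤ R := (V_nonneg hL.kern _ n 0).trans (hle 0)
  have hBn : 0 ≤ 2 * (N : ℝ) + (1 - η) * R := by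
    have : 0 ≤ (1 - η) * R := mul_nonneg (by linarith) hR0
    positivity
  have h1 : ∀ i ∈ La T l, V K (La T l) n i ≤ 2 * N + (1 - η) * R := by
    intro i hi
    have h2 := visits hL (La_sub l) n R hle hR0 n le_rfl N i
    have h3 := hT.exit0 hM1 hM hN l i hi.2
    refine h2.trans ?_
    have : (1 - U K (Sl T l) n N i) * R ≤ (1 - η) * R :=
      mul_le_mul_of_nonneg_right (by linarith) hR0
    linarith
  have h2 : ∀ m, m ≤ n → ∀ y, V K (La T l) m y ≤ 2 * N + (1 - η) * R := by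
    intro m
    induction m with
    | zero => intro _ y; exact hBn
    | succ m ih =>
      intro hm y
      by_cases hy : y ∈ La T l
      · exact (V_mono' hL.kern _ hm y).trans (h1 y hy)
      · rw [V_succ, ind_of_notMem hy, zero_add]
        exact hL.kern.le_const (ih (by omega)) y
  have h3 : R ≤ 2 * N + (1 - η) * R := ciSup_le fun y => h2 n le_rfl y
  have h4 : η * R ≤ 2 * N := by linarith
  have h5 : R ≤ 2 * N * (16 * M) := by
    rw [hη, div_mul_eq_mul_div, one_mul, div_le_iff₀ (by positivity)] at h4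
    exact h4
  exact (hle x).trans h5

/-- probability of being in `A` -/
noncomputable def g (T : NNReal → (E →L[ℝ] E)) (A : Set ℕ) (i : ℕ) (t : ℝ) : ℝ :=
  P (T t.toNNReal) (ind A) i

theorem MSG.g_cont (hT : MSG T) (A : Set ℕ) (i : ℕ) : Continuous (g T A i) := by
  have h1 : Continuous fun t : NNReal => pairL (ind A) (T t (e i)) :=
    (pairL (ind A)).continuous.comp (hT.cont (e i))
  exact h1.comp continuous_real_toNNReal

theorem g_sum (A : Set ℕ) (i l : ℕ) (r : ℝ) (hr : 0 ≤ r) :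
    ∑ k ∈ Finset.range (2 ^ l), g T A i (k * ((hl l : NNReal) : ℝ) + r) =
      ∑ k ∈ Finset.range (2 ^ l), P (T (k * hl l + r.toNNReal)) (ind A) i := by
  refine Finset.sum_congr rfl fun k _ => ?_
  unfold g
  have : (k * ((hl l : NNReal) : ℝ) + r).toNNReal = k * hl l + r.toNNReal := by
    rw [Real.toNNReal_add (by positivity) hr]
    congr 1
    apply NNReal.eq
    rw [Real.coe_toNNReal _ (by positivity)]
    push_cast
    rfl
  rw [this]

theorem hl_mul_real (l : ℕ) : ((2 ^ l : ℕ) : ℝ) * ((hl l : NNReal) : ℝ) = 1 := by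
  have := congrArg (fun t : NNReal => (t : ℝ)) (hl_mul l)
  simpa using this

theorem hl_le_one (l : ℕ) : ((hl l : NNReal) : ℝ) ≤ 1 := by
  rw [hl_real]
  exact pow_le_one₀ (by norm_num) (by norm_num)

theorem MSG.int_bound (hT : MSG T) (A : Set ℕ) (i l : ℕ) (B : ℝ)
    (H : ∀ r : NNReal, r ≤ 1 → P (T r) (V (P (T (hl l))) A (2 ^ l)) i ≤ B) :
    ∫ t in (0 : ℝ)..1, g T A i t ≤ ((hl l : NNReal) : ℝ) * B := by
  have h1 := int_le (g T A i) (hT.g_cont A i) (2 ^ l) ((hl l : NNReal) : ℝ) B (by positivity) (by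
    intro r hr
    have e1 := g_sum (T := T) A i l r hr.1
    rw [e1, hT.sum_visits]
    apply H
    rw [← Real.toNNReal_one]
    exact Real.toNNReal_le_toNNReal (hr.2.trans (hl_le_one l)))
  rwa [hl_mul_real] at h1

theorem MSG.mem_Sl (hT : MSG T) (j : ℕ) : ∃ L, j ∈ Sl T L := by
  have h1 : Continuous fun t : NNReal => (T t (e j)) j := by
    have : Continuous fun t : NNReal => pairL (ind {j}) (T t (e j)) :=
      (pairL (ind {j})).continuous.comp (hT.cont (e j))
    refine this.congr fun t => ?_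
    rw [pairL_apply, tsum_eq_single j]
    · rw [ind_of_mem (mem_singleton j), mul_one]
    · intro k hk
      rw [ind_of_notMem (by simpa using hk), mul_zero]
  have h2 : Tendsto hl atTop (𝓝 0) := by
    unfold hl
    apply tendsto_pow_atTop_nhds_zero_of_lt_one (by norm_num)
    rw [← NNReal.coe_lt_coe]; norm_num
  have h3 := (h1.tendsto 0).comp h2
  rw [hT.zero] at h3
  have h4 : (ContinuousLinearMap.id ℝ E (e j)) j = 1 := e_self j
  rw [h4] at h3
  have h5 := h3.eventually (lt_mem_nhds (show (3 : ℝ) / 4 < 1 by norm_num))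
  obtain ⟨L, hL⟩ := eventually_atTop.1 h5
  exact ⟨L, fun m hm => hL m (by omega)⟩

theorem Sl_mono {l m : ℕ} (h : l ≤ m) : Sl T l ⊆ Sl T m := fun _ hx k hk => hx k (by omega)

theorem MSG.g_tendsto (hT : MSG T) (i : ℕ) (t : ℝ) :
    Tendsto (fun L => g T (Sl T L) i t) atTop (𝓝 1) := by
  have hcol := (hT.mkv t.toNNReal).col_sum i
  rw [← hcol]
  unfold g
  simp only [P_apply, pairL_apply]
  refine tendsto_tsum_of_dominated_convergence (bound := fun n => |(T t.toNNReal (e i)) n|)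
    (summ _) ?_ ?_
  · intro k
    obtain ⟨L, hL⟩ := hT.mem_Sl k
    refine tendsto_const_nhds.congr' ?_
    filter_upwards [eventually_ge_atTop L] with m hm
    rw [ind_of_mem (Sl_mono hm hL), mul_one]
  · refine Eventually.of_forall fun L k => ?_
    rw [norm_mul, Real.norm_eq_abs, Real.norm_eq_abs]
    have : |ind (Sl T L) k| ≤ 1 := by
      rw [abs_of_nonneg (ind_nonneg _ _)]; exact ind_le_one _ _
    calc _ ≤ |(T t.toNNReal (e i)) k| * 1 := mul_le_mul_of_nonneg_left this (abs_nonneg _)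
      _ = _ := mul_one _

theorem MSG.levels (hT : MSG T) : ∃ l₀ : ℕ, ∀ j, ∀ m, l₀ < m → (3 : ℝ) / 4 < (T (hl m) (e j)) j := by
  obtain ⟨M, hM1, hM⟩ := hT.lower
  obtain ⟨N, hN⟩ := exists_small (1 / (8 * M)) (by positivity)
  set η : ℝ := 1 / (16 * M) with hη
  have hη0 : 0 < η := by positivity
  set C : ℝ := 2 * N * (16 * M) with hC
  have hC0 : 0 ≤ C := by positivity
  -- integrals
  let a : ℕ → ℕ → ℝ := fun i L => ∫ t in (0 : ℝ)..1, g T (Sl T L) i t
  have ha_succ : ∀ i L, a i (L + 1) ≤ a i L + ((hl (L + 1) : NNReal) : ℝ) * C := by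
    intro i L
    have e1 : a i (L + 1) = a i L + ∫ t in (0 : ℝ)..1, g T (La T (L + 1)) i t := by
      change ∫ t in (0 : ℝ)..1, g T (Sl T (L + 1)) i t =
        (∫ t in (0 : ℝ)..1, g T (Sl T L) i t) + _
      rw [← intervalIntegral.integral_add ((hT.g_cont _ i).intervalIntegrable _ _)
        ((hT.g_cont _ i).intervalIntegrable _ _)]
      congr 1
      funext t
      unfold g
      have : ind (Sl T (L + 1)) = ind (Sl T L) + ind (La T (L + 1)) := by
        ext x; exact ind_Sl_succ L x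
      rw [this, map_add]
      rfl
    rw [e1]
    have e2 := hT.int_bound (La T (L + 1)) i (L + 1) C (fun r _ =>
      (hT.mkv r).kern.le_const (fun x => hT.La_visits hM1 hM hN (L + 1) x) i)
    linarith
  have ha_add : ∀ i L d, a i (L + d) ≤ a i L + C * (((hl L : NNReal) : ℝ) - ((hl (L + d) : NNReal) : ℝ)) := by
    intro i L d
    induction d with
    | zero => simp
    | succ d ih =>
      have h1 := ha_succ i (L + d)
      have h2 : ((hl (L + d) : NNReal) : ℝ) = 2 * ((hl (L + d + 1) : NNReal) : ℝ) := by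
        rw [hl_succ (L + d)]; push_cast; ring
      rw [show L + (d + 1) = L + d + 1 by ring]
      rw [h2] at ih
      linarith
  have ha_lim : ∀ i, Tendsto (a i) atTop (𝓝 1) := by
    intro i
    have h1 : (1 : ℝ) = ∫ t in (0 : ℝ)..1, (1 : ℝ) := by simp
    rw [h1]
    refine intervalIntegral.tendsto_integral_filter_of_dominated_convergence (fun _ => 1) ?_ ?_ ?_ ?_
    · exact Eventually.of_forall fun L => (hT.g_cont _ i).aestronglyMeasurable
    · refine Eventually.of_forall fun L => Eventually.of_forall fun t _ => ?_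
      unfold g
      rw [Real.norm_eq_abs]
      exact (hT.mkv _).kern.abs_le_const (fun x => by
        rw [abs_of_nonneg (ind_nonneg _ _)]; exact ind_le_one _ _) i
    · exact intervalIntegrable_const
    · exact Eventually.of_forall fun t _ => hT.g_tendsto i t
  have ha_one : ∀ i L, 1 ≤ a i L + C * ((hl L : NNReal) : ℝ) := by
    intro i L
    refine le_of_tendsto (ha_lim i) ?_
    filter_upwards [eventually_ge_atTop L] with m hm
    obtain ⟨d, rfl⟩ := Nat.exists_eq_add_of_le hm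
    have h1 := ha_add i L d
    have h2 : 0 ≤ C * ((hl (L + d) : NNReal) : ℝ) := by positivity
    linarith
  have ha_up : ∀ l i, i ∈ La T l → a i l ≤ (1 - η) + ((hl l : NNReal) : ℝ) * (2 * N) := by
    intro l i hi
    have hL := hT.lazy l
    have h1 := hT.int_bound (Sl T l) i l (2 * N + (1 - η) * (2 ^ l : ℕ)) (by
      intro r hr
      have h2 := (hT.mkv r).kern.mono (f := V (P (T (hl l))) (Sl T l) (2 ^ l))
        (g := (2 * (N : ℝ) + (2 ^ l : ℕ)) • (1 : F) -
          ((2 ^ l : ℕ) : ℝ) • U (P (T (hl l))) (Sl T l) (2 ^ l) N) (fun x => by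
          simp only [BoundedContinuousFunction.coe_sub, Pi.sub_apply,
            BoundedContinuousFunction.coe_smul, BoundedContinuousFunction.coe_one,
            Pi.one_apply, smul_eq_mul]
          have := visits hL (le_refl (Sl T l)) (2 ^ l) ((2 ^ l : ℕ) : ℝ)
            (fun y => V_le hL.kern _ _ y) (by positivity) (2 ^ l) le_rfl N x
          linarith) i
      rw [map_sub, BoundedContinuousFunction.coe_sub, Pi.sub_apply, (hT.mkv r).kern.const,
        map_smul] at h2
      have h2' : P (T r) (V (P (T (hl l))) (Sl T l) (2 ^ l)) i ≤ 2 * (N : ℝ) + (2 ^ l : ℕ) -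
          ((2 ^ l : ℕ) : ℝ) * P (T r) (U (P (T (hl l))) (Sl T l) (2 ^ l) N) i := h2
      have h3 := hT.exit hM1 hM hN l i hi.2 r hr
      have h4 : ((2 ^ l : ℕ) : ℝ) * η ≤ ((2 ^ l : ℕ) : ℝ) *
          P (T r) (U (P (T (hl l))) (Sl T l) (2 ^ l) N) i :=
        mul_le_mul_of_nonneg_left h3 (by positivity)
      linarith)
    refine h1.trans (le_of_eq ?_)
    have h5 := hl_mul_real l
    calc ((hl l : NNReal) : ℝ) * (2 * N + (1 - η) * (2 ^ l : ℕ))
        = (1 - η) * (((2 ^ l : ℕ) : ℝ) * ((hl l : NNReal) : ℝ)) + ((hl l : NNReal) : ℝ) * (2 * N) := by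
          ring
      _ = _ := by rw [h5, mul_one]
  -- level sets are empty for large l
  have hlim : Tendsto (fun l : ℕ => ((1 : ℝ) / 2) ^ l) atTop (𝓝 0) :=
    tendsto_pow_atTop_nhds_zero_of_lt_one (by norm_num) (by norm_num)
  obtain ⟨l₀, hl₀⟩ := eventually_atTop.1 (hlim.eventually
    (gt_mem_nhds (show (0 : ℝ) < η / (2 * N + C + 1) by positivity)))
  have hempty : ∀ l, l₀ ≤ l → ∀ i, i ∉ La T l := by
    intro l hl' i hi
    have h1 := ha_up l i hi
    have h2 := ha_one i l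
    have h3 := hl₀ l hl'
    rw [← hl_real, lt_div_iff₀ (by positivity)] at h3
    have h4 : (0 : ℝ) < ((hl l : NNReal) : ℝ) := by exact_mod_cast hl_pos l
    nlinarith
  have hdown : ∀ d j, j ∈ Sl T (l₀ + d) → j ∈ Sl T l₀ := by
    intro d
    induction d with
    | zero => exact fun j hj => hj
    | succ d ih =>
      intro j hj
      apply ih
      have hj' : j ∈ Sl T (l₀ + d + 1) := hj
      have h1 := ind_Sl_succ (T := T) (l₀ + d) j
      rw [ind_of_mem hj', ind_of_notMem (hempty (l₀ + d + 1) (by omega) j), add_zero] at h1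
      by_contra hcon
      rw [ind_of_notMem hcon] at h1
      norm_num at h1
  refine ⟨l₀, fun j m hm => ?_⟩
  obtain ⟨L, hL⟩ := hT.mem_Sl j
  exact hdown L j (Sl_mono (by omega) hL) m hm

end

end H520R3.MG
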