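import Mathlib
import Pool.Agent.H520R3.MG3

/-!
# Markov group conjecture, part IV: conclusion
-/

set_option autoImplicit false
open Set Filter Topology

namespace H520R3.MG

variable {T : NNReal → (E →L[ℝ] E)}

/-- the defect operator -/
noncomputable def Bd (T : NNReal → (E →L[ℝ] E)) (m : ℕ) : E →L[ℝ] E :=
  ContinuousLinearMap.id ℝ E - T (hl m)

theorem Bd_double (hT : MSG T) (m : ℕ) :
    (2 : ℝ) • Bd T (m + 1) = Bd T m + (Bd T (m + 1)).comp (Bd T (m + 1)) := by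
  ext x : 1
  have h1 : T (hl m) x = T (hl (m + 1)) (T (hl (m + 1)) x) := by
    rw [hl_succ m, hT.add]; rfl
  have e1 : ((2 : ℝ) • Bd T (m + 1)) x = (2 : ℝ) • (x - T (hl (m + 1)) x) := rfl
  have e2 : (Bd T m + (Bd T (m + 1)).comp (Bd T (m + 1))) x =
      (x - T (hl m) x) + ((x - T (hl (m + 1)) x) - T (hl (m + 1)) (x - T (hl (m + 1)) x)) := rfl
  rw [e1, e2, h1, map_sub, two_smul]
  abel

theorem Bd_rec (hT : MSG T) {l₀ : ℕ}
    (h : ∀ j, ∀ m, l₀ < m → (3 : ℝ) / 4 < (T (hl m) (e j)) j) :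
    ∀ k, ‖Bd T (l₀ + 1 + k)‖ ≤ 1 / 2 * (2 / 3) ^ k := by
  have hhalf : ∀ m, l₀ < m → ‖Bd T m‖ ≤ 1 / 2 := by
    intro m hm
    refine ContinuousLinearMap.opNorm_le_bound _ (by norm_num) (fun x => ?_)
    refine opNorm_le (fun i => ?_) x
    have h1 := (hT.mkv (hl m)).norm_sub_le i
    have h2 := h i m hm
    have e1 : (Bd T m) (e i) = e i - T (hl m) (e i) := rfl
    rw [e1]
    linarith
  intro k
  induction k with
  | zero => simpa using hhalf (l₀ + 1) (by omega)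
  | succ k ih =>
    have h1 := Bd_double hT (l₀ + 1 + k)
    have h2 := hhalf (l₀ + 1 + k + 1) (by omega)
    have h3 : 2 * ‖Bd T (l₀ + 1 + k + 1)‖ ≤
        ‖Bd T (l₀ + 1 + k)‖ + ‖Bd T (l₀ + 1 + k + 1)‖ * ‖Bd T (l₀ + 1 + k + 1)‖ := by
      have e1 : 2 * ‖Bd T (l₀ + 1 + k + 1)‖ = ‖(2 : ℝ) • Bd T (l₀ + 1 + k + 1)‖ := by
        rw [norm_smul]; norm_num
      rw [e1, h1]
      refine (norm_add_le _ _).trans ?_
      gcongr
      exact ContinuousLinearMap.opNorm_comp_le _ _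
    have h4 := norm_nonneg (Bd T (l₀ + 1 + k + 1))
    rw [show l₀ + 1 + (k + 1) = l₀ + 1 + k + 1 by ring, pow_succ]
    nlinarith

theorem approx (hT : MSG T) (x : E) (m : ℕ) : ∀ n, ∀ t : NNReal, t < hl m →
    ∃ t' : NNReal, t' < hl (m + n) ∧
      ‖x - T t x‖ ≤ (∑ j ∈ Finset.range n, ‖Bd T (m + 1 + j)‖) * ‖x‖ + ‖x - T t' x‖ := by
  intro n
  induction n with
  | zero => intro t ht; exact ⟨t, ht, by simp⟩
  | succ n ih =>
    intro t ht
    obtain ⟨t', ht', hle⟩ := ih t ht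
    rw [Finset.sum_range_succ, add_mul]
    have hB0 : 0 ≤ ‖Bd T (m + 1 + n)‖ * ‖x‖ := by positivity
    by_cases hc : t' < hl (m + n + 1)
    · exact ⟨t', hc, by linarith⟩
    · rw [not_lt] at hc
      obtain ⟨s, rfl⟩ : ∃ s, t' = hl (m + n + 1) + s := ⟨t' - hl (m + n + 1), by
        rw [add_tsub_cancel_of_le hc]⟩
      refine ⟨s, ?_, ?_⟩
      · rw [hl_succ (m + n)] at ht'
        exact lt_of_add_lt_add_left ht'
      · have e1 : x - T (hl (m + n + 1) + s) x =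
            (Bd T (m + 1 + n)) x + T (hl (m + n + 1)) (x - T s x) := by
          have e2 : T (hl (m + n + 1) + s) x = T (hl (m + n + 1)) (T s x) := by
            rw [hT.add]; rfl
          have e3 : (Bd T (m + 1 + n)) x = x - T (hl (m + n + 1)) x := by
            rw [show m + 1 + n = m + n + 1 by ring]; rfl
          rw [e2, e3, map_sub]
          abel
        have e4 : ‖x - T (hl (m + n + 1) + s) x‖ ≤ ‖Bd T (m + 1 + n)‖ * ‖x‖ + ‖x - T s x‖ := by
          rw [e1]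
          refine (norm_add_le _ _).trans ?_
          have e5 := (Bd T (m + 1 + n)).le_opNorm x
          have e6 := (hT.mkv (hl (m + n + 1))).contr (x - T s x)
          linarith
        linarith

theorem bound (hT : MSG T) {l₀ : ℕ}
    (h : ∀ j, ∀ m, l₀ < m → (3 : ℝ) / 4 < (T (hl m) (e j)) j) (k : ℕ) (t : NNReal)
    (ht : t < hl (l₀ + k)) : ‖T t - ContinuousLinearMap.id ℝ E‖ ≤ 3 / 2 * (2 / 3) ^ k := by
  refine ContinuousLinearMap.opNorm_le_bound _ (by positivity) fun x => ?_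
  have e0 : (T t - ContinuousLinearMap.id ℝ E) x = T t x - x := rfl
  rw [e0, norm_sub_rev]
  refine le_of_forall_pos_le_add fun ε hε => ?_
  -- strong continuity at zero
  have hc := (hT.cont x).tendsto 0
  have h0 : T 0 x = x := by rw [hT.zero]; rfl
  rw [h0] at hc
  have h2 : Tendsto hl atTop (𝓝 0) := by
    unfold hl
    apply tendsto_pow_atTop_nhds_zero_of_lt_one (by norm_num)
    rw [← NNReal.coe_lt_coe]; norm_num
  have h3 : ∀ᶠ t' in 𝓝 (0 : NNReal), ‖x - T t' x‖ < ε := by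
    have := hc.eventually (Metric.ball_mem_nhds x hε)
    filter_upwards [this] with t' ht'
    rw [← dist_eq_norm, dist_comm]
    exact ht'
  obtain ⟨δ, hδ, hδ2⟩ := Metric.eventually_nhds_iff.1 h3
  have h4 : ∀ᶠ n in atTop, hl n < δ.toNNReal := h2.eventually (gt_mem_nhds
    (Real.toNNReal_pos.2 hδ))
  obtain ⟨n, hn⟩ := eventually_atTop.1 h4
  obtain ⟨t', ht', hle⟩ := approx hT x (l₀ + k) n t ht
  have h5 : ‖x - T t' x‖ < ε := by
    apply hδ2
    rw [NNReal.dist_eq]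
    have h6 : t' < δ.toNNReal := ht'.trans (hn _ (by omega))
    have h7 : (t' : ℝ) < δ := Real.lt_toNNReal_iff_coe_lt.1 h6
    rw [NNReal.coe_zero, sub_zero, abs_of_nonneg t'.coe_nonneg]
    exact h7
  have h6 : ∑ j ∈ Finset.range n, ‖Bd T (l₀ + k + 1 + j)‖ ≤ 3 / 2 * (2 / 3) ^ k := by
    have e1 : ∀ n, ∑ j ∈ Finset.range n, ‖Bd T (l₀ + k + 1 + j)‖ ≤
        3 / 2 * (2 / 3) ^ k * (1 - (2 / 3) ^ n) := by
      intro n
      induction n with
      | zero => simp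
      | succ n ih =>
        rw [Finset.sum_range_succ]
        have h7 := Bd_rec hT h (k + n)
        rw [show l₀ + 1 + (k + n) = l₀ + k + 1 + n by ring, pow_add] at h7
        have h8 : (0 : ℝ) < (2 / 3) ^ k * (2 / 3) ^ n := by positivity
        rw [pow_succ (2 / 3 : ℝ) n]
        nlinarith
    refine (e1 n).trans ?_
    have : (0 : ℝ) ≤ (2 / 3) ^ n := by positivity
    have h9 : (0 : ℝ) ≤ 3 / 2 * (2 / 3) ^ k := by positivity
    nlinarith
  have h7 := mul_le_mul_of_nonneg_right h6 (norm_nonneg x)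
  linarith

theorem final (hT : MSG T) : Tendsto T (𝓝 0) (𝓝 (ContinuousLinearMap.id ℝ E)) := by
  obtain ⟨l₀, h⟩ := hT.levels
  rw [Metric.tendsto_nhds]
  intro ε hε
  have h1 : Tendsto (fun k : ℕ => 3 / 2 * ((2 : ℝ) / 3) ^ k) atTop (𝓝 (3 / 2 * 0)) :=
    (tendsto_pow_atTop_nhds_zero_of_lt_one (by norm_num) (by norm_num)).const_mul _
  rw [mul_zero] at h1
  obtain ⟨k, hk⟩ := (h1.eventually (gt_mem_nhds hε)).exists
  filter_upwards [gt_mem_nhds (hl_pos (l₀ + k))] with t ht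
  rw [dist_eq_norm]
  exact (bound hT h k t ht).trans_lt hk

theorem main :
    ∀ T : NNReal → (lp (fun _ : ℕ => ℝ) 1 →L[ℝ] lp (fun _ : ℕ => ℝ) 1),
      T 0 = ContinuousLinearMap.id ℝ (lp (fun _ : ℕ => ℝ) 1) →
      (∀ s t : NNReal, T (s + t) = (T s).comp (T t)) →
      (∀ x : lp (fun _ : ℕ => ℝ) 1, Continuous fun t : NNReal => T t x) →
      (∀ (t : NNReal) (x : lp (fun _ : ℕ => ℝ) 1), (∀ n : ℕ, 0 ≤ x n) →
          ∀ n : ℕ, 0 ≤ (T t x) n) →
      (∀ (t : NNReal) (x : lp (fun _ : ℕ => ℝ) 1), (∀ n : ℕ, 0 ≤ x n) →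
          ‖T t x‖ = ‖x‖) →
      Function.Bijective (T 1) →
      Filter.Tendsto T (nhds 0)
        (nhds (ContinuousLinearMap.id ℝ (lp (fun _ : ℕ => ℝ) 1))) :=
  fun _ h0 h1 h2 h3 h4 h5 => final ⟨h0, h1, h2, fun t => ⟨h3 t, h4 t⟩, h5⟩

end H520R3.MG
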